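import Pool.Agent.V11307.RI.Neg

set_option autoImplicit false

/-! Removing powers of two; `4 ∣ C(2m,m)` unless `m` is a power of two. -/

namespace V11307.RI

open Finset Nat

theorem strip_gen {C o' i e : ℕ} (hC : C ≠ 0) (ho' : Odd o') {S : ℤ} (h : ((C * o' : ℕ) : ℤ) ∣ 2 ^ e * S)
    (h2 : ∃ o : ℤ, Odd o ∧ (2 : ℤ) ^ i * (C : ℤ) ∣ o * S) : ((2 ^ i * (C * o') : ℕ) : ℤ) ∣ S := by
  obtain ⟨o, ho, hoS⟩ := h2
  have ho0 : o' ≠ 0 := by rintro rfl; exact absurd ho' (by decide)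
  have hE : 2 ^ i * (C * o') ≠ 0 := Nat.mul_ne_zero (by positivity) (Nat.mul_ne_zero hC ho0)
  obtain ⟨v, F, hF, hEF⟩ := Nat.exists_eq_two_pow_mul_odd hE
  have hF' : IsCoprime (F : ℤ) (2 : ℤ) := by
    have : Nat.Coprime F 2 := (Nat.coprime_two_right).2 hF
    exact_mod_cast Nat.isCoprime_iff_coprime.2 this
  have hEF' : ((2 ^ i * (C * o') : ℕ) : ℤ) = 2 ^ v * F := by exact_mod_cast hEF
  have h3 : (F : ℤ) ∣ S := by
    have h4 : (F : ℤ) ∣ 2 ^ (e + i) * S := by
      have h5 : ((2 ^ i * (C * o') : ℕ) : ℤ) ∣ 2 ^ (e + i) * S := by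
        obtain ⟨z, hz⟩ := h
        refine ⟨z, ?_⟩
        push_cast at hz ⊢
        rw [pow_add]
        linear_combination (2 : ℤ) ^ i * hz
      exact (Dvd.intro_left _ hEF'.symm).trans h5
    exact (hF'.pow_right (n := e + i)).dvd_of_dvd_mul_left h4
  have hc2 : ∀ x : ℤ, Odd x → IsCoprime ((2 : ℤ) ^ v) x := by
    intro x hx
    have : IsCoprime (2 : ℤ) x := by
      rw [Int.isCoprime_iff_gcd_eq_one]
      have h7 := Int.isCoprime_iff_gcd_eq_one.1 ((Prime.coprime_iff_not_dvd Int.prime_two).2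
        (fun hh => (Int.not_even_iff_odd.2 hx) (even_iff_two_dvd.2 hh)))
      exact h7
    exact this.pow_left
  have h6 : (2 : ℤ) ^ v ∣ S := by
    have h7 : (2 : ℤ) ^ v ∣ (o' : ℤ) * ((2 : ℤ) ^ i * (C : ℤ)) := by
      refine ⟨F, ?_⟩
      rw [← hEF']
      push_cast
      ring
    have hodd : Odd (o' : ℤ) := by exact_mod_cast ho'
    have h8 := (hc2 _ hodd).dvd_of_dvd_mul_left h7
    exact (hc2 o ho).dvd_of_dvd_mul_left (h8.trans hoS)
  have hcF : IsCoprime ((2 : ℤ) ^ v) (F : ℤ) := hF'.symm.pow_left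
  rw [hEF']
  exact hcF.mul_dvd h6 h3

theorem four_dvd_choose {m : ℕ} (h0 : m ≠ 0) (hm : ∀ t, m ≠ 2 ^ t) : 4 ∣ (2 * m).choose m := by
  have hpos : (2 * m).choose m ≠ 0 := (choose_pos' m).ne'
  haveI : Fact (Nat.Prime 2) := ⟨Nat.prime_two⟩
  rw [show 4 = 2 ^ 2 by norm_num, padicValNat_dvd_iff_le hpos]
  obtain ⟨B, hB⟩ : ∃ B, B = 2 * m + 2 := ⟨_, rfl⟩
  have vf : ∀ n, n < B → padicValNat 2 n ! = ∑ l ∈ Ico 1 B, n / 2 ^ l := fun n hn =>
    padicValNat_factorial (lt_of_le_of_lt (Nat.log_le_self _ _) hn)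
  have h := Nat.choose_mul_factorial_mul_factorial (show m ≤ 2 * m by omega)
  rw [show 2 * m - m = m by omega] at h
  have h1 := congrArg (padicValNat 2) h
  have p2 := m.factorial_ne_zero
  rw [padicValNat.mul (Nat.mul_ne_zero hpos p2) p2, padicValNat.mul hpos p2, vf _ (by omega), vf _ (by omega)] at h1
  obtain ⟨a, o, ho, hao⟩ := Nat.exists_eq_two_pow_mul_odd h0
  have ho3 : 3 ≤ o := by
    obtain ⟨w, hw⟩ := ho
    rcases Nat.eq_zero_or_pos w with h | h
    · exfalso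
      apply hm a
      rw [hao, hw, h]
      ring
    · omega
  obtain ⟨l0, hl0⟩ : ∃ l0, l0 = Nat.log 2 m + 1 := ⟨_, rfl⟩
  have hlow : 2 ^ (l0 - 1) ≤ m := by rw [hl0, Nat.add_sub_cancel]; exact Nat.pow_log_le_self 2 h0
  have hup : m < 2 ^ l0 := by rw [hl0]; exact Nat.lt_pow_succ_log_self (by norm_num) m
  have hal : a + 1 < l0 := by
    have : 2 ^ (a + 1) < 2 ^ l0 := by
      rw [pow_succ]
      have : 2 ^ a * 3 ≤ m := by rw [hao]; exact Nat.mul_le_mul_left _ ho3
      omega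
    exact (Nat.pow_lt_pow_iff_right (by norm_num)).1 this
  have hl0B : l0 < B := by
    have : Nat.log 2 m ≤ m := Nat.log_le_self _ _
    omega
  have h2 : ∑ l ∈ Ico 1 B, (m / 2 ^ l + m / 2 ^ l + (if l = a + 1 ∨ l = l0 then 1 else 0)) ≤
      ∑ l ∈ Ico 1 B, 2 * m / 2 ^ l := by
    refine sum_le_sum fun l hl => ?_
    rw [mem_Ico] at hl
    have hq : 0 < 2 ^ l := by positivity
    have hb : m / 2 ^ l + m / 2 ^ l ≤ 2 * m / 2 ^ l := by
      have := Nat.mul_div_le_mul_div_assoc 2 m (2 ^ l)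
      omega
    split_ifs with hc
    · rcases hc with hc | hc
      · obtain ⟨w, hw⟩ := ho
        have e1 : m = w * 2 ^ l + 2 ^ a := by rw [hao, hw, hc, pow_succ]; ring
        have e2 : 2 ^ a < 2 ^ l := Nat.pow_lt_pow_right (by norm_num) (by omega)
        have e3 : m / 2 ^ l = w := by
          rw [e1, Nat.add_comm, Nat.add_mul_div_right _ _ hq, Nat.div_eq_of_lt e2, zero_add]
        have e4 : 2 * m / 2 ^ l = 2 * w + 1 := by
          have : 2 * m = 0 + (2 * w + 1) * 2 ^ l := by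
            rw [e1]
            have : 2 ^ l = 2 * 2 ^ a := by rw [hc, pow_succ]; ring
            rw [this]; ring
          rw [this, Nat.add_mul_div_right _ _ hq]
          simp
        omega
      · subst hc
        have e1 : m / 2 ^ l = 0 := Nat.div_eq_of_lt hup
        have e2 : 1 ≤ 2 * m / 2 ^ l := by
          rw [Nat.le_div_iff_mul_le hq]
          have : 2 ^ l = 2 * 2 ^ (l - 1) := by
            rw [← pow_succ']; congr 1; omega
          omega
        omega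
    · omega
  rw [sum_add_distrib, sum_add_distrib, ← card_filter] at h2
  have h3 : 2 ≤ ((Ico 1 B).filter (fun l => l = a + 1 ∨ l = l0)).card := by
    have h4 : ({a + 1, l0} : Finset ℕ).card = 2 := Finset.card_pair (by omega)
    rw [← h4]
    refine card_le_card fun l hl => ?_
    rw [mem_insert, mem_singleton] at hl
    rw [mem_filter, mem_Ico]
    exact ⟨by omega, hl⟩
  omega

end V11307.RI
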