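import Pool.Agent.V11307.RI.Basic

set_option autoImplicit false

/-!
The integers `I(k,n) = 4^k C(n+k-1/2, k) = (2n+2k)! n! / ((n+k)! (2n)! k!)`.
-/

namespace V11307.RI

open Finset Nat

def I : ℕ → ℕ → ℕ
  | 0, _ => 1
  | k + 1, 0 => (2 * (k + 1)).choose (k + 1)
  | k + 1, n + 1 => I (k + 1) n + 4 * I k (n + 1)

theorem I_zero (n : ℕ) : I 0 n = 1 := by
  cases n <;> simp [I]

theorem I_succ_zero (k : ℕ) : I (k + 1) 0 = (2 * (k + 1)).choose (k + 1) := by
  simp [I]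

theorem I_succ_succ (k n : ℕ) : I (k + 1) (n + 1) = I (k + 1) n + 4 * I k (n + 1) := by
  rw [I]

theorem I_eq (k n : ℕ) : (I k n : ℚ) = ((2 * n + 2 * k)! : ℚ) * (n ! : ℚ) / (((n + k)! : ℚ) * ((2 * n)! : ℚ) * (k ! : ℚ)) := by
  induction k generalizing n with
  | zero =>
    have n1 : (n ! : ℚ) ≠ 0 := by exact_mod_cast n.factorial_ne_zero
    have n2 : ((2 * n)! : ℚ) ≠ 0 := by exact_mod_cast (2 * n).factorial_ne_zero
    rw [I_zero]
    simp only [Nat.mul_zero, Nat.add_zero, Nat.factorial_zero]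
    push_cast
    field_simp
  | succ k ih =>
    induction n with
    | zero =>
      rw [I_succ_zero, Nat.cast_choose ℚ (show k + 1 ≤ 2 * (k + 1) by omega),
        show 2 * (k + 1) - (k + 1) = k + 1 by omega]
      simp
    | succ n ihn =>
      rw [I_succ_succ]
      push_cast
      rw [ihn, ih]
      have e1 : ((2 * (n + 1) + 2 * (k + 1))! : ℚ) = (2 * n + 2 * k + 4) * ((2 * n + 2 * k + 3) * ((2 * n + 2 * (k + 1))! : ℚ)) := by
        rw [show 2 * (n + 1) + 2 * (k + 1) = 2 * n + 2 * (k + 1) + 1 + 1 by ring, Nat.factorial_succ, Nat.factorial_succ]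
        push_cast; ring
      have e2 : ((2 * (n + 1) + 2 * k)! : ℚ) = ((2 * n + 2 * (k + 1))! : ℚ) := by
        rw [show 2 * (n + 1) + 2 * k = 2 * n + 2 * (k + 1) by ring]
      have e3 : ((n + 1)! : ℚ) = (n + 1) * (n ! : ℚ) := by
        rw [Nat.factorial_succ]; push_cast; ring
      have e4 : ((k + 1)! : ℚ) = (k + 1) * (k ! : ℚ) := by
        rw [Nat.factorial_succ]; push_cast; ring
      have e5 : ((n + 1 + (k + 1))! : ℚ) = (n + k + 2) * ((n + (k + 1))! : ℚ) := by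
        rw [show n + 1 + (k + 1) = n + (k + 1) + 1 by ring, Nat.factorial_succ]; push_cast; ring
      have e6 : ((n + 1 + k)! : ℚ) = ((n + (k + 1))! : ℚ) := by
        rw [show n + 1 + k = n + (k + 1) by ring]
      have e7 : ((2 * (n + 1))! : ℚ) = (2 * n + 2) * ((2 * n + 1) * ((2 * n)! : ℚ)) := by
        rw [show 2 * (n + 1) = 2 * n + 1 + 1 by ring, Nat.factorial_succ, Nat.factorial_succ]
        push_cast; ring
      rw [e1, e2, e3, e4, e5, e6, e7]
      have n1 : (n ! : ℚ) ≠ 0 := by exact_mod_cast n.factorial_ne_zero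
      have n2 : ((2 * n)! : ℚ) ≠ 0 := by exact_mod_cast (2 * n).factorial_ne_zero
      have n3 : (k ! : ℚ) ≠ 0 := by exact_mod_cast k.factorial_ne_zero
      have n4 : ((n + (k + 1))! : ℚ) ≠ 0 := by exact_mod_cast (n + (k + 1)).factorial_ne_zero
      have n5 : ((n : ℚ) + k + 2) ≠ 0 := by positivity
      have n6 : ((k : ℚ) + 1) ≠ 0 := by positivity
      have n7 : ((n : ℚ) + 1) ≠ 0 := by positivity
      have n8 : (2 * (n : ℚ) + 1) ≠ 0 := by positivity
      have n9 : (2 * (n : ℚ) + 2) ≠ 0 := by positivity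
      generalize ((2 * n + 2 * (k + 1))! : ℚ) = A
      generalize (n ! : ℚ) = B at *
      generalize ((2 * n)! : ℚ) = C at *
      generalize (k ! : ℚ) = D at *
      generalize ((n + (k + 1))! : ℚ) = E at *
      field_simp
      ring

theorem even_I (k n : ℕ) : 2 ∣ I (k + 1) n := by
  induction n with
  | zero => rw [I_succ_zero]; exact two_dvd (by omega)
  | succ n ih =>
    rw [I_succ_succ]
    exact dvd_add ih (Dvd.dvd.mul_right (by norm_num) _)

/-- `I(k,1) = (2k+1) C(2k,k)` -/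
theorem I_one (k : ℕ) : I k 1 = (2 * k + 1) * (2 * k).choose k := by
  have h : (I k 1 : ℚ) = (((2 * k + 1) * (2 * k).choose k : ℕ) : ℚ) := by
    rw [I_eq]
    push_cast
    rw [Nat.cast_choose ℚ (show k ≤ 2 * k by omega), show 2 * k - k = k by omega]
    have e1 : ((2 * 1 + 2 * k)! : ℚ) = (2 * k + 2) * ((2 * k + 1) * ((2 * k)! : ℚ)) := by
      rw [show 2 * 1 + 2 * k = 2 * k + 1 + 1 by ring, Nat.factorial_succ, Nat.factorial_succ]
      push_cast; ring
    have e4 : ((1 + k)! : ℚ) = (k + 1) * (k ! : ℚ) := by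
      rw [show 1 + k = k + 1 by ring, Nat.factorial_succ]; push_cast; ring
    have n3 : (k ! : ℚ) ≠ 0 := by exact_mod_cast k.factorial_ne_zero
    have n6 : ((k : ℚ) + 1) ≠ 0 := by positivity
    rw [e1, e4]
    norm_num [Nat.factorial]
    field_simp
  exact_mod_cast h

/-- `4 ∣ C(4n+2,2n+1)` for `n ≥ 1` -/
theorem four_dvd {n : ℕ} (hn : 1 ≤ n) : 4 ∣ (2 * (2 * n + 1)).choose (2 * n + 1) := by
  obtain ⟨m, rfl⟩ : ∃ m, n = m + 1 := ⟨n - 1, by omega⟩
  have h := central (2 * (m + 1))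
  obtain ⟨u, hu⟩ := two_dvd (n := 2 * (m + 1)) (by omega)
  rw [hu] at h
  have hc : Nat.Coprime 4 (2 * (m + 1) + 1) := by
    have := (coprime_two (m + 1)).symm
    exact Nat.Coprime.pow_left 2 this
  refine hc.dvd_of_dvd_mul_left (m := 2 * (m + 1) + 1) ⟨(2 * (2 * (m + 1)) + 1) * u, ?_⟩
  rw [h]; ring

theorem M_mul (k : ℕ) : (((4 * k)! : ℕ) : ℚ) / (k ! : ℚ) ^ 4 = (((4 * k).choose (2 * k) * (2 * k).choose k ^ 2 : ℕ) : ℚ) := by
  push_cast
  rw [Nat.cast_choose ℚ (show 2 * k ≤ 4 * k by omega), Nat.cast_choose ℚ (show k ≤ 2 * k by omega),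
    show 4 * k - 2 * k = 2 * k by omega, show 2 * k - k = k by omega]
  have n3 : (k ! : ℚ) ≠ 0 := by exact_mod_cast k.factorial_ne_zero
  have n4 : ((2 * k)! : ℚ) ≠ 0 := by exact_mod_cast (2 * k).factorial_ne_zero
  field_simp

theorem M_succ (k : ℕ) : (((4 * (k + 1))! : ℕ) : ℚ) / ((k + 1)! : ℚ) ^ 4 * (k + 1) ^ 3 =
    8 * (2 * k + 1) * (4 * k + 1) * (4 * k + 3) * ((((4 * k)! : ℕ) : ℚ) / (k ! : ℚ) ^ 4) := by
  have e1 : ((4 * (k + 1))! : ℚ) = (4 * k + 4) * ((4 * k + 3) * ((4 * k + 2) * ((4 * k + 1) * ((4 * k)! : ℚ)))) := by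
    rw [show 4 * (k + 1) = 4 * k + 1 + 1 + 1 + 1 by ring, Nat.factorial_succ, Nat.factorial_succ, Nat.factorial_succ,
      Nat.factorial_succ]
    push_cast; ring
  have e4 : ((k + 1)! : ℚ) = (k + 1) * (k ! : ℚ) := by
    rw [Nat.factorial_succ]; push_cast; ring
  have n3 : (k ! : ℚ) ≠ 0 := by exact_mod_cast k.factorial_ne_zero
  have n6 : ((k : ℚ) + 1) ≠ 0 := by positivity
  rw [e1, e4]
  field_simp
  ring

end V11307.RI
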