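import Pool.Agent.V11307.RI.Six

set_option autoImplicit false

/-! The sums `∑_{k<n} (8k+1) (4k)!/(k!)^4 2304^(n-1-k)` -/

namespace V11307.RI.S2304

open Finset Nat

def S (n : ℕ) : ℤ := ∑ j ∈ range n, 2304 ^ (n - 1 - j) * (8 * (j : ℤ) + 1) * c4 j

theorem S_succ (n : ℕ) : S (n + 1) = 2304 * S n + (8 * (n : ℤ) + 1) * c4 n := by
  rw [S, sum_range_succ, S, mul_sum]
  congr 1
  · refine sum_congr rfl fun k hk => ?_
    rw [mem_range] at hk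
    have : n + 1 - 1 - k = (n - 1 - k) + 1 := by omega
    rw [this, pow_succ]
    ring
  · simp

def g (j k : ℕ) : ℚ :=
  16 ^ j * ((6 * j + 4 * k + 3)! : ℚ) * (j ! : ℚ) * ((2 * k)! : ℚ) /
    (6 * 3 ^ j * ((j + k)! : ℚ) ^ 2 * ((3 * j + 2 * k + 1)! : ℚ) * ((2 * j + 1)! : ℚ) * (k ! : ℚ) ^ 2)

def f (j k : ℕ) : ℚ :=
  (8 * ((j : ℚ) + k) - 2 * j + 1) * 16 ^ j * ((6 * j + 4 * k)! : ℚ) * ((2 * k)! : ℚ) * (j ! : ℚ) /
    (3 ^ j * ((3 * j + 2 * k)! : ℚ) * (k ! : ℚ) ^ 2 * ((j + k)! : ℚ) ^ 2 * ((2 * j)! : ℚ))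

theorem wz (j k : ℕ) : g j (k + 1) - 2304 * g j k = f j (k + 1) - f (j + 1) k := by
  have e1 : ((6 * j + 4 * (k + 1) + 3)! : ℚ) = (6 * j + 4 * k + 7) * ((6 * j + 4 * k + 6) * ((6 * j + 4 * k + 5) *
      ((6 * j + 4 * k + 4) * ((6 * j + 4 * k + 3)! : ℚ)))) := by
    rw [show 6 * j + 4 * (k + 1) + 3 = 6 * j + 4 * k + 3 + 1 + 1 + 1 + 1 by ring, Nat.factorial_succ,
      Nat.factorial_succ, Nat.factorial_succ, Nat.factorial_succ]
    push_cast; ring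
  have e1b : ((6 * j + 4 * (k + 1))! : ℚ) = (6 * j + 4 * k + 4) * ((6 * j + 4 * k + 3)! : ℚ) := by
    rw [show 6 * j + 4 * (k + 1) = 6 * j + 4 * k + 3 + 1 by ring, Nat.factorial_succ]
    push_cast; ring
  have e1c : ((6 * (j + 1) + 4 * k)! : ℚ) = (6 * j + 4 * k + 6) * ((6 * j + 4 * k + 5) *
      ((6 * j + 4 * k + 4) * ((6 * j + 4 * k + 3)! : ℚ))) := by
    rw [show 6 * (j + 1) + 4 * k = 6 * j + 4 * k + 3 + 1 + 1 + 1 by ring, Nat.factorial_succ,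
      Nat.factorial_succ, Nat.factorial_succ]
    push_cast; ring
  have e4 : ((2 * (k + 1))! : ℚ) = (2 * k + 2) * ((2 * k + 1) * ((2 * k)! : ℚ)) := by
    rw [show 2 * (k + 1) = 2 * k + 1 + 1 by ring, Nat.factorial_succ, Nat.factorial_succ]; push_cast; ring
  have e5 : ((k + 1)! : ℚ) = (k + 1) * (k ! : ℚ) := by
    rw [Nat.factorial_succ]; push_cast; ring
  have e5b : ((j + 1)! : ℚ) = (j + 1) * (j ! : ℚ) := by
    rw [Nat.factorial_succ]; push_cast; ring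
  have e6 : ((j + (k + 1))! : ℚ) = (j + k + 1) * ((j + k)! : ℚ) := by
    rw [show j + (k + 1) = j + k + 1 by ring, Nat.factorial_succ]; push_cast; ring
  have e7 : ((j + 1 + k)! : ℚ) = (j + k + 1) * ((j + k)! : ℚ) := by
    rw [show j + 1 + k = j + k + 1 by ring, Nat.factorial_succ]; push_cast; ring
  have e8 : ((3 * j + 2 * (k + 1) + 1)! : ℚ) = (3 * j + 2 * k + 3) * ((3 * j + 2 * k + 2) *
      ((3 * j + 2 * k + 1)! : ℚ)) := by
    rw [show 3 * j + 2 * (k + 1) + 1 = 3 * j + 2 * k + 1 + 1 + 1 by ring, Nat.factorial_succ, Nat.factorial_succ]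
    push_cast; ring
  have e8b : ((3 * j + 2 * (k + 1))! : ℚ) = (3 * j + 2 * k + 2) * ((3 * j + 2 * k + 1)! : ℚ) := by
    rw [show 3 * j + 2 * (k + 1) = 3 * j + 2 * k + 1 + 1 by ring, Nat.factorial_succ]
    push_cast; ring
  have e8c : ((3 * (j + 1) + 2 * k)! : ℚ) = (3 * j + 2 * k + 3) * ((3 * j + 2 * k + 2) *
      ((3 * j + 2 * k + 1)! : ℚ)) := by
    rw [show 3 * (j + 1) + 2 * k = 3 * j + 2 * k + 1 + 1 + 1 by ring, Nat.factorial_succ, Nat.factorial_succ]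
    push_cast; ring
  have e9 : ((2 * j + 1)! : ℚ) = (2 * j + 1) * ((2 * j)! : ℚ) := by
    rw [Nat.factorial_succ]; push_cast; ring
  have e9b : ((2 * (j + 1))! : ℚ) = (2 * j + 2) * ((2 * j + 1) * ((2 * j)! : ℚ)) := by
    rw [show 2 * (j + 1) = 2 * j + 1 + 1 by ring, Nat.factorial_succ, Nat.factorial_succ]; push_cast; ring
  unfold g f
  rw [e1, e1b, e1c, e4, e5, e5b, e6, e7, e8, e8b, e8c, e9, e9b]
  push_cast
  have n1 : (k ! : ℚ) ≠ 0 := by exact_mod_cast k.factorial_ne_zero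
  have n1' : (j ! : ℚ) ≠ 0 := by exact_mod_cast j.factorial_ne_zero
  have n2 : ((j + k)! : ℚ) ≠ 0 := by exact_mod_cast (j + k).factorial_ne_zero
  have n7 : ((3 * j + 2 * k + 1)! : ℚ) ≠ 0 := by exact_mod_cast (3 * j + 2 * k + 1).factorial_ne_zero
  have n8 : ((2 * j)! : ℚ) ≠ 0 := by exact_mod_cast (2 * j).factorial_ne_zero
  have n3 : ((j : ℚ) + k + 1) ≠ 0 := by positivity
  have n4 : ((k : ℚ) + 1) ≠ 0 := by positivity
  have n5 : (3 * (j : ℚ) + 2 * k + 2) ≠ 0 := by positivity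
  have n6 : (3 * (j : ℚ) + 2 * k + 3) ≠ 0 := by positivity
  have n9 : (2 * (j : ℚ) + 1) ≠ 0 := by positivity
  have n10 : (2 * (j : ℚ) + 2) ≠ 0 := by positivity
  generalize ((6 * j + 4 * k + 3)! : ℚ) = A
  generalize ((2 * k)! : ℚ) = B
  generalize (k ! : ℚ) = C at *
  generalize (j ! : ℚ) = C' at *
  generalize ((j + k)! : ℚ) = D at *
  generalize ((3 * j + 2 * k + 1)! : ℚ) = E at *
  generalize ((2 * j)! : ℚ) = F at *
  rw [pow_succ, pow_succ]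
  field_simp
  ring

theorem f_zero (n : ℕ) : f 0 n = (8 * (n : ℚ) + 1) * c4 n := by
  have n1 : (n ! : ℚ) ≠ 0 := by exact_mod_cast n.factorial_ne_zero
  have n2 : ((2 * n)! : ℚ) ≠ 0 := by exact_mod_cast (2 * n).factorial_ne_zero
  rw [c4_eq]
  unfold f
  simp only [Nat.mul_zero, Nat.zero_add, Nat.factorial_zero]
  push_cast
  field_simp
  ring_nf

theorem g_f {n : ℕ} (hn : 1 ≤ n) : g n 0 = f n 0 := by
  obtain ⟨m, rfl⟩ : ∃ m, n = m + 1 := ⟨n - 1, by omega⟩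
  have e1 : ((6 * (m + 1) + 4 * 0 + 3)! : ℚ) = (6 * m + 9) * ((6 * m + 8) * ((6 * m + 7) *
      ((6 * (m + 1) + 4 * 0)! : ℚ))) := by
    rw [Nat.factorial_succ, Nat.factorial_succ, Nat.factorial_succ]
    push_cast; ring
  have e2 : ((3 * (m + 1) + 2 * 0 + 1)! : ℚ) = (3 * m + 4) * ((3 * (m + 1) + 2 * 0)! : ℚ) := by
    rw [Nat.factorial_succ]
    push_cast; ring
  have e3 : ((2 * (m + 1) + 1)! : ℚ) = (2 * m + 3) * ((2 * (m + 1))! : ℚ) := by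
    rw [Nat.factorial_succ]
    push_cast; ring
  unfold g f
  rw [e1, e2, e3]
  have n2 : ((m + 1 + 0)! : ℚ) ≠ 0 := by exact_mod_cast (m + 1 + 0).factorial_ne_zero
  have n7 : ((3 * (m + 1) + 2 * 0)! : ℚ) ≠ 0 := by exact_mod_cast (3 * (m + 1) + 2 * 0).factorial_ne_zero
  have n8 : ((2 * (m + 1))! : ℚ) ≠ 0 := by exact_mod_cast (2 * (m + 1)).factorial_ne_zero
  have n3 : (2 * (m : ℚ) + 3) ≠ 0 := by positivity
  have n4 : (3 * (m : ℚ) + 4) ≠ 0 := by positivity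
  push_cast
  generalize ((6 * (m + 1) + 4 * 0)! : ℚ) = A at *
  generalize ((m + 1 + 0)! : ℚ) = D at *
  generalize ((3 * (m + 1) + 2 * 0)! : ℚ) = E at *
  generalize ((2 * (m + 1))! : ℚ) = F at *
  field_simp
  ring

theorem S_eq (n : ℕ) : (S (n + 1) : ℚ) = ∑ j ∈ range (n + 1), g j (n - j) := by
  refine V11307.RI.closed (m := 2304) (f := f) wz (fun n hn => g_f hn) (fun n => (S n : ℚ))
    (fun n => (8 * (n : ℚ) + 1) * c4 n) ?_ (fun n => by rw [S_succ]; push_cast; ring)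
    (fun n _ => f_zero n) n
  norm_num [S, g, c4, Nat.factorial]

theorem g_eq (j k : ℕ) : 6 * 3 ^ j * g j k = (2 * (j + k : ℕ) + 1) * ((2 * (j + k)).choose (j + k) : ℚ) *
    (16 ^ j * (I (2 * (j + k) + 1) (j + 1) : ℚ) * ((2 * k).choose k : ℚ)) := by
  rw [I_eq, choose_q, choose_q,
    show 2 * (j + 1) + 2 * (2 * (j + k) + 1) = 6 * j + 4 * k + 3 + 1 by ring,
    show j + 1 + (2 * (j + k) + 1) = 3 * j + 2 * k + 1 + 1 by ring,
    show 2 * (j + 1) = 2 * j + 1 + 1 by ring, Nat.factorial_succ (6 * j + 4 * k + 3), Nat.factorial_succ j,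
    Nat.factorial_succ (3 * j + 2 * k + 1), Nat.factorial_succ (2 * j + 1), Nat.factorial_succ (2 * (j + k))]
  unfold g
  have n1 : (k ! : ℚ) ≠ 0 := by exact_mod_cast k.factorial_ne_zero
  have n2 : ((j + k)! : ℚ) ≠ 0 := by exact_mod_cast (j + k).factorial_ne_zero
  have n7 : ((2 * (j + k))! : ℚ) ≠ 0 := by exact_mod_cast (2 * (j + k)).factorial_ne_zero
  have n10 : ((3 * j + 2 * k + 1)! : ℚ) ≠ 0 := by exact_mod_cast (3 * j + 2 * k + 1).factorial_ne_zero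
  have n11 : ((2 * j + 1)! : ℚ) ≠ 0 := by exact_mod_cast (2 * j + 1).factorial_ne_zero
  have n3 : (3 * (j : ℚ) + 2 * k + 1 + 1) ≠ 0 := by positivity
  have n4 : (2 * (j : ℚ) + 1 + 1) ≠ 0 := by positivity
  have n5 : (2 * ((j : ℚ) + k) + 1) ≠ 0 := by positivity
  push_cast
  field_simp
  ring

theorem six (n : ℕ) : ∃ e : ℕ, (2 * (n : ℤ) + 1) * ((2 * n).choose n : ℤ) ∣ 6 ^ e * S (n + 1) := by
  have h : 6 * 3 ^ n * (S (n + 1) : ℚ) = (2 * (n : ℚ) + 1) * ((2 * n).choose n : ℚ) *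
      ((∑ j ∈ range (n + 1), 3 ^ (n - j) * (16 ^ j * I (2 * n + 1) (j + 1) * (2 * (n - j)).choose (n - j)) : ℕ) : ℚ) := by
    rw [S_eq]
    push_cast
    rw [mul_sum, mul_sum]
    refine sum_congr rfl fun j hj => ?_
    rw [mem_range] at hj
    obtain ⟨k, rfl⟩ : ∃ k, n = j + k := ⟨n - j, by omega⟩
    rw [show j + k - j = k by omega]
    have := g_eq j k
    push_cast at this ⊢
    rw [pow_add]
    linear_combination 3 ^ k * this
  have h' : 6 * 3 ^ n * S (n + 1) = (2 * (n : ℤ) + 1) * ((2 * n).choose n : ℤ) *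
      ((∑ j ∈ range (n + 1), 3 ^ (n - j) * (16 ^ j * I (2 * n + 1) (j + 1) * (2 * (n - j)).choose (n - j)) : ℕ) : ℤ) := by
    exact_mod_cast h
  refine ⟨n + 1, 2 ^ n * ((∑ j ∈ range (n + 1), 3 ^ (n - j) * (16 ^ j * I (2 * n + 1) (j + 1) *
    (2 * (n - j)).choose (n - j)) : ℕ) : ℤ), ?_⟩
  have e6 : (6 : ℤ) ^ (n + 1) = 2 ^ n * (6 * 3 ^ n) := by
    rw [pow_succ, show (6 : ℤ) ^ n = 2 ^ n * 3 ^ n by rw [← mul_pow]; norm_num]; ring
  rw [e6]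
  linear_combination 2 ^ n * h'

end V11307.RI.S2304
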