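import Mathlib

set_option autoImplicit false

/-!
Shared facts on binomial coefficients for the integrality of normalised Ramanujan type sums.
-/

namespace V11307.RI

open Finset Nat

/-- the central coefficient relation -/
theorem central (n : ℕ) : (n + 1) * (2 * (n + 1)).choose (n + 1) = 2 * (2 * n + 1) * (2 * n).choose n := by
  have := Nat.succ_mul_centralBinom_succ n
  rwa [Nat.centralBinom_eq_two_mul_choose, Nat.centralBinom_eq_two_mul_choose] at this

theorem choose_pos' (n : ℕ) : 0 < (2 * n).choose n := Nat.choose_pos (by omega)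

theorem fuss (n : ℕ) : (2 * n + 1) ∣ (3 * n).choose n := by
  have h2 : (2 * n + 1) * (3 * n + 1).choose n = (3 * n + 1) * (3 * n).choose n := by
    have := Nat.choose_mul_succ_eq (3 * n) n
    rw [show 3 * n + 1 - n = 2 * n + 1 by omega] at this
    linarith
  have hc : Nat.Coprime (2 * n + 1) (3 * n + 1) := by
    rw [← Nat.isCoprime_iff_coprime]
    exact ⟨3, -2, by push_cast; ring⟩
  exact hc.dvd_of_dvd_mul_left (Dvd.intro _ h2)

theorem catalan (n : ℕ) : (2 * n + 1) ∣ (4 * n).choose (2 * n) := by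
  have := Nat.succ_dvd_centralBinom (2 * n)
  rwa [Nat.centralBinom_eq_two_mul_choose, show 2 * (2 * n) = 4 * n by ring] at this

theorem two_dvd {n : ℕ} (hn : 1 ≤ n) : 2 ∣ (2 * n).choose n := Nat.two_dvd_centralBinom_of_one_le hn

theorem coprime_self (n : ℕ) : Nat.Coprime (2 * n + 1) n := by
  rw [← Nat.isCoprime_iff_coprime]
  exact ⟨1, -2, by push_cast; ring⟩

theorem coprime_two (n : ℕ) : Nat.Coprime (2 * n + 1) 2 := by
  rw [← Nat.isCoprime_iff_coprime]
  exact ⟨1, -n, by push_cast; ring⟩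

/-- general telescoping -/
theorem tel {g f : ℕ → ℕ → ℚ} {m : ℚ} (wz : ∀ j k, g j (k + 1) - m * g j k = f j (k + 1) - f (j + 1) k)
    (n J : ℕ) (hJ : J ≤ n) : ∑ j ∈ range J, (g j (n - j) - m * g j (n - 1 - j)) = f 0 n - f J (n - J) := by
  induction J with
  | zero => simp
  | succ J ih =>
    rw [sum_range_succ, ih (by omega)]
    obtain ⟨k, hk⟩ : ∃ k, n = J + k + 1 := ⟨n - J - 1, by omega⟩
    have h1 : n - J = k + 1 := by omega
    have h2 : n - 1 - J = k := by omega
    have h3 : n - (J + 1) = k := by omega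
    rw [h1, h2, h3, wz]
    ring

/-- the sum `∑_{j+k=n} g(j,k)` satisfies the recurrence of the normalised partial sums -/
theorem closed {g f : ℕ → ℕ → ℚ} {m : ℚ} (wz : ∀ j k, g j (k + 1) - m * g j k = f j (k + 1) - f (j + 1) k)
    (hgf : ∀ n, 1 ≤ n → g n 0 = f n 0) (S c : ℕ → ℚ) (h1 : S 1 = g 0 0)
    (hS : ∀ n, S (n + 1) = m * S n + c n) (hc : ∀ n, 1 ≤ n → f 0 n = c n) (n : ℕ) :
    S (n + 1) = ∑ j ∈ range (n + 1), g j (n - j) := by
  induction n with
  | zero => simp [h1]
  | succ n ih =>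
    rw [hS, ih, sum_range_succ _ (n + 1), show n + 1 - (n + 1) = 0 by omega]
    have h1 := tel wz (n + 1) (n + 1) le_rfl
    rw [show n + 1 - (n + 1) = 0 by omega, sum_sub_distrib, ← mul_sum] at h1
    have h2 := hc (n + 1) (by omega)
    have h3 := hgf (n + 1) (by omega)
    have h4 : ∑ j ∈ range (n + 1), g j (n + 1 - 1 - j) = ∑ j ∈ range (n + 1), g j (n - j) :=
      sum_congr rfl fun j _ => by rw [Nat.add_sub_cancel]
    rw [h4] at h1
    linear_combination -h1 - h2 - h3

end V11307.RI
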