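import Pool.Agent.V11307.RI.Three
import Pool.Agent.V11307.RI.SC

set_option autoImplicit false

/-! Parity of `C(3m+2,m+1)` and integer forms of the weights. -/

namespace V11307.RI

open Finset Nat

theorem even_top (m : ℕ) : 2 ∣ (3 * m + 2).choose (m + 1) := by
  have h3 : (3 * m + 3) * (3 * m + 2).choose (m + 1) = (2 * m + 2) * (3 * m + 3).choose (m + 1) := by
    have h4 := Nat.choose_mul_succ_eq (3 * m + 2) (m + 1)
    rw [show 3 * m + 2 + 1 - (m + 1) = 2 * m + 2 by omega] at h4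
    linarith
  have h5 : 3 * (3 * m + 2).choose (m + 1) = 2 * (3 * m + 3).choose (m + 1) := by
    have : (m + 1) * (3 * (3 * m + 2).choose (m + 1)) = (m + 1) * (2 * (3 * m + 3).choose (m + 1)) := by
      linarith
    exact Nat.eq_of_mul_eq_mul_left (by omega) this
  have h6 : Nat.Coprime 2 3 := by norm_num
  exact h6.dvd_of_dvd_mul_left (Dvd.intro _ h5.symm)

/-- `3`-term weights in factorials -/
theorem c3_eq (k : ℕ) : (c3 k : ℚ) = ((2 * k)! : ℚ) * ((3 * k)! : ℚ) / (k ! : ℚ) ^ 5 := by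
  have h := c3_fact k
  have n1 : (k ! : ℚ) ≠ 0 := by exact_mod_cast k.factorial_ne_zero
  rw [eq_div_iff (by positivity)]
  exact_mod_cast h

theorem c4_eq (k : ℕ) : (c4 k : ℚ) = ((4 * k)! : ℚ) / (k ! : ℚ) ^ 4 := by
  have h := c4_fact k
  have n1 : (k ! : ℚ) ≠ 0 := by exact_mod_cast k.factorial_ne_zero
  rw [eq_div_iff (by positivity)]
  exact_mod_cast h

theorem choose_q (k : ℕ) : (((2 * k).choose k : ℕ) : ℚ) = ((2 * k)! : ℚ) / (k ! : ℚ) ^ 2 := by
  rw [Nat.cast_choose ℚ (show k ≤ 2 * k by omega), show 2 * k - k = k by omega]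
  ring

theorem fuss' (n : ℕ) : (2 * (n + 1) + 1) ∣ (3 * (n + 1)).choose (n + 1) := fuss (n + 1)

theorem cop4 (n : ℕ) : IsCoprime (2 * (n : ℤ) + 3) (n + 1) := ⟨1, -2, by ring⟩

theorem cop2 (n : ℕ) : IsCoprime (2 * (n : ℤ) + 3) 2 := ⟨1, -(n + 1), by ring⟩

theorem cop2p (n i : ℕ) : IsCoprime (2 * (n : ℤ) + 3) (2 ^ i) := (cop2 n).pow_right

theorem D_q (K : ℕ) : ((D K : ℕ) : ℚ) = (2 * K + 1) * (2 * K + 3) * ((2 * K).choose K : ℚ) := by
  unfold D; push_cast; ring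

/-- `n (2n+1) C(2n,n) = 2 D(n-1)` over the rationals -/
theorem D_q' (K : ℕ) : ((K + 1 : ℕ) : ℚ) * (2 * ((K + 1 : ℕ) : ℚ) + 1) * ((2 * (K + 1)).choose (K + 1) : ℚ) =
    2 * (D K : ℚ) := by
  have := D_eq K
  exact_mod_cast this

end V11307.RI
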