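import Mathlib

set_option autoImplicit false

/-! Divisibility of products of factorials from Legendre's formula. -/

namespace V11307.RI

open Finset Nat

theorem fact_prod_factorization {p : ℕ} (hp : p.Prime) (l : List ℕ) {B : ℕ} (hB : ∀ x ∈ l, x < B) :
    ((l.map Nat.factorial).prod).factorization p = ∑ i ∈ Ico 1 B, (l.map (fun x => x / p ^ i)).sum := by
  induction l with
  | nil => simp
  | cons x l ih =>
    have h1 : (l.map Nat.factorial).prod ≠ 0 := by
      apply List.prod_ne_zero
      simp [Nat.factorial_ne_zero]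
    simp only [List.map_cons, List.prod_cons, List.sum_cons]
    rw [Nat.factorization_mul (Nat.factorial_ne_zero x) h1, Finsupp.add_apply, ih (fun y hy => hB y (List.mem_cons_of_mem _ hy)),
      Nat.factorization_factorial hp (lt_of_le_of_lt (Nat.log_le_self _ _) (hB x List.mem_cons_self)), sum_add_distrib]

/-- `∏ den! ∣ ∏ num!` if all levels are fine -/
theorem fact_dvd (num den : List ℕ) (h : ∀ q, 2 ≤ q → (den.map (fun x => x / q)).sum ≤ (num.map (fun x => x / q)).sum) :
    (den.map Nat.factorial).prod ∣ (num.map Nat.factorial).prod := by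
  have h1 : ∀ l : List ℕ, (l.map Nat.factorial).prod ≠ 0 := by
    intro l
    apply List.prod_ne_zero
    simp [Nat.factorial_ne_zero]
  rw [← Nat.factorization_prime_le_iff_dvd (h1 _) (h1 _)]
  intro p hp
  obtain ⟨B, hB⟩ : ∃ B, B = (num ++ den).sum + 1 := ⟨_, rfl⟩
  have hB1 : ∀ x ∈ num ++ den, x < B := by
    intro x hx
    have := List.single_le_sum (l := num ++ den) (fun _ _ => Nat.zero_le _) x hx
    omega
  rw [fact_prod_factorization hp num (B := B) (fun x hx => hB1 x (List.mem_append_left _ hx)),
    fact_prod_factorization hp den (B := B) (fun x hx => hB1 x (List.mem_append_right _ hx))]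
  refine sum_le_sum fun i hi => h _ ?_
  rw [mem_Ico] at hi
  calc 2 ≤ p := hp.two_le
    _ = p ^ 1 := (pow_one p).symm
    _ ≤ p ^ i := Nat.pow_le_pow_right hp.pos hi.1

/-- the same away from the primes `2, 3` -/
theorem fact_dvd_six (num den : List ℕ)
    (h : ∀ q, 5 ≤ q → q % 2 ≠ 0 → q % 3 ≠ 0 → (den.map (fun x => x / q)).sum ≤ (num.map (fun x => x / q)).sum) :
    ∃ e : ℕ, (den.map Nat.factorial).prod ∣ 6 ^ e * (num.map Nat.factorial).prod := by
  have h1 : ∀ l : List ℕ, (l.map Nat.factorial).prod ≠ 0 := by
    intro l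
    apply List.prod_ne_zero
    simp [Nat.factorial_ne_zero]
  obtain ⟨e, he⟩ : ∃ e, e = (den.map Nat.factorial).prod := ⟨_, rfl⟩
  refine ⟨e, ?_⟩
  rw [← Nat.factorization_prime_le_iff_dvd (h1 _) (Nat.mul_ne_zero (by positivity) (h1 _))]
  intro p hp
  rw [Nat.factorization_mul (by positivity) (h1 _), Finsupp.add_apply]
  rcases Nat.lt_or_ge p 5 with h5 | h5
  · have hle : ((den.map Nat.factorial).prod).factorization p ≤ e := by
      rw [he]
      exact (Nat.factorization_lt p (h1 _)).le
    have h6 : e ≤ ((6 : ℕ) ^ e).factorization p := by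
      have h23 : p = 2 ∨ p = 3 := by
        interval_cases p
        · exact absurd hp (by norm_num)
        · exact absurd hp (by norm_num)
        · left; rfl
        · right; rfl
        · exact absurd hp (by norm_num)
      have hd : p ∣ 6 := by rcases h23 with rfl | rfl <;> norm_num
      have : p ^ e ∣ 6 ^ e := pow_dvd_pow_of_dvd hd e
      exact (hp.pow_dvd_iff_le_factorization (by positivity)).1 this
    omega
  · obtain ⟨B, hB⟩ : ∃ B, B = (num ++ den).sum + 1 := ⟨_, rfl⟩
    have hB1 : ∀ x ∈ num ++ den, x < B := by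
      intro x hx
      have := List.single_le_sum (l := num ++ den) (fun _ _ => Nat.zero_le _) x hx
      omega
    rw [fact_prod_factorization hp num (B := B) (fun x hx => hB1 x (List.mem_append_left _ hx)),
      fact_prod_factorization hp den (B := B) (fun x hx => hB1 x (List.mem_append_right _ hx))]
    refine (sum_le_sum fun i hi => h _ ?_ ?_ ?_).trans (Nat.le_add_left _ _)
    · rw [mem_Ico] at hi
      calc 5 ≤ p := h5
        _ = p ^ 1 := (pow_one p).symm
        _ ≤ p ^ i := Nat.pow_le_pow_right hp.pos hi.1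
    · intro h0
      have h7 : 2 ∣ p := Nat.prime_two.dvd_of_dvd_pow (Nat.dvd_of_mod_eq_zero h0)
      have := (Nat.prime_dvd_prime_iff_eq Nat.prime_two hp).1 h7
      omega
    · intro h0
      have h7 : 3 ∣ p := Nat.prime_three.dvd_of_dvd_pow (Nat.dvd_of_mod_eq_zero h0)
      have := (Nat.prime_dvd_prime_iff_eq Nat.prime_three hp).1 h7
      omega

end V11307.RI
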