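import Pool.Agent.V11307.RI.Six

set_option autoImplicit false

/-! Tools for the alternating sums: signs, `4^k C(a-1/2,k)`, telescoping in `(n,j)` coordinates. -/

namespace V11307.RI

open Finset Nat

theorem sign_gen {S W : ℕ → ℚ} {m C : ℚ} (hm : 0 < m) (hS : ∀ n, S (n + 1) = -m * S n + W n) (hW0 : ∀ n, 0 < W n)
    (hW : ∀ k, W (k + 2) ≤ C * W (k + 1)) (hC : 2 * C ≤ m) (h1 : 0 < S 1) (h2 : W 1 ≤ m / 2 * S 1) (n : ℕ) :
    0 < (-1) ^ n * S (n + 1) ∧ W (n + 1) ≤ m / 2 * ((-1) ^ n * S (n + 1)) := by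
  induction n with
  | zero => simpa using ⟨h1, h2⟩
  | succ n ih =>
    obtain ⟨i1, i2⟩ := ih
    have h3 := hS (n + 1)
    have h5 : (-1) ^ (n + 1) * S (n + 1 + 1) = m * ((-1) ^ n * S (n + 1)) + (-1) ^ (n + 1) * W (n + 1) := by
      rw [h3, pow_succ]; ring
    have h6 : -W (n + 1) ≤ (-1) ^ (n + 1) * W (n + 1) := by
      have := hW0 (n + 1)
      rcases neg_one_pow_eq_or ℚ (n + 1) with h | h <;> rw [h] <;> linarith
    have h7 := hW n
    have h8 : m / 2 * ((-1) ^ n * S (n + 1)) ≤ (-1) ^ (n + 1) * S (n + 1 + 1) := by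
      rw [h5]; linarith
    have h9 : 0 < m / 2 * ((-1) ^ n * S (n + 1)) := by positivity
    refine ⟨lt_of_lt_of_le h9 h8, ?_⟩
    have h10 := hW0 (n + 1)
    calc W (n + 1 + 1) ≤ C * W (n + 1) := h7
      _ ≤ m / 2 * W (n + 1) := by
        apply mul_le_mul_of_nonneg_right _ h10.le
        linarith
      _ ≤ m / 2 * (m / 2 * ((-1) ^ n * S (n + 1))) := mul_le_mul_of_nonneg_left i2 (by positivity)
      _ ≤ m / 2 * ((-1) ^ (n + 1) * S (n + 1 + 1)) := mul_le_mul_of_nonneg_left h8 (by positivity)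

/-! ### `4^k C(a-1/2,k)` -/

def Hq (k a : ℕ) : ℚ := 2 ^ k / (k ! : ℚ) * ∏ i ∈ range k, (2 * (a : ℚ) - 1 - 2 * i)

theorem Hq_zero (a : ℕ) : Hq 0 a = 1 := by simp [Hq]

theorem Hq_succ (k a : ℕ) : Hq (k + 1) a = Hq k a * (2 * (2 * a - 1 - 2 * k)) / (k + 1) := by
  unfold Hq
  have n1 : (k ! : ℚ) ≠ 0 := by exact_mod_cast k.factorial_ne_zero
  have n2 : ((k : ℚ) + 1) ≠ 0 := by positivity
  rw [prod_range_succ, Nat.factorial_succ, pow_succ]
  push_cast
  field_simp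

theorem Hq_succ' (k a : ℕ) : Hq (k + 1) (a + 1) = Hq k a * (2 * (2 * a + 1)) / (k + 1) := by
  unfold Hq
  have n1 : (k ! : ℚ) ≠ 0 := by exact_mod_cast k.factorial_ne_zero
  have n2 : ((k : ℚ) + 1) ≠ 0 := by positivity
  rw [prod_range_succ', Nat.factorial_succ, pow_succ]
  have : ∏ i ∈ range k, (2 * ((a + 1 : ℕ) : ℚ) - 1 - 2 * ((i + 1 : ℕ) : ℚ)) =
      ∏ i ∈ range k, (2 * (a : ℚ) - 1 - 2 * i) := by
    refine prod_congr rfl fun i _ => ?_
    push_cast; ring
  rw [this]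
  push_cast
  field_simp
  ring

def Hz : ℕ → ℕ → ℤ
  | 0, _ => 1
  | k + 1, 0 => (-1) ^ (k + 1) * ((2 * (k + 1)).choose (k + 1) : ℤ)
  | k + 1, a + 1 => Hz (k + 1) a + 4 * Hz k a

theorem Hz_eq (k a : ℕ) : (Hz k a : ℚ) = Hq k a := by
  induction k generalizing a with
  | zero => cases a <;> simp [Hz, Hq_zero]
  | succ k ih =>
    induction a with
    | zero =>
      rw [Hq_succ, ← ih, Hz]
      have n2 : ((k : ℚ) + 1) ≠ 0 := by positivity
      have h : (Hz k 0 : ℚ) = (-1) ^ k * ((2 * k).choose k : ℚ) := by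
        cases k with
        | zero => simp [Hz]
        | succ k => rw [Hz]; push_cast; ring
      have hc : ((k : ℚ) + 1) * ((2 * (k + 1)).choose (k + 1) : ℚ) = 2 * (2 * k + 1) * ((2 * k).choose k : ℚ) := by
        exact_mod_cast central k
      rw [h, eq_div_iff n2]
      push_cast
      rw [pow_succ]
      linear_combination (-1) * (-1) ^ k * hc
    | succ a iha =>
      rw [Hz]
      push_cast
      rw [iha, ih, Hq_succ, Hq_succ']
      have n2 : ((k : ℚ) + 1) ≠ 0 := by positivity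
      field_simp
      ring

/-! ### central coefficients with integer argument -/

def cb (x : ℤ) : ℚ := if 0 ≤ x then ((2 * x.toNat).choose x.toNat : ℚ) else 0

theorem cb_neg {x : ℤ} (h : x < 0) : cb x = 0 := by
  unfold cb; rw [if_neg (by omega)]

theorem cb_nat (n : ℕ) : cb (n : ℤ) = ((2 * n).choose n : ℚ) := by
  unfold cb; rw [if_pos (by omega)]; simp

theorem cb_succ (x : ℤ) : ((x : ℚ) + 1) * cb (x + 1) = 2 * (2 * x + 1) * cb x := by
  rcases lt_or_ge x 0 with h | h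
  · rw [cb_neg h]
    rcases lt_or_ge x (-1) with h' | h'
    · rw [cb_neg (by omega)]; ring
    · have : x = -1 := by omega
      subst this
      push_cast; ring
  · obtain ⟨n, rfl⟩ : ∃ n : ℕ, x = n := ⟨x.toNat, by omega⟩
    rw [cb_nat, show (n : ℤ) + 1 = ((n + 1 : ℕ) : ℤ) by push_cast; ring, cb_nat]
    have := central n
    exact_mod_cast this

theorem cb_int (x : ℤ) : ∃ z : ℤ, cb x = z := by
  unfold cb
  split_ifs
  · exact ⟨((2 * x.toNat).choose x.toNat : ℤ), by push_cast; rfl⟩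
  · exact ⟨0, by simp⟩

/-! ### telescoping in `(n,j)` coordinates -/

theorem closedL {F g : ℕ → ℕ → ℚ} {m : ℚ} {w S : ℕ → ℚ} (L : ℕ → ℕ) (hL : ∀ n, L n ≤ L (n + 1))
    (wz : ∀ n j, g (n + 1) j - m * g n j = F (n + 1) j - F (n + 1) (j + 1))
    (hS : ∀ n, S (n + 1) = m * S n + w n) (hF : ∀ n, F (n + 1) 0 = w (n + 1))
    (hF0 : ∀ n, F (n + 1) (L (n + 1)) = 0) (hg0 : ∀ n j, L n ≤ j → g n j = 0)
    (h1 : S 1 = ∑ j ∈ range (L 0), g 0 j) (n : ℕ) : S (n + 1) = ∑ j ∈ range (L n), g n j := by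
  induction n with
  | zero => exact h1
  | succ n ih =>
    have h2 : ∑ j ∈ range (L (n + 1)), g n j = ∑ j ∈ range (L n), g n j := by
      refine (sum_subset (range_subset_range.2 (hL n)) fun j _ hj => ?_).symm
      rw [mem_range, not_lt] at hj
      exact hg0 n j hj
    have h3 : ∑ j ∈ range (L (n + 1)), (g (n + 1) j - m * g n j) = F (n + 1) 0 - F (n + 1) (L (n + 1)) := by
      rw [sum_congr rfl fun j _ => wz n j]
      exact Finset.sum_range_sub' _ _
    rw [sum_sub_distrib, ← mul_sum, h2, hF0, hF] at h3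
    rw [hS, ih]
    linear_combination -h3

end V11307.RI
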