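import Pool.Agent.V11307.RI.SuperCat

set_option autoImplicit false

/-!
# Reduction to `(2n+1) C(2n,n) ∣ 6^e S_{n+1}` when `m` has only the primes `2, 3`
-/

namespace V11307.RI

open Finset Nat

theorem c3_mul (n : ℕ) : ∃ w : ℕ, c3 n = (2 * n).choose n * ((2 * n).choose n * ((2 * n + 1) * w)) := by
  obtain ⟨w, hw⟩ := fuss n
  exact ⟨w, by unfold c3; rw [hw]; ring⟩

theorem c4_mul (n : ℕ) : ∃ w : ℕ, c4 n = (2 * n).choose n * ((2 * n).choose n * ((2 * n + 1) * w)) := by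
  obtain ⟨w, hw⟩ := catalan n
  exact ⟨w, by unfold c4; rw [hw]; ring⟩

/-- the factor `2n+3` from the recurrence -/
theorem six_D {c : ℕ → ℕ} (hc : ∀ n, ∃ w : ℕ, c n = (2 * n).choose n * ((2 * n).choose n * ((2 * n + 1) * w)))
    {a b m : ℤ} {α : ℕ} (hm : m ∣ 6 ^ α) {S : ℕ → ℤ} (hS : ∀ n, S (n + 1) = m * S n + (a * n + b) * c n)
    (h6 : ∀ n : ℕ, ∃ e : ℕ, (2 * (n : ℤ) + 1) * ((2 * n).choose n : ℤ) ∣ 6 ^ e * S (n + 1)) (n : ℕ) :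
    ∃ e : ℕ, (D n : ℤ) ∣ 6 ^ e * S (n + 1) := by
  obtain ⟨e1, z1, h1⟩ := h6 n
  obtain ⟨e2, z2, h2⟩ := h6 (n + 1)
  obtain ⟨w, hw⟩ := hc (n + 1)
  obtain ⟨m', hm'⟩ := hm
  have h3 := hS (n + 1)
  rw [hw] at h3
  have hcen : ((n : ℤ) + 1) * ((2 * (n + 1)).choose (n + 1) : ℤ) = 2 * (2 * n + 1) * ((2 * n).choose n : ℤ) := by
    exact_mod_cast central n
  have hpos : ((2 * (n + 1)).choose (n + 1) : ℤ) ≠ 0 := by exact_mod_cast (choose_pos' (n + 1)).ne'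
  push_cast at h2 h3
  have h4 : (2 * (n : ℤ) + 3) * (2 * 6 ^ e1 * z2) = m * 6 ^ e2 * (n + 1) * z1 +
      (2 * n + 3) * (2 * 6 ^ e1 * 6 ^ e2 * (a * (n + 1) + b) * ((2 * (n + 1)).choose (n + 1) : ℤ) * w) := by
    apply mul_left_cancel₀ hpos
    linear_combination (-2) * 6 ^ e1 * h2 + 2 * 6 ^ e1 * 6 ^ e2 * h3 + 2 * m * 6 ^ e2 * h1 - m * 6 ^ e2 * z1 * hcen
  have h5 : (2 * (n : ℤ) + 3) ∣ (n + 1) * (m * 6 ^ e2 * z1) :=
    ⟨2 * 6 ^ e1 * z2 - 2 * 6 ^ e1 * 6 ^ e2 * (a * (n + 1) + b) * ((2 * (n + 1)).choose (n + 1) : ℤ) * w,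
      by linear_combination -h4⟩
  obtain ⟨z, hz⟩ := (cop4 n).dvd_of_dvd_mul_left h5
  refine ⟨e1 + e2 + α, m' * z, ?_⟩
  unfold D
  push_cast
  rw [pow_add, pow_add]
  linear_combination 6 ^ e2 * 6 ^ α * h1 + (2 * (n : ℤ) + 1) * ((2 * n).choose n : ℤ) * m' * hz +
    6 ^ e2 * (2 * (n : ℤ) + 1) * ((2 * n).choose n : ℤ) * z1 * hm'

/-- the `2`-part -/
theorem two_part {c : ℕ → ℕ} {κ : ℤ} (hc : ∀ n, κ * ((2 * (n + 1)).choose (n + 1) : ℤ) ∣ c (n + 1))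
    {a b m : ℤ} (hm : 2 ∣ m) {S : ℕ → ℤ} (hS : ∀ n, S (n + 1) = m * S n + (a * n + b) * c n)
    (h1 : κ * 2 ∣ S 2) (n : ℕ) :
    ∃ o : ℤ, Odd o ∧ κ * ((2 * (n + 1)).choose (n + 1) : ℤ) ∣ o * S (n + 2) := by
  induction n with
  | zero => exact ⟨1, odd_one, by simpa [Nat.choose] using h1⟩
  | succ n ih =>
    obtain ⟨o, ho, z, hz⟩ := ih
    obtain ⟨m', rfl⟩ := hm
    obtain ⟨w, hw⟩ := hc (n + 1)
    have hcen : ((n : ℤ) + 2) * ((2 * (n + 2)).choose (n + 2) : ℤ) =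
        2 * (2 * n + 3) * ((2 * (n + 1)).choose (n + 1) : ℤ) := by
      have := central (n + 1)
      have h' : (((n + 1 + 1) * (2 * (n + 1 + 1)).choose (n + 1 + 1) : ℕ) : ℤ) =
        ((2 * (2 * (n + 1) + 1) * (2 * (n + 1)).choose (n + 1) : ℕ) : ℤ) := by rw [this]
      push_cast at h'
      linear_combination h'
    refine ⟨o * (2 * n + 3), ho.mul ⟨n + 1, by ring⟩, z * m' * (n + 2) + o * (2 * n + 3) * (a * (n + 2) + b) * w, ?_⟩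
    have h2 := hS (n + 2)
    rw [show n + 1 + 1 = n + 2 by ring] at hw ⊢
    rw [show n + 1 + 2 = n + 2 + 1 by ring, h2, hw]
    push_cast
    linear_combination 2 * m' * (2 * n + 3) * hz - κ * z * m' * hcen

theorem two_part3 {a b m : ℤ} (hm : 4 ∣ m) {S : ℕ → ℤ} (h0 : S 0 = 0)
    (hS : ∀ n, S (n + 1) = m * S n + (a * n + b) * c3 n) (n : ℕ) :
    ∃ o : ℤ, Odd o ∧ 2 * ((2 * (n + 1)).choose (n + 1) : ℤ) ∣ o * S (n + 2) := by
  refine two_part (fun n => ?_) ((show (2 : ℤ) ∣ 4 by norm_num).trans hm) hS ?_ n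
  · obtain ⟨u, hu⟩ := two_dvd (n := n + 1) (by omega)
    obtain ⟨w, hw⟩ := c3_mul (n + 1)
    rw [hw]
    generalize (2 * (n + 1)).choose (n + 1) = C at *
    refine ⟨(u : ℤ) * ((2 * (n + 1) + 1) * w), ?_⟩
    push_cast
    have hu' : (C : ℤ) = 2 * u := by exact_mod_cast hu
    linear_combination (C : ℤ) * ((2 * (n + 1) + 1) * w) * hu'
  · have h1 := hS 0
    have h2 := hS 1
    rw [h0] at h1
    rw [h1] at h2
    have e0 : c3 0 = 1 := by norm_num [c3]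
    have e1 : c3 1 = 12 := by norm_num [c3, Nat.choose]
    rw [e0, e1] at h2
    obtain ⟨m', rfl⟩ := hm
    refine ⟨m' * b + 3 * (a + b), ?_⟩
    rw [h2]
    push_cast
    ring

theorem two_part4 {a b m : ℤ} (hm : 8 ∣ m) {S : ℕ → ℤ} (h0 : S 0 = 0)
    (hS : ∀ n, S (n + 1) = m * S n + (a * n + b) * c4 n) (n : ℕ) :
    ∃ o : ℤ, Odd o ∧ 4 * ((2 * (n + 1)).choose (n + 1) : ℤ) ∣ o * S (n + 2) := by
  refine two_part (fun n => ?_) ((show (2 : ℤ) ∣ 8 by norm_num).trans hm) hS ?_ n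
  · obtain ⟨u, hu⟩ := two_dvd (n := n + 1) (by omega)
    obtain ⟨v, hv⟩ := two_dvd (n := 2 * (n + 1)) (by omega)
    unfold c4
    rw [show 4 * (n + 1) = 2 * (2 * (n + 1)) by ring, hv]
    generalize (2 * (n + 1)).choose (n + 1) = C at *
    refine ⟨(u : ℤ) * v, ?_⟩
    push_cast
    have hu' : (C : ℤ) = 2 * u := by exact_mod_cast hu
    linear_combination 2 * (C : ℤ) * v * hu'
  · have h1 := hS 0
    have h2 := hS 1
    rw [h0] at h1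
    rw [h1] at h2
    have e0 : c4 0 = 1 := by norm_num [c4]
    have e1 : c4 1 = 24 := by norm_num [c4, Nat.choose]
    rw [e0, e1] at h2
    obtain ⟨m', rfl⟩ := hm
    refine ⟨m' * b + 3 * (a + b), ?_⟩
    rw [h2]
    push_cast
    ring

/-- removing the power of `2` -/
theorem strip_two {K e i : ℕ} {S : ℤ} (h : (D K : ℤ) ∣ 6 ^ e * S)
    (h2 : ∃ o : ℤ, Odd o ∧ (2 : ℤ) ^ i * ((2 * K).choose K : ℤ) ∣ o * S) :
    ((2 ^ i * D K : ℕ) : ℤ) ∣ 3 ^ e * S := by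
  obtain ⟨o, ho, hoS⟩ := h2
  have hE : 2 ^ i * D K ≠ 0 := Nat.mul_ne_zero (by positivity) (D_pos K).ne'
  obtain ⟨v, F, hF, hEF⟩ := Nat.exists_eq_two_pow_mul_odd hE
  have hF' : IsCoprime (F : ℤ) (2 : ℤ) := by
    have : Nat.Coprime F 2 := (Nat.coprime_two_right).2 hF
    exact_mod_cast Nat.isCoprime_iff_coprime.2 this
  have hEF' : ((2 ^ i * D K : ℕ) : ℤ) = 2 ^ v * F := by exact_mod_cast hEF
  -- the odd part
  have h3 : (F : ℤ) ∣ 3 ^ e * S := by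
    have h4 : (F : ℤ) ∣ 2 ^ (e + i) * (3 ^ e * S) := by
      have h5 : ((2 ^ i * D K : ℕ) : ℤ) ∣ 2 ^ (e + i) * (3 ^ e * S) := by
        obtain ⟨z, hz⟩ := h
        refine ⟨z, ?_⟩
        have : (6 : ℤ) ^ e = 2 ^ e * 3 ^ e := by rw [← mul_pow]; norm_num
        rw [this] at hz
        push_cast
        rw [pow_add]
        linear_combination (2 : ℤ) ^ i * hz
      exact (Dvd.intro_left _ hEF'.symm).trans h5
    exact (hF'.pow_right (n := e + i)).dvd_of_dvd_mul_left h4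
  have hc2 : ∀ x : ℤ, Odd x → IsCoprime ((2 : ℤ) ^ v) x := by
    intro x hx
    have : IsCoprime (2 : ℤ) x := by
      rw [Int.isCoprime_iff_gcd_eq_one]
      have h7 := Int.isCoprime_iff_gcd_eq_one.1 ((Prime.coprime_iff_not_dvd Int.prime_two).2
        (fun hh => (Int.not_even_iff_odd.2 hx) (even_iff_two_dvd.2 hh)))
      exact h7
    exact this.pow_left
  -- the even part
  have h6 : (2 : ℤ) ^ v ∣ S := by
    have h7 : (2 : ℤ) ^ v ∣ ((2 * K + 1) * (2 * K + 3)) * ((2 : ℤ) ^ i * ((2 * K).choose K : ℤ)) := by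
      refine ⟨F, ?_⟩
      rw [← hEF']
      unfold D
      push_cast
      ring
    have hodd : Odd ((2 * (K : ℤ) + 1) * (2 * K + 3)) :=
      Odd.mul ⟨K, rfl⟩ ⟨K + 1, by ring⟩
    have h8 := (hc2 _ hodd).dvd_of_dvd_mul_left h7
    exact (hc2 o ho).dvd_of_dvd_mul_left (h8.trans hoS)
  have hcF : IsCoprime ((2 : ℤ) ^ v) (F : ℤ) := hF'.symm.pow_left
  rw [hEF']
  exact hcF.mul_dvd (Dvd.dvd.mul_left h6 _) h3

/-- `3 ∣ b`: no loss at all -/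
theorem three_main_b {c : ℕ → ℕ} {ph : ℕ → ℕ → ℕ} (hc : Good3 c ph) {a b m : ℤ} (hm : 3 ∣ m) (hb : 3 ∣ b) {S : ℕ → ℤ}
    (h0 : S 0 = 0) (hS : ∀ n, S (n + 1) = m * S n + (a * n + b) * c n) (K : ℕ) :
    (3 : ℤ) ^ padicValNat 3 (D K) ∣ S (K + 1) := by
  rw [hS]
  refine dvd_add (three_tail hc hm h0 hS K) ?_
  rcases Nat.eq_zero_or_pos (K % 3) with h | h
  · have h1 := val_top hc K
    refine pow_dvd_of_val (e := 1) h1 ?_ dvd_rfl
    have h3 : (3 : ℤ) ∣ K := by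
      have : 3 ∣ K := Nat.dvd_of_mod_eq_zero h
      exact_mod_cast this
    rw [pow_one]
    exact dvd_add (Dvd.dvd.mul_left h3 a) hb
  · have h1 : padicValNat 3 (D K) ≤ padicValNat 3 (c K) := by
      by_cases hK : ∀ t, 2 * K + 3 ≠ 3 ^ t
      · exact val_top' hc hK
      · exfalso
        push Not at hK
        obtain ⟨t, ht⟩ := hK
        have ht1 : 1 ≤ t := by
          by_contra hh
          have : t = 0 := by omega
          rw [this] at ht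
          omega
        obtain ⟨u, hu⟩ := three_dvd_pow ht1
        omega
    have h2 := pow_dvd_of_val (a := c K) (v := padicValNat 3 (D K)) (e := 0) (z := 1) (w := (a * K + b) * c K)
      (by omega) (by simp) (Dvd.intro_left _ rfl)
    rwa [one_mul] at h2

theorem main3 {a b m : ℤ} {α : ℕ} (hm : m ∣ 6 ^ α) (h4 : 4 ∣ m) {S : ℕ → ℤ} (h0 : S 0 = 0)
    (hS : ∀ n, S (n + 1) = m * S n + (a * n + b) * c3 n)
    (h6 : ∀ n : ℕ, ∃ e : ℕ, (2 * (n : ℤ) + 1) * ((2 * n).choose n : ℤ) ∣ 6 ^ e * S (n + 1)) {n : ℕ} (hn : 1 ≤ n) :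
    ∃ e : ℕ, ((2 * D n : ℕ) : ℤ) ∣ 3 ^ e * S (n + 1) := by
  obtain ⟨k, rfl⟩ : ∃ k, n = k + 1 := ⟨n - 1, by omega⟩
  obtain ⟨e, he⟩ := six_D c3_mul hm hS h6 (k + 1)
  have h2 := two_part3 h4 h0 hS k
  exact ⟨e, strip_two (i := 1) he (by simpa using h2)⟩

theorem main4 {a b m : ℤ} {α : ℕ} (hm : m ∣ 6 ^ α) (h8 : 8 ∣ m) {S : ℕ → ℤ} (h0 : S 0 = 0)
    (hS : ∀ n, S (n + 1) = m * S n + (a * n + b) * c4 n)
    (h6 : ∀ n : ℕ, ∃ e : ℕ, (2 * (n : ℤ) + 1) * ((2 * n).choose n : ℤ) ∣ 6 ^ e * S (n + 1)) {n : ℕ} (hn : 1 ≤ n) :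
    ∃ e : ℕ, ((4 * D n : ℕ) : ℤ) ∣ 3 ^ e * S (n + 1) := by
  obtain ⟨k, rfl⟩ : ∃ k, n = k + 1 := ⟨n - 1, by omega⟩
  obtain ⟨e, he⟩ := six_D c4_mul hm hS h6 (k + 1)
  have h2 := two_part4 h8 h0 hS k
  exact ⟨e, strip_two (i := 2) he (by norm_num; exact h2)⟩

end V11307.RI
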