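import Pool.Agent.V11307.RI.Levels
import Pool.Agent.V11307.RI.Six

set_option autoImplicit false

/-! The sums `∑_{k<n} (6k+1) C(2k,k)^2 C(3k,k) 216^(n-1-k)` -/

namespace V11307.RI.S216

open Finset Nat

def S (n : ℕ) : ℤ :=
  ∑ j ∈ range n, 216 ^ (n - 1 - j) * (6 * (j : ℤ) + 1) * ((2 * j).choose j : ℤ) ^ 2 * ((3 * j).choose j : ℤ)

theorem S_succ (n : ℕ) : S (n + 1) = 216 * S n + (6 * (n : ℤ) + 1) * c3 n := by
  rw [S, sum_range_succ, S, mul_sum]
  congr 1
  · refine sum_congr rfl fun k hk => ?_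
    rw [mem_range] at hk
    have : n + 1 - 1 - k = (n - 1 - k) + 1 := by omega
    rw [this, pow_succ]
    ring
  · unfold c3
    simp
    ring

theorem chA (k j : ℕ) : ((k.choose j : ℕ) : ℚ) * (k + 1) = ((k + 1).choose j : ℕ) * (k + 1 - j) := by
  rcases Nat.lt_or_ge (k + 1) j with h | h
  · rw [Nat.choose_eq_zero_of_lt h, Nat.choose_eq_zero_of_lt (by omega)]
    simp
  · have := Nat.choose_mul_succ_eq k j
    have h2 : ((k.choose j * (k + 1) : ℕ) : ℚ) = (((k + 1).choose j * (k + 1 - j) : ℕ) : ℚ) := by rw [this]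
    rw [Nat.cast_mul, Nat.cast_mul, Nat.cast_sub h] at h2
    push_cast at h2
    exact h2

theorem chB (k j : ℕ) : ((k.choose (j + 1) : ℕ) : ℚ) * (j + 1) = (k.choose j : ℕ) * (k - j) := by
  rcases Nat.lt_or_ge k j with h | h
  · rw [Nat.choose_eq_zero_of_lt h, Nat.choose_eq_zero_of_lt (by omega)]
    simp
  · have := Nat.choose_succ_right_eq k j
    have h2 : ((k.choose (j + 1) * (j + 1) : ℕ) : ℚ) = ((k.choose j * (k - j) : ℕ) : ℚ) := by rw [this]
    rw [Nat.cast_mul, Nat.cast_mul, Nat.cast_sub h] at h2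
    push_cast at h2
    exact h2

def g (j k : ℕ) : ℚ :=
  27 ^ j * ((3 * (j + k) + 2)! : ℚ) * ((2 * k)! : ℚ) * (j ! : ℚ) ^ 2 * (3 * k + 2) * ((k.choose j : ℕ) : ℚ) /
    (2 * ((j + k)! : ℚ) ^ 2 * (k ! : ℚ) ^ 3 * ((3 * j + 2)! : ℚ))

def f (j k : ℕ) : ℚ :=
  27 ^ j * ((3 * (j + k))! : ℚ) * ((2 * k)! : ℚ) * (j ! : ℚ) ^ 2 * (6 * k + 1) * ((k.choose j : ℕ) : ℚ) /
    (((j + k)! : ℚ) ^ 2 * (k ! : ℚ) ^ 3 * ((3 * j)! : ℚ))

theorem wz (j k : ℕ) : g j (k + 1) - 216 * g j k = f j (k + 1) - f (j + 1) k := by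
  have e2 : ((3 * (j + (k + 1)) + 2)! : ℚ) = (3 * j + 3 * k + 5) * ((3 * j + 3 * k + 4) * ((3 * j + 3 * k + 3) *
      ((3 * (j + k) + 2)! : ℚ))) := by
    rw [show 3 * (j + (k + 1)) + 2 = 3 * (j + k) + 2 + 1 + 1 + 1 by ring, Nat.factorial_succ, Nat.factorial_succ,
      Nat.factorial_succ]
    push_cast; ring
  have e2b : ((3 * (j + (k + 1)))! : ℚ) = (3 * j + 3 * k + 3) * ((3 * (j + k) + 2)! : ℚ) := by
    rw [show 3 * (j + (k + 1)) = 3 * (j + k) + 2 + 1 by ring, Nat.factorial_succ]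
    push_cast; ring
  have e2c : ((3 * (j + 1 + k))! : ℚ) = (3 * j + 3 * k + 3) * ((3 * (j + k) + 2)! : ℚ) := by
    rw [show 3 * (j + 1 + k) = 3 * (j + k) + 2 + 1 by ring, Nat.factorial_succ]
    push_cast; ring
  have e4 : ((2 * (k + 1))! : ℚ) = (2 * k + 2) * ((2 * k + 1) * ((2 * k)! : ℚ)) := by
    rw [show 2 * (k + 1) = 2 * k + 1 + 1 by ring, Nat.factorial_succ, Nat.factorial_succ]; push_cast; ring
  have e5 : ((k + 1)! : ℚ) = (k + 1) * (k ! : ℚ) := by
    rw [Nat.factorial_succ]; push_cast; ring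
  have e5b : ((j + 1)! : ℚ) = (j + 1) * (j ! : ℚ) := by
    rw [Nat.factorial_succ]; push_cast; ring
  have e6 : ((j + (k + 1))! : ℚ) = (j + k + 1) * ((j + k)! : ℚ) := by
    rw [show j + (k + 1) = j + k + 1 by ring, Nat.factorial_succ]; push_cast; ring
  have e7 : ((j + 1 + k)! : ℚ) = (j + k + 1) * ((j + k)! : ℚ) := by
    rw [show j + 1 + k = j + k + 1 by ring, Nat.factorial_succ]; push_cast; ring
  have e8 : ((3 * j + 2)! : ℚ) = (3 * j + 2) * ((3 * j + 1) * ((3 * j)! : ℚ)) := by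
    rw [Nat.factorial_succ, Nat.factorial_succ]
    push_cast; ring
  have e8b : ((3 * (j + 1))! : ℚ) = (3 * j + 3) * ((3 * j + 2) * ((3 * j + 1) * ((3 * j)! : ℚ))) := by
    rw [show 3 * (j + 1) = 3 * j + 1 + 1 + 1 by ring, Nat.factorial_succ, Nat.factorial_succ, Nat.factorial_succ]
    push_cast; ring
  have n4 : ((k : ℚ) + 1) ≠ 0 := by positivity
  have n4' : ((j : ℚ) + 1) ≠ 0 := by positivity
  have c1 : ((k.choose j : ℕ) : ℚ) = ((k + 1).choose j : ℕ) * (k + 1 - j) / (k + 1) := by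
    rw [eq_div_iff n4]; exact chA k j
  have c2 : ((k.choose (j + 1) : ℕ) : ℚ) = (((k + 1).choose j : ℕ) * (k + 1 - j) / (k + 1)) * (k - j) / (j + 1) := by
    rw [eq_div_iff n4', ← c1]; exact chB k j
  unfold g f
  rw [e2, e2b, e2c, e4, e5, e5b, e6, e7, e8, e8b, c1, c2]
  push_cast
  have n1 : (k ! : ℚ) ≠ 0 := by exact_mod_cast k.factorial_ne_zero
  have n1' : (j ! : ℚ) ≠ 0 := by exact_mod_cast j.factorial_ne_zero
  have n2 : ((j + k)! : ℚ) ≠ 0 := by exact_mod_cast (j + k).factorial_ne_zero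
  have n7 : ((3 * j)! : ℚ) ≠ 0 := by exact_mod_cast (3 * j).factorial_ne_zero
  have n3 : ((j : ℚ) + k + 1) ≠ 0 := by positivity
  have n5 : (3 * (j : ℚ) + 2) ≠ 0 := by positivity
  have n6 : (3 * (j : ℚ) + 1) ≠ 0 := by positivity
  have n9 : (3 * (j : ℚ) + 3) ≠ 0 := by positivity
  generalize ((3 * (j + k) + 2)! : ℚ) = A
  generalize ((2 * k)! : ℚ) = B
  generalize (k ! : ℚ) = C at *
  generalize (j ! : ℚ) = C' at *
  generalize ((j + k)! : ℚ) = D at *
  generalize ((3 * j)! : ℚ) = E at *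
  generalize (((k + 1).choose j : ℕ) : ℚ) = W
  rw [pow_succ]
  field_simp
  ring

theorem f_zero (n : ℕ) : f 0 n = (6 * (n : ℚ) + 1) * c3 n := by
  have n1 : (n ! : ℚ) ≠ 0 := by exact_mod_cast n.factorial_ne_zero
  rw [c3_eq]
  unfold f
  simp only [Nat.mul_zero, Nat.zero_add, Nat.choose_zero_right, Nat.factorial_zero]
  push_cast
  field_simp

theorem g_f {n : ℕ} (hn : 1 ≤ n) : g n 0 = f n 0 := by
  unfold g f
  rw [Nat.choose_eq_zero_of_lt (by omega : 0 < n)]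
  simp

theorem S_eq (n : ℕ) : (S (n + 1) : ℚ) = ∑ j ∈ range (n + 1), g j (n - j) := by
  refine V11307.RI.closed (m := 216) (f := f) wz (fun n hn => g_f hn) (fun n => (S n : ℚ))
    (fun n => (6 * (n : ℚ) + 1) * c3 n) ?_ (fun n => by rw [S_succ]; push_cast; ring)
    (fun n _ => f_zero n) n
  norm_num [S, g, Nat.factorial]

/-! ### integrality of the terms -/

theorem flr {x q : ℕ} (hq : 0 < q) : q * (x / q) ≤ x ∧ x < q * (x / q) + q := by
  have := Nat.div_add_mod x q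
  have := Nat.mod_lt x hq
  constructor <;> omega

theorem lev2 (s t q : ℕ) (hq : 2 ≤ q) (hs : s < q) (ht : t < q) :
    (4 * s + 2 * t + 2) / q + ((s + t) / q + ((s + t) / q + (3 * s + 1) / q)) ≤
      (6 * s + 3 * t + 3) / q + (2 * s + 2 * t) / q := by
  obtain ⟨p1, p2⟩ := flr (x := 4 * s + 2 * t + 2) (q := q) (by omega)
  obtain ⟨p3, p4⟩ := flr (x := s + t) (q := q) (by omega)
  obtain ⟨p5, p6⟩ := flr (x := 3 * s + 1) (q := q) (by omega)
  obtain ⟨p7, p8⟩ := flr (x := 6 * s + 3 * t + 3) (q := q) (by omega)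
  obtain ⟨p9, p10⟩ := flr (x := 2 * s + 2 * t) (q := q) (by omega)
  have b1 : (4 * s + 2 * t + 2) / q < 6 := by rw [Nat.div_lt_iff_lt_mul (by omega)]; omega
  have b2 : (s + t) / q < 2 := by rw [Nat.div_lt_iff_lt_mul (by omega)]; omega
  have b3 : (3 * s + 1) / q < 3 := by rw [Nat.div_lt_iff_lt_mul (by omega)]; omega
  have b4 : (6 * s + 3 * t + 3) / q < 9 := by rw [Nat.div_lt_iff_lt_mul (by omega)]; omega
  have b5 : (2 * s + 2 * t) / q < 4 := by rw [Nat.div_lt_iff_lt_mul (by omega)]; omega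
  generalize (4 * s + 2 * t + 2) / q = x1 at *
  generalize (s + t) / q = x2 at *
  generalize (3 * s + 1) / q = x3 at *
  generalize (6 * s + 3 * t + 3) / q = x4 at *
  generalize (2 * s + 2 * t) / q = x5 at *
  interval_cases x2 <;> interval_cases x3 <;> interval_cases x1 <;> interval_cases x5 <;> interval_cases x4 <;> omega

theorem lev1 (s t q : ℕ) (hq : 2 ≤ q) (hs : s < q) (ht : t < q) :
    (4 * s + 2 * t + 2) / q + ((s + t) / q + ((s + t) / q + (3 * s + 2) / q)) ≤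
      (6 * s + 3 * t + 4) / q + (2 * s + 2 * t) / q := by
  obtain ⟨p1, p2⟩ := flr (x := 4 * s + 2 * t + 2) (q := q) (by omega)
  obtain ⟨p3, p4⟩ := flr (x := s + t) (q := q) (by omega)
  obtain ⟨p5, p6⟩ := flr (x := 3 * s + 2) (q := q) (by omega)
  obtain ⟨p7, p8⟩ := flr (x := 6 * s + 3 * t + 4) (q := q) (by omega)
  obtain ⟨p9, p10⟩ := flr (x := 2 * s + 2 * t) (q := q) (by omega)
  have b1 : (4 * s + 2 * t + 2) / q < 6 := by rw [Nat.div_lt_iff_lt_mul (by omega)]; omega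
  have b2 : (s + t) / q < 2 := by rw [Nat.div_lt_iff_lt_mul (by omega)]; omega
  have b3 : (3 * s + 2) / q < 3 := by rw [Nat.div_lt_iff_lt_mul (by omega)]; omega
  have b4 : (6 * s + 3 * t + 4) / q < 9 := by rw [Nat.div_lt_iff_lt_mul (by omega)]; omega
  have b5 : (2 * s + 2 * t) / q < 4 := by rw [Nat.div_lt_iff_lt_mul (by omega)]; omega
  generalize (4 * s + 2 * t + 2) / q = x1 at *
  generalize (s + t) / q = x2 at *
  generalize (3 * s + 2) / q = x3 at *
  generalize (6 * s + 3 * t + 4) / q = x4 at *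
  generalize (2 * s + 2 * t) / q = x5 at *
  interval_cases x2 <;> interval_cases x3 <;> interval_cases x1 <;> interval_cases x5 <;> interval_cases x4 <;> omega

theorem t2_dvd (j r : ℕ) : (4 * j + 2 * r + 2)! * ((j + r)! * ((j + r)! * (r ! * (3 * j + 1)!))) ∣
    (6 * j + 3 * r + 3)! * ((2 * j + 2 * r)! * j !) := by
  have h := fact_dvd [6 * j + 3 * r + 3, 2 * j + 2 * r, j] [4 * j + 2 * r + 2, j + r, j + r, r, 3 * j + 1] ?_
  · simpa using h
  intro q hq
  simp only [List.map_cons, List.map_nil, List.sum_cons, List.sum_nil, Nat.add_zero]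
  have hq0 : 0 < q := by omega
  have hs : j % q < q := Nat.mod_lt _ hq0
  have ht : r % q < q := Nat.mod_lt _ hq0
  have ej := Nat.div_add_mod j q
  have er := Nat.div_add_mod r q
  have hl := lev2 (j % q) (r % q) q hq hs ht
  generalize j % q = s at *
  generalize j / q = A at *
  generalize r % q = t at *
  generalize r / q = B at *
  subst ej er
  rw [show 4 * (q * A + s) + 2 * (q * B + t) + 2 = (4 * s + 2 * t + 2) + q * (4 * A + 2 * B) by ring,
    show q * A + s + (q * B + t) = (s + t) + q * (A + B) by ring,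
    show q * B + t = t + q * B by ring, show q * A + s = s + q * A by ring,
    show 3 * (s + q * A) + 1 = (3 * s + 1) + q * (3 * A) by ring,
    show 6 * (s + q * A) + 3 * (t + q * B) + 3 = (6 * s + 3 * t + 3) + q * (6 * A + 3 * B) by ring,
    show 2 * (s + q * A) + 2 * (t + q * B) = (2 * s + 2 * t) + q * (2 * A + 2 * B) by ring]
  simp only [Nat.add_mul_div_left _ _ hq0]
  omega

theorem t1_dvd (j r : ℕ) : (4 * j + 2 * r + 2)! * ((j + r)! * ((j + r)! * (r ! * (3 * j + 2)!))) ∣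
    (6 * j + 3 * r + 4)! * ((2 * j + 2 * r)! * j !) := by
  have h := fact_dvd [6 * j + 3 * r + 4, 2 * j + 2 * r, j] [4 * j + 2 * r + 2, j + r, j + r, r, 3 * j + 2] ?_
  · simpa using h
  intro q hq
  simp only [List.map_cons, List.map_nil, List.sum_cons, List.sum_nil, Nat.add_zero]
  have hq0 : 0 < q := by omega
  have hs : j % q < q := Nat.mod_lt _ hq0
  have ht : r % q < q := Nat.mod_lt _ hq0
  have ej := Nat.div_add_mod j q
  have er := Nat.div_add_mod r q
  have hl := lev1 (j % q) (r % q) q hq hs ht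
  generalize j % q = s at *
  generalize j / q = A at *
  generalize r % q = t at *
  generalize r / q = B at *
  subst ej er
  rw [show 4 * (q * A + s) + 2 * (q * B + t) + 2 = (4 * s + 2 * t + 2) + q * (4 * A + 2 * B) by ring,
    show q * A + s + (q * B + t) = (s + t) + q * (A + B) by ring,
    show q * B + t = t + q * B by ring, show q * A + s = s + q * A by ring,
    show 3 * (s + q * A) + 2 = (3 * s + 2) + q * (3 * A) by ring,
    show 6 * (s + q * A) + 3 * (t + q * B) + 4 = (6 * s + 3 * t + 4) + q * (6 * A + 3 * B) by ring,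
    show 2 * (s + q * A) + 2 * (t + q * B) = (2 * s + 2 * t) + q * (2 * A + 2 * B) by ring]
  simp only [Nat.add_mul_div_left _ _ hq0]
  omega

theorem g_int (j k : ℕ) : ∃ z : ℤ, 3 * g j k = (2 * (j + k : ℕ) + 1) * ((2 * (j + k)).choose (j + k) : ℚ) * z := by
  rcases Nat.lt_or_ge k j with h | h
  · refine ⟨0, ?_⟩
    unfold g
    rw [Nat.choose_eq_zero_of_lt h]
    simp
  · obtain ⟨r, rfl⟩ : ∃ r, k = j + r := ⟨k - j, by omega⟩
    obtain ⟨t1, h1⟩ := t1_dvd j r
    obtain ⟨t2, h2⟩ := t2_dvd j r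
    refine ⟨27 ^ j * (t1 - t2), ?_⟩
    have n1 : ((j + r)! : ℚ) ≠ 0 := by exact_mod_cast (j + r).factorial_ne_zero
    have n2 : (r ! : ℚ) ≠ 0 := by exact_mod_cast r.factorial_ne_zero
    have n3 : (j ! : ℚ) ≠ 0 := by exact_mod_cast j.factorial_ne_zero
    have n4 : ((3 * j + 1)! : ℚ) ≠ 0 := by exact_mod_cast (3 * j + 1).factorial_ne_zero
    have n5 : ((4 * j + 2 * r)! : ℚ) ≠ 0 := by exact_mod_cast (4 * j + 2 * r).factorial_ne_zero
    have n6 : ((2 * j + r)! : ℚ) ≠ 0 := by exact_mod_cast (2 * j + r).factorial_ne_zero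
    have n7 : (3 * (j : ℚ) + 2) ≠ 0 := by positivity
    have n8 : (4 * (j : ℚ) + 2 * r + 1) ≠ 0 := by positivity
    have n9 : (4 * (j : ℚ) + 2 * r + 2) ≠ 0 := by positivity
    have e1 : ((4 * j + 2 * r + 2)! : ℚ) = (4 * j + 2 * r + 2) * ((4 * j + 2 * r + 1) * ((4 * j + 2 * r)! : ℚ)) := by
      rw [Nat.factorial_succ, Nat.factorial_succ]; push_cast; ring
    have e2 : ((3 * j + 2)! : ℚ) = (3 * j + 2) * ((3 * j + 1)! : ℚ) := by
      rw [Nat.factorial_succ]; push_cast; ring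
    have e3 : ((6 * j + 3 * r + 3)! : ℚ) = (6 * j + 3 * r + 3) * ((6 * j + 3 * r + 2)! : ℚ) := by
      rw [Nat.factorial_succ]; push_cast; ring
    have e4 : ((6 * j + 3 * r + 4)! : ℚ) = (6 * j + 3 * r + 4) * ((6 * j + 3 * r + 3) * ((6 * j + 3 * r + 2)! : ℚ)) := by
      rw [Nat.factorial_succ, Nat.factorial_succ]; push_cast; ring
    have h1' : ((6 * j + 3 * r + 4)! : ℚ) * (((2 * j + 2 * r)! : ℚ) * (j ! : ℚ)) =
        ((4 * j + 2 * r + 2)! : ℚ) * (((j + r)! : ℚ) * (((j + r)! : ℚ) * ((r ! : ℚ) * ((3 * j + 2)! : ℚ)))) * t1 := by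
      exact_mod_cast h1
    have h2' : ((6 * j + 3 * r + 3)! : ℚ) * (((2 * j + 2 * r)! : ℚ) * (j ! : ℚ)) =
        ((4 * j + 2 * r + 2)! : ℚ) * (((j + r)! : ℚ) * (((j + r)! : ℚ) * ((r ! : ℚ) * ((3 * j + 1)! : ℚ)))) * t2 := by
      exact_mod_cast h2
    rw [e1, e2, e4] at h1'
    rw [e1, e3] at h2'
    unfold g
    rw [Nat.cast_choose ℚ (show j ≤ j + r by omega), show j + r - j = r by omega, choose_q,
      show 3 * (j + (j + r)) + 2 = 6 * j + 3 * r + 2 by ring,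
      show 2 * (j + r) = 2 * j + 2 * r by ring, show j + (j + r) = 2 * j + r by ring,
      show 2 * (2 * j + r) = 4 * j + 2 * r by ring, e2]
    push_cast
    generalize ((6 * j + 3 * r + 2)! : ℚ) = A at *
    generalize ((2 * j + 2 * r)! : ℚ) = B at *
    generalize ((j + r)! : ℚ) = C at *
    generalize (r ! : ℚ) = D at *
    generalize (j ! : ℚ) = E at *
    generalize ((3 * j + 1)! : ℚ) = F at *
    generalize ((4 * j + 2 * r)! : ℚ) = G at *
    generalize ((2 * j + r)! : ℚ) = H at *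
    have ht1 : (t1 : ℚ) = (6 * j + 3 * r + 4) * ((6 * j + 3 * r + 3) * A) * (B * E) /
        ((4 * j + 2 * r + 2) * ((4 * j + 2 * r + 1) * G) * (C * (C * (D * ((3 * j + 2) * F))))) := by
      rw [eq_div_iff (by positivity)]; linear_combination -h1'
    have ht2 : (t2 : ℚ) = (6 * j + 3 * r + 3) * A * (B * E) /
        ((4 * j + 2 * r + 2) * ((4 * j + 2 * r + 1) * G) * (C * (C * (D * F)))) := by
      rw [eq_div_iff (by positivity)]; linear_combination -h2'
    rw [ht1, ht2]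
    field_simp
    ring

theorem six (n : ℕ) : ∃ e : ℕ, (2 * (n : ℤ) + 1) * ((2 * n).choose n : ℤ) ∣ 6 ^ e * S (n + 1) := by
  have h : ∃ z : ℤ, 3 * (S (n + 1) : ℚ) = (2 * (n : ℚ) + 1) * ((2 * n).choose n : ℚ) * z := by
    choose z hz using g_int
    refine ⟨∑ j ∈ range (n + 1), z j (n - j), ?_⟩
    rw [S_eq, mul_sum]
    push_cast
    rw [mul_sum]
    refine sum_congr rfl fun j hj => ?_
    rw [mem_range] at hj
    obtain ⟨k, rfl⟩ : ∃ k, n = j + k := ⟨n - j, by omega⟩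
    rw [show j + k - j = k by omega, hz]
  obtain ⟨z, hz⟩ := h
  refine ⟨1, 2 * z, ?_⟩
  have : 3 * S (n + 1) = (2 * (n : ℤ) + 1) * ((2 * n).choose n : ℤ) * z := by exact_mod_cast hz
  linear_combination 2 * this

end V11307.RI.S216
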