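import Pool.Agent.V11307.RI.Neg
import Pool.Agent.V11307.RI.Levels

set_option autoImplicit false

/-! The sums `∑_{k<n} (154k+15) (6k)!/((3k)!(k!)^3) (-32768)^(n-1-k)`: closed form. -/

namespace V11307.RI.S32768

open Finset Nat

/-- `4^k C(a-1/2,k)` with integer `a` -/
def Hi (k : ℕ) (a : ℤ) : ℚ := 2 ^ k / (k ! : ℚ) * ∏ i ∈ range k, (2 * (a : ℚ) - 1 - 2 * i)

theorem Hi_zero (a : ℤ) : Hi 0 a = 1 := by simp [Hi]

theorem Hi_succ (k : ℕ) (a : ℤ) : Hi (k + 1) a = Hi k a * (2 * (2 * a - 1 - 2 * k)) / (k + 1) := by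
  unfold Hi
  have n1 : (k ! : ℚ) ≠ 0 := by exact_mod_cast k.factorial_ne_zero
  have n2 : ((k : ℚ) + 1) ≠ 0 := by positivity
  rw [prod_range_succ, Nat.factorial_succ, pow_succ]
  push_cast
  field_simp

theorem Hi_succ' (k : ℕ) (a : ℤ) : Hi (k + 1) (a + 1) = Hi k a * (2 * (2 * a + 1)) / (k + 1) := by
  unfold Hi
  have n1 : (k ! : ℚ) ≠ 0 := by exact_mod_cast k.factorial_ne_zero
  have n2 : ((k : ℚ) + 1) ≠ 0 := by positivity
  rw [prod_range_succ', Nat.factorial_succ, pow_succ]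
  have : ∏ i ∈ range k, (2 * ((a + 1 : ℤ) : ℚ) - 1 - 2 * ((i + 1 : ℕ) : ℚ)) =
      ∏ i ∈ range k, (2 * (a : ℚ) - 1 - 2 * i) := by
    refine prod_congr rfl fun i _ => ?_
    push_cast; ring
  rw [this]
  push_cast
  field_simp
  ring

/-- `4^K C(-r-1/2,K)` -/
theorem Hi_neg (K r : ℕ) : Hi K (-(r : ℤ)) = (-1) ^ K * (((2 * r + 2 * K)! : ℚ) * (r ! : ℚ) /
    (((r + K)! : ℚ) * ((2 * r)! : ℚ) * (K ! : ℚ))) := by
  induction K with
  | zero =>
    have n1 : (r ! : ℚ) ≠ 0 := by exact_mod_cast r.factorial_ne_zero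
    have n2 : ((2 * r)! : ℚ) ≠ 0 := by exact_mod_cast (2 * r).factorial_ne_zero
    rw [Hi_zero]
    simp only [Nat.mul_zero, Nat.add_zero, pow_zero, Nat.factorial_zero]
    push_cast
    field_simp
  | succ K ih =>
    rw [Hi_succ, ih]
    have e1 : ((2 * r + 2 * (K + 1))! : ℚ) = (2 * r + 2 * K + 2) * ((2 * r + 2 * K + 1) * ((2 * r + 2 * K)! : ℚ)) := by
      rw [show 2 * r + 2 * (K + 1) = 2 * r + 2 * K + 1 + 1 by ring, Nat.factorial_succ, Nat.factorial_succ]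
      push_cast; ring
    have e2 : ((r + (K + 1))! : ℚ) = (r + K + 1) * ((r + K)! : ℚ) := by
      rw [show r + (K + 1) = r + K + 1 by ring, Nat.factorial_succ]; push_cast; ring
    have e3 : ((K + 1)! : ℚ) = (K + 1) * (K ! : ℚ) := by
      rw [Nat.factorial_succ]; push_cast; ring
    rw [e1, e2, e3, pow_succ]
    have n1 : ((r + K)! : ℚ) ≠ 0 := by exact_mod_cast (r + K).factorial_ne_zero
    have n2 : ((2 * r)! : ℚ) ≠ 0 := by exact_mod_cast (2 * r).factorial_ne_zero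
    have n3 : (K ! : ℚ) ≠ 0 := by exact_mod_cast K.factorial_ne_zero
    have n4 : ((K : ℚ) + 1) ≠ 0 := by positivity
    have n5 : ((r : ℚ) + K + 1) ≠ 0 := by positivity
    push_cast
    generalize ((2 * r + 2 * K)! : ℚ) = A
    generalize ((r + K)! : ℚ) = B at *
    generalize ((2 * r)! : ℚ) = C at *
    generalize (K ! : ℚ) = D' at *
    field_simp
    ring

theorem Hi_big (K b : ℕ) : Hi K ((K : ℤ) + b) = ((2 * b + 2 * K)! : ℚ) * (b ! : ℚ) /
    (((b + K)! : ℚ) * ((2 * b)! : ℚ) * (K ! : ℚ)) := by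
  induction K with
  | zero =>
    have n1 : (b ! : ℚ) ≠ 0 := by exact_mod_cast b.factorial_ne_zero
    have n2 : ((2 * b)! : ℚ) ≠ 0 := by exact_mod_cast (2 * b).factorial_ne_zero
    rw [Hi_zero]
    simp only [Nat.mul_zero, Nat.add_zero, Nat.factorial_zero]
    push_cast
    field_simp
  | succ K ih =>
    rw [show ((K + 1 : ℕ) : ℤ) + b = ((K : ℤ) + b) + 1 by push_cast; ring, Hi_succ', ih]
    have e1 : ((2 * b + 2 * (K + 1))! : ℚ) = (2 * b + 2 * K + 2) * ((2 * b + 2 * K + 1) * ((2 * b + 2 * K)! : ℚ)) := by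
      rw [show 2 * b + 2 * (K + 1) = 2 * b + 2 * K + 1 + 1 by ring, Nat.factorial_succ, Nat.factorial_succ]
      push_cast; ring
    have e2 : ((b + (K + 1))! : ℚ) = (b + K + 1) * ((b + K)! : ℚ) := by
      rw [show b + (K + 1) = b + K + 1 by ring, Nat.factorial_succ]; push_cast; ring
    have e3 : ((K + 1)! : ℚ) = (K + 1) * (K ! : ℚ) := by
      rw [Nat.factorial_succ]; push_cast; ring
    rw [e1, e2, e3]
    have n1 : ((b + K)! : ℚ) ≠ 0 := by exact_mod_cast (b + K).factorial_ne_zero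
    have n2 : ((2 * b)! : ℚ) ≠ 0 := by exact_mod_cast (2 * b).factorial_ne_zero
    have n3 : (K ! : ℚ) ≠ 0 := by exact_mod_cast K.factorial_ne_zero
    have n4 : ((K : ℚ) + 1) ≠ 0 := by positivity
    have n5 : ((b : ℚ) + K + 1) ≠ 0 := by positivity
    push_cast
    generalize ((2 * b + 2 * K)! : ℚ) = A
    generalize ((b + K)! : ℚ) = B at *
    generalize ((2 * b)! : ℚ) = C at *
    generalize (K ! : ℚ) = D' at *
    field_simp
    ring

/-- `4^(r+N) C(r-1/2,r+N)` -/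
theorem Hi_mid (r N : ℕ) : Hi (r + N) (r : ℤ) = (-1) ^ N * (((2 * r)! : ℚ) * ((2 * N)! : ℚ) /
    ((r ! : ℚ) * (N ! : ℚ) * ((r + N)! : ℚ))) := by
  induction N with
  | zero =>
    have h := Hi_big r 0
    rw [Nat.add_zero]
    rw [show ((r : ℤ) + ((0 : ℕ) : ℤ)) = r by simp] at h
    rw [h]
    have n1 : (r ! : ℚ) ≠ 0 := by exact_mod_cast r.factorial_ne_zero
    simp only [Nat.mul_zero, Nat.zero_add, pow_zero, Nat.factorial_zero]
    push_cast
    field_simp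
  | succ N ih =>
    rw [← Nat.add_assoc, Hi_succ, ih]
    have e1 : ((2 * (N + 1))! : ℚ) = (2 * N + 2) * ((2 * N + 1) * ((2 * N)! : ℚ)) := by
      rw [show 2 * (N + 1) = 2 * N + 1 + 1 by ring, Nat.factorial_succ, Nat.factorial_succ]
      push_cast; ring
    have e2 : ((r + N + 1)! : ℚ) = (r + N + 1) * ((r + N)! : ℚ) := by
      rw [Nat.factorial_succ]; push_cast; ring
    have e3 : ((N + 1)! : ℚ) = (N + 1) * (N ! : ℚ) := by
      rw [Nat.factorial_succ]; push_cast; ring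
    rw [e1, e2, e3, pow_succ]
    have n1 : ((r + N)! : ℚ) ≠ 0 := by exact_mod_cast (r + N).factorial_ne_zero
    have n2 : (r ! : ℚ) ≠ 0 := by exact_mod_cast r.factorial_ne_zero
    have n3 : (N ! : ℚ) ≠ 0 := by exact_mod_cast N.factorial_ne_zero
    have n4 : ((N : ℚ) + 1) ≠ 0 := by positivity
    have n5 : ((r : ℚ) + N + 1) ≠ 0 := by positivity
    push_cast
    generalize ((2 * r)! : ℚ) = A
    generalize ((2 * N)! : ℚ) = A'
    generalize ((r + N)! : ℚ) = B at *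
    generalize (r ! : ℚ) = C at *
    generalize (N ! : ℚ) = D' at *
    field_simp
    ring

/-- `H(2N,3N) = 4^(2N) C(3N-1/2,2N)` -/
def P (N : ℕ) : ℚ := ((6 * N)! : ℚ) * (N ! : ℚ) / (((3 * N)! : ℚ) * ((2 * N)! : ℚ) ^ 2)

theorem P_succ (N : ℕ) : P (N + 1) = P N * (4 * (6 * N + 1) * (6 * N + 3) * (6 * N + 5)) /
    ((2 * N + 1) ^ 2 * (2 * N + 2)) := by
  unfold P
  have e1 : ((6 * (N + 1))! : ℚ) = (6 * N + 6) * ((6 * N + 5) * ((6 * N + 4) * ((6 * N + 3) * ((6 * N + 2) *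
      ((6 * N + 1) * ((6 * N)! : ℚ)))))) := by
    rw [show 6 * (N + 1) = 6 * N + 1 + 1 + 1 + 1 + 1 + 1 by ring, Nat.factorial_succ, Nat.factorial_succ,
      Nat.factorial_succ, Nat.factorial_succ, Nat.factorial_succ, Nat.factorial_succ]
    push_cast; ring
  have e2 : ((3 * (N + 1))! : ℚ) = (3 * N + 3) * ((3 * N + 2) * ((3 * N + 1) * ((3 * N)! : ℚ))) := by
    rw [show 3 * (N + 1) = 3 * N + 1 + 1 + 1 by ring, Nat.factorial_succ, Nat.factorial_succ,
      Nat.factorial_succ]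
    push_cast; ring
  have e3 : ((2 * (N + 1))! : ℚ) = (2 * N + 2) * ((2 * N + 1) * ((2 * N)! : ℚ)) := by
    rw [show 2 * (N + 1) = 2 * N + 1 + 1 by ring, Nat.factorial_succ, Nat.factorial_succ]
    push_cast; ring
  have e4 : ((N + 1)! : ℚ) = (N + 1) * (N ! : ℚ) := by
    rw [Nat.factorial_succ]; push_cast; ring
  rw [e1, e2, e3, e4]
  have n1 : ((3 * N)! : ℚ) ≠ 0 := by exact_mod_cast (3 * N).factorial_ne_zero
  have n2 : ((2 * N)! : ℚ) ≠ 0 := by exact_mod_cast (2 * N).factorial_ne_zero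
  have n3 : (3 * (N : ℚ) + 3) ≠ 0 := by positivity
  have n4 : (3 * (N : ℚ) + 2) ≠ 0 := by positivity
  have n5 : (3 * (N : ℚ) + 1) ≠ 0 := by positivity
  have n6 : (2 * (N : ℚ) + 2) ≠ 0 := by positivity
  have n7 : (2 * (N : ℚ) + 1) ≠ 0 := by positivity
  generalize ((6 * N)! : ℚ) = A
  generalize ((3 * N)! : ℚ) = B at *
  generalize ((2 * N)! : ℚ) = C at *
  generalize (N ! : ℚ) = D' at *
  field_simp
  ring

/-- `C(N+k,k)` -/
theorem chq (N k : ℕ) : (((N + k).choose k : ℕ) : ℚ) = ((N + k)! : ℚ) / ((k ! : ℚ) * (N ! : ℚ)) := by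
  rw [Nat.cast_choose ℚ (show k ≤ N + k by omega), show N + k - k = N by omega]

/-- the terms of the closed form -/
def T (N k : ℕ) : ℚ := ((2 * k).choose k : ℚ) * P N * Hi (2 * k) (2 * k - N) / ((N + k).choose k : ℚ)

theorem T_succ (N k : ℕ) : ((k : ℚ) + 1) * (N + k + 1) * T N (k + 1) =
    4 * (4 * k - 2 * N + 1) * (4 * k - 2 * N + 3) * T N k := by
  unfold T
  have H : Hi (2 * (k + 1)) (2 * ((k + 1 : ℕ) : ℤ) - N) = Hi (2 * k) (2 * k - N) *
      (2 * (2 * (2 * k - N) + 1)) / (2 * k + 1) * (2 * (2 * (2 * k - N) + 3)) / (2 * k + 2) := by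
    rw [show 2 * (k + 1) = 2 * k + 1 + 1 by ring,
      show (2 * ((k + 1 : ℕ) : ℤ) - N) = (2 * k - N + 1) + 1 by push_cast; ring, Hi_succ', Hi_succ']
    push_cast
    congr 1
    · ring
    · ring
  have hk : ((k : ℚ) + 1) ≠ 0 := by positivity
  have hc : ((2 * (k + 1)).choose (k + 1) : ℚ) = 2 * (2 * k + 1) * ((2 * k).choose k : ℚ) / (k + 1) := by
    rw [eq_div_iff hk]
    have := central k
    have h' : (((k + 1) * (2 * (k + 1)).choose (k + 1) : ℕ) : ℚ) =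
        ((2 * (2 * k + 1) * (2 * k).choose k : ℕ) : ℚ) := by rw [this]
    push_cast at h'
    linear_combination h'
  have e1 : ((N + (k + 1))! : ℚ) = (N + k + 1) * ((N + k)! : ℚ) := by
    rw [show N + (k + 1) = N + k + 1 by ring, Nat.factorial_succ]; push_cast; ring
  have e2 : ((k + 1)! : ℚ) = (k + 1) * (k ! : ℚ) := by
    rw [Nat.factorial_succ]; push_cast; ring
  rw [H, hc, chq, chq, e1, e2]
  have n1 : ((N + k)! : ℚ) ≠ 0 := by exact_mod_cast (N + k).factorial_ne_zero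
  have n2 : (k ! : ℚ) ≠ 0 := by exact_mod_cast k.factorial_ne_zero
  have n3 : (N ! : ℚ) ≠ 0 := by exact_mod_cast N.factorial_ne_zero
  have n4 : ((N : ℚ) + k + 1) ≠ 0 := by positivity
  have n5 : (2 * (k : ℚ) + 1) ≠ 0 := by positivity
  have n6 : (2 * (k : ℚ) + 2) ≠ 0 := by positivity
  generalize Hi (2 * k) (2 * k - N) = X
  generalize ((2 * k).choose k : ℚ) = Y
  field_simp
  ring

/-! ### the WZ identity -/

def g (j k : ℕ) : ℚ := (-1) ^ (j + k) / 2 * ((2 * (j + k : ℕ) + 1) * ((2 * (j + k)).choose (j + k) : ℚ)) * 64 ^ j *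
  T (j + k + 1) k

def f (j k : ℕ) : ℚ := (308 * ((j : ℚ) + k) ^ 2 - 264 * ((j : ℚ) + k) * j + 184 * ((j : ℚ) + k) + 64 * j ^ 2 - 76 * j + 15) *
  (-1) ^ (j + k) * ((2 * (j + k)).choose (j + k) : ℚ) * 64 ^ j * T (j + k) k / (j + 2 * k + 1)

theorem wz (j k : ℕ) : g j (k + 1) - (-32768) * g j k = f j (k + 1) - f (j + 1) k := by
  have hk : ((k : ℚ) + 1) ≠ 0 := by positivity
  have hn : ((j : ℚ) + k + 1) ≠ 0 := by positivity
  have hck : ((2 * (k + 1)).choose (k + 1) : ℚ) = 2 * (2 * k + 1) * ((2 * k).choose k : ℚ) / (k + 1) := by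
    rw [eq_div_iff hk]
    have := central k
    have h' : (((k + 1) * (2 * (k + 1)).choose (k + 1) : ℕ) : ℚ) =
        ((2 * (2 * k + 1) * (2 * k).choose k : ℕ) : ℚ) := by rw [this]
    push_cast at h'
    linear_combination h'
  have hcn : ((2 * (j + k + 1)).choose (j + k + 1) : ℚ) = 2 * (2 * (j + k) + 1) * ((2 * (j + k)).choose (j + k) : ℚ) /
      (j + k + 1) := by
    rw [eq_div_iff hn]
    have := central (j + k)
    have h' : (((j + k + 1) * (2 * (j + k + 1)).choose (j + k + 1) : ℕ) : ℚ) =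
        ((2 * (2 * (j + k) + 1) * (2 * (j + k)).choose (j + k) : ℕ) : ℚ) := by rw [this]
    push_cast at h'
    linear_combination h'
  have H0 : Hi (2 * k) (2 * (k : ℤ) - ((j + k + 1 : ℕ) : ℤ)) = Hi (2 * k) ((k : ℤ) - j - 1) := by
    congr 1; push_cast; ring
  have H0' : Hi (2 * k) (2 * (k : ℤ) - ((j + 1 + k : ℕ) : ℤ)) = Hi (2 * k) ((k : ℤ) - j - 1) := by
    congr 1; push_cast; ring
  have H1 : Hi (2 * (k + 1)) (2 * ((k + 1 : ℕ) : ℤ) - ((j + (k + 1) + 1 : ℕ) : ℤ)) = Hi (2 * k) ((k : ℤ) - j - 1) *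
      (2 * (2 * (k - j - 1) - 1 - 4 * k)) / (2 * k + 1) * (2 * (2 * (k - j - 1) + 1)) / (2 * k + 2) := by
    rw [show 2 * (k + 1) = 2 * k + 1 + 1 by ring,
      show (2 * ((k + 1 : ℕ) : ℤ) - ((j + (k + 1) + 1 : ℕ) : ℤ)) = ((k : ℤ) - j - 1) + 1 by push_cast; ring,
      Hi_succ', Hi_succ]
    push_cast
    congr 1
    · ring
    · ring
  have H2 : Hi (2 * (k + 1)) (2 * ((k + 1 : ℕ) : ℤ) - ((j + (k + 1) : ℕ) : ℤ)) = Hi (2 * k) ((k : ℤ) - j - 1) *
      (2 * (2 * (k - j - 1) + 1)) / (2 * k + 1) * (2 * (2 * (k - j - 1) + 3)) / (2 * k + 2) := by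
    rw [show 2 * (k + 1) = 2 * k + 1 + 1 by ring,
      show (2 * ((k + 1 : ℕ) : ℤ) - ((j + (k + 1) : ℕ) : ℤ)) = (((k : ℤ) - j - 1) + 1) + 1 by push_cast; ring,
      Hi_succ', Hi_succ']
    push_cast
    congr 1
    · ring
    · ring
  have e1 : ((j + (k + 1) + 1 + (k + 1))! : ℚ) = (j + 2 * k + 3) * ((j + 2 * k + 2) * ((j + 2 * k + 1)! : ℚ)) := by
    rw [show j + (k + 1) + 1 + (k + 1) = j + 2 * k + 1 + 1 + 1 by ring, Nat.factorial_succ, Nat.factorial_succ]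
    push_cast; ring
  have e1b : ((j + (k + 1) + (k + 1))! : ℚ) = (j + 2 * k + 2) * ((j + 2 * k + 1)! : ℚ) := by
    rw [show j + (k + 1) + (k + 1) = j + 2 * k + 1 + 1 by ring, Nat.factorial_succ]
    push_cast; ring
  have e1c : ((j + k + 1 + k)! : ℚ) = ((j + 2 * k + 1)! : ℚ) := by
    rw [show j + k + 1 + k = j + 2 * k + 1 by ring]
  have e1d : ((j + 1 + k + k)! : ℚ) = ((j + 2 * k + 1)! : ℚ) := by
    rw [show j + 1 + k + k = j + 2 * k + 1 by ring]
  have e2 : ((k + 1)! : ℚ) = (k + 1) * (k ! : ℚ) := by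
    rw [Nat.factorial_succ]; push_cast; ring
  have e3 : ((j + (k + 1) + 1)! : ℚ) = (j + k + 2) * ((j + k + 1)! : ℚ) := by
    rw [show j + (k + 1) + 1 = j + k + 1 + 1 by ring, Nat.factorial_succ]; push_cast; ring
  have p1 : P (j + (k + 1) + 1) = P (j + k + 1) * (4 * (6 * (j + k + 1) + 1) * (6 * (j + k + 1) + 3) *
      (6 * (j + k + 1) + 5)) / ((2 * (j + k + 1) + 1) ^ 2 * (2 * (j + k + 1) + 2)) := by
    rw [show j + (k + 1) + 1 = (j + k + 1) + 1 by ring, P_succ]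
    push_cast; rfl
  unfold g f T
  rw [H0, H0', H1, H2, hck, chq, chq, chq, chq, e1, e1b, e1c, e1d, e2, e3, p1,
    show j + (k + 1) = j + k + 1 by ring, show j + 1 + k = j + k + 1 by ring, hcn]
  push_cast
  have n1 : ((j + 2 * k + 1)! : ℚ) ≠ 0 := by exact_mod_cast (j + 2 * k + 1).factorial_ne_zero
  have n2 : (k ! : ℚ) ≠ 0 := by exact_mod_cast k.factorial_ne_zero
  have n3 : ((j + k + 1)! : ℚ) ≠ 0 := by exact_mod_cast (j + k + 1).factorial_ne_zero
  have n4 : ((j : ℚ) + 2 * k + 2) ≠ 0 := by positivity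
  have n5 : ((j : ℚ) + 2 * k + 3) ≠ 0 := by positivity
  have n6 : (2 * (k : ℚ) + 1) ≠ 0 := by positivity
  have n7 : (2 * (k : ℚ) + 2) ≠ 0 := by positivity
  have n8 : (2 * ((j : ℚ) + k + 1) + 1) ≠ 0 := by positivity
  have n9 : (2 * ((j : ℚ) + k + 1) + 2) ≠ 0 := by positivity
  have n10 : ((j : ℚ) + k + 2) ≠ 0 := by positivity
  have n11 : ((j : ℚ) + 2 * (k + 1) + 1) ≠ 0 := by positivity
  have n12 : ((j : ℚ) + 1 + 2 * k + 1) ≠ 0 := by positivity
  generalize Hi (2 * k) ((k : ℤ) - j - 1) = X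
  generalize P (j + k + 1) = Y
  generalize ((2 * k).choose k : ℚ) = U
  generalize ((2 * (j + k)).choose (j + k) : ℚ) = V
  generalize ((j + 2 * k + 1)! : ℚ) = A at *
  generalize (k ! : ℚ) = B at *
  generalize ((j + k + 1)! : ℚ) = C at *
  rw [pow_succ, pow_succ]
  field_simp
  ring

end V11307.RI.S32768
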