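import Pool.Agent.V11307.RI.Even

set_option autoImplicit false

/-! The super Catalan numbers `(2m)! (2n)! / (m! n! (m+n)!)`. -/

namespace V11307.RI

open Finset Nat

def sc : ℕ → ℕ → ℤ
  | m, 0 => ((2 * m).choose m : ℤ)
  | m, n + 1 => 4 * sc m n - sc (m + 1) n

theorem sc_zero (m : ℕ) : sc m 0 = ((2 * m).choose m : ℤ) := by rw [sc]

theorem sc_succ (m n : ℕ) : sc m (n + 1) = 4 * sc m n - sc (m + 1) n := by rw [sc]

theorem sc_eq (m n : ℕ) : (sc m n : ℚ) = ((2 * m)! : ℚ) * ((2 * n)! : ℚ) / ((m ! : ℚ) * (n ! : ℚ) * ((m + n)! : ℚ)) := by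
  induction n generalizing m with
  | zero =>
    rw [sc_zero]
    push_cast
    rw [choose_q]
    simp
    ring
  | succ n ih =>
    rw [sc_succ]
    push_cast
    rw [ih, ih]
    have e1 : ((2 * (m + 1))! : ℚ) = (2 * m + 2) * ((2 * m + 1) * ((2 * m)! : ℚ)) := by
      rw [show 2 * (m + 1) = 2 * m + 1 + 1 by ring, Nat.factorial_succ, Nat.factorial_succ]
      push_cast; ring
    have e2 : ((2 * (n + 1))! : ℚ) = (2 * n + 2) * ((2 * n + 1) * ((2 * n)! : ℚ)) := by
      rw [show 2 * (n + 1) = 2 * n + 1 + 1 by ring, Nat.factorial_succ, Nat.factorial_succ]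
      push_cast; ring
    have e3 : ((m + 1)! : ℚ) = (m + 1) * (m ! : ℚ) := by
      rw [Nat.factorial_succ]; push_cast; ring
    have e4 : ((n + 1)! : ℚ) = (n + 1) * (n ! : ℚ) := by
      rw [Nat.factorial_succ]; push_cast; ring
    have e5 : ((m + 1 + n)! : ℚ) = (m + n + 1) * ((m + n)! : ℚ) := by
      rw [show m + 1 + n = m + n + 1 by ring, Nat.factorial_succ]; push_cast; ring
    have e6 : ((m + (n + 1))! : ℚ) = (m + n + 1) * ((m + n)! : ℚ) := by
      rw [show m + (n + 1) = m + n + 1 by ring, Nat.factorial_succ]; push_cast; ring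
    rw [e1, e2, e3, e4, e5, e6]
    have n1 : (n ! : ℚ) ≠ 0 := by exact_mod_cast n.factorial_ne_zero
    have n2 : (m ! : ℚ) ≠ 0 := by exact_mod_cast m.factorial_ne_zero
    have n3 : ((m + n)! : ℚ) ≠ 0 := by exact_mod_cast (m + n).factorial_ne_zero
    have n4 : ((m : ℚ) + 1) ≠ 0 := by positivity
    have n5 : ((n : ℚ) + 1) ≠ 0 := by positivity
    have n6 : ((m : ℚ) + n + 1) ≠ 0 := by positivity
    generalize ((2 * m)! : ℚ) = A
    generalize ((2 * n)! : ℚ) = B
    generalize (m ! : ℚ) = C at *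
    generalize (n ! : ℚ) = D at *
    generalize ((m + n)! : ℚ) = E at *
    field_simp
    ring

theorem sc_mod (m n : ℕ) : (4 : ℤ) ∣ sc m n - (-1) ^ n * ((2 * (m + n)).choose (m + n) : ℤ) := by
  induction n generalizing m with
  | zero => rw [sc_zero]; simp
  | succ n ih =>
    obtain ⟨x, hx⟩ := ih (m + 1)
    rw [sc_succ, show m + (n + 1) = m + 1 + n by ring, pow_succ]
    exact ⟨sc m n - x, by linear_combination -hx⟩

/-- `4 ∣ S(m,n)` when `m+n = 2N+1`, `N ≥ 1` -/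
theorem four_dvd_sc {m n N : ℕ} (hN : 1 ≤ N) (h : m + n = 2 * N + 1) : (4 : ℤ) ∣ sc m n := by
  have h1 := sc_mod m n
  rw [h] at h1
  have h2 : (4 : ℤ) ∣ ((2 * (2 * N + 1)).choose (2 * N + 1) : ℤ) := by exact_mod_cast four_dvd hN
  have h3 := dvd_add h1 (Dvd.dvd.mul_left h2 ((-1) ^ n))
  rwa [sub_add_cancel] at h3

end V11307.RI
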