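import Pool.Agent.V11307.RI.S32768

set_option autoImplicit false

/-! The sums `∑_{k<n} (154k+15) (6k)!/((3k)!(k!)^3) (-32768)^(n-1-k)`: integrality of the terms. -/

namespace V11307.RI.S32768

open Finset Nat

/-- `C(6n,3n) C(3n,n)` -/
def X (n : ℕ) : ℕ := (6 * n).choose (3 * n) * (3 * n).choose n

def c6 (n : ℕ) : ℕ := (2 * n).choose n * X n

theorem X_fact (n : ℕ) : X n * ((3 * n)! * ((2 * n)! * n !)) = (6 * n)! := by
  have h := Nat.choose_mul_factorial_mul_factorial (show 3 * n ≤ 6 * n by omega)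
  have h' := Nat.choose_mul_factorial_mul_factorial (show n ≤ 3 * n by omega)
  rw [show 6 * n - 3 * n = 3 * n by omega] at h
  rw [show 3 * n - n = 2 * n by omega] at h'
  rw [← h]
  unfold X
  nth_rw 3 [← h']
  ring

theorem X_q (n : ℕ) : (X n : ℚ) = ((6 * n)! : ℚ) / (((3 * n)! : ℚ) * (((2 * n)! : ℚ) * (n ! : ℚ))) := by
  have h := X_fact n
  have n1 : ((3 * n)! : ℚ) ≠ 0 := by exact_mod_cast (3 * n).factorial_ne_zero
  have n2 : ((2 * n)! : ℚ) ≠ 0 := by exact_mod_cast (2 * n).factorial_ne_zero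
  have n3 : (n ! : ℚ) ≠ 0 := by exact_mod_cast n.factorial_ne_zero
  rw [eq_div_iff (by positivity)]
  exact_mod_cast h

theorem X_pos (n : ℕ) : 0 < X n := by
  unfold X
  have : 0 < (6 * n).choose (3 * n) := Nat.choose_pos (by omega)
  have : 0 < (3 * n).choose n := Nat.choose_pos (by omega)
  positivity

theorem f_zero (n : ℕ) : f 0 n = (154 * (n : ℚ) + 15) * c6 n := by
  have h1 : Hi (2 * n) (2 * (n : ℤ) - ((0 + n : ℕ) : ℤ)) = (-1) ^ n * (((2 * n)! : ℚ) * ((2 * n)! : ℚ) /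
      ((n ! : ℚ) * (n ! : ℚ) * ((n + n)! : ℚ))) := by
    have := Hi_mid n n
    rw [← this, show n + n = 2 * n by ring]
    congr 1; push_cast; ring
  unfold f T c6
  rw [h1]
  push_cast
  rw [X_q, chq, show 0 + n = n by ring, show n + n = 2 * n by ring]
  unfold P
  have n1 : ((3 * n)! : ℚ) ≠ 0 := by exact_mod_cast (3 * n).factorial_ne_zero
  have n2 : ((2 * n)! : ℚ) ≠ 0 := by exact_mod_cast (2 * n).factorial_ne_zero
  have n3 : (n ! : ℚ) ≠ 0 := by exact_mod_cast n.factorial_ne_zero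
  have n4 : (2 * (n : ℚ) + 1) ≠ 0 := by positivity
  have hs : ((-1 : ℚ) ^ n) * (-1) ^ n = 1 := by rw [← mul_pow]; norm_num
  rw [show ((0 : ℚ) + 2 * n + 1) = 2 * n + 1 by ring, choose_q]
  generalize ((-1 : ℚ) ^ n) = s at *
  generalize ((6 * n)! : ℚ) = A at *
  generalize ((3 * n)! : ℚ) = B at *
  generalize ((2 * n)! : ℚ) = C at *
  generalize (n ! : ℚ) = D' at *
  field_simp
  linear_combination A * (308 * (n : ℚ) ^ 2 + 184 * n + 15) * hs

theorem g_f {n : ℕ} (_ : 1 ≤ n) : g n 0 = f n 0 := by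
  unfold g f T
  rw [P_succ]
  simp only [Nat.add_zero, Nat.mul_zero, Hi_zero, Nat.choose_self, Nat.choose_zero_right]
  have n1 : (2 * (n : ℚ) + 1) ≠ 0 := by positivity
  have n2 : (2 * (n : ℚ) + 2) ≠ 0 := by positivity
  have n3 : ((n : ℚ) + 2 * 0 + 1) ≠ 0 := by positivity
  push_cast
  generalize P n = Y
  generalize ((2 * n).choose n : ℚ) = V
  field_simp
  ring

/-- the sums -/
def Z (n : ℕ) : ℤ := ∑ k ∈ range n, (154 * (k : ℤ) + 15) * c6 k * (-32768) ^ (n - 1 - k)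

theorem Z_succ (n : ℕ) : Z (n + 1) = -32768 * Z n + (154 * (n : ℤ) + 15) * c6 n := by
  rw [Z, sum_range_succ, Z, mul_sum]
  congr 1
  · refine sum_congr rfl fun k hk => ?_
    rw [mem_range] at hk
    have : n + 1 - 1 - k = (n - 1 - k) + 1 := by omega
    rw [this, pow_succ]
    ring
  · simp

theorem Z_eq (n : ℕ) : (Z (n + 1) : ℚ) = ∑ j ∈ range (n + 1), g j (n - j) := by
  refine V11307.RI.closed (m := -32768) (f := f) wz (fun n hn => g_f hn) (fun n => (Z n : ℚ))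
    (fun n => (154 * (n : ℚ) + 15) * c6 n) ?_ (fun n => by rw [Z_succ]; push_cast; ring)
    (fun n _ => f_zero n) n
  norm_num [Z, g, T, P, Hi, c6, X, Nat.factorial]

/-! ### the terms in factorials -/

theorem P_q (N : ℕ) : P N = (X N : ℚ) * (N ! : ℚ) ^ 2 / ((2 * N)! : ℚ) := by
  rw [X_q]
  unfold P
  have n1 : ((3 * N)! : ℚ) ≠ 0 := by exact_mod_cast (3 * N).factorial_ne_zero
  have n2 : ((2 * N)! : ℚ) ≠ 0 := by exact_mod_cast (2 * N).factorial_ne_zero
  have n3 : (N ! : ℚ) ≠ 0 := by exact_mod_cast N.factorial_ne_zero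
  field_simp

/-- case `N = 2k+r` -/
theorem T_one {N k r : ℕ} (h : N = 2 * k + r) : T N k * (((3 * N)! : ℚ) * ((2 * N)! : ℚ) * (k ! : ℚ) * ((2 * r)! : ℚ) *
    ((N + k)! : ℚ)) = ((6 * N)! : ℚ) * (N ! : ℚ) * (r ! : ℚ) := by
  have h1 := Hi_neg (2 * k) r
  rw [show 2 * r + 2 * (2 * k) = 2 * N by omega, show r + 2 * k = N by omega] at h1
  have h2 : Hi (2 * k) (2 * (k : ℤ) - N) = Hi (2 * k) (-(r : ℤ)) := by
    congr 1; rw [h]; push_cast; ring
  unfold T P
  rw [h2, h1, chq, choose_q, pow_mul]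
  have n1 : ((3 * N)! : ℚ) ≠ 0 := by exact_mod_cast (3 * N).factorial_ne_zero
  have n2 : ((2 * N)! : ℚ) ≠ 0 := by exact_mod_cast (2 * N).factorial_ne_zero
  have n3 : (N ! : ℚ) ≠ 0 := by exact_mod_cast N.factorial_ne_zero
  have n4 : (k ! : ℚ) ≠ 0 := by exact_mod_cast k.factorial_ne_zero
  have n5 : ((2 * r)! : ℚ) ≠ 0 := by exact_mod_cast (2 * r).factorial_ne_zero
  have n6 : ((2 * k)! : ℚ) ≠ 0 := by exact_mod_cast (2 * k).factorial_ne_zero
  have n7 : ((N + k)! : ℚ) ≠ 0 := by exact_mod_cast (N + k).factorial_ne_zero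
  norm_num
  field_simp

/-- case `N + r = 2k` -/
theorem T_two {N k r : ℕ} (h : N + r = 2 * k) : T N k * (((3 * N)! : ℚ) * ((2 * N)! : ℚ) * (k ! : ℚ) * (r ! : ℚ) *
    ((N + k)! : ℚ)) = (-1) ^ N * (((6 * N)! : ℚ) * ((2 * r)! : ℚ) * (N ! : ℚ)) := by
  have h1 := Hi_mid r N
  rw [show r + N = 2 * k by omega] at h1
  have h2 : Hi (2 * k) (2 * (k : ℤ) - N) = Hi (2 * k) (r : ℤ) := by
    congr 1; have : (N : ℤ) + r = 2 * k := by exact_mod_cast h
    linear_combination -this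
  unfold T P
  rw [h2, h1, chq, choose_q]
  have n1 : ((3 * N)! : ℚ) ≠ 0 := by exact_mod_cast (3 * N).factorial_ne_zero
  have n2 : ((2 * N)! : ℚ) ≠ 0 := by exact_mod_cast (2 * N).factorial_ne_zero
  have n3 : (N ! : ℚ) ≠ 0 := by exact_mod_cast N.factorial_ne_zero
  have n4 : (k ! : ℚ) ≠ 0 := by exact_mod_cast k.factorial_ne_zero
  have n5 : (r ! : ℚ) ≠ 0 := by exact_mod_cast r.factorial_ne_zero
  have n6 : ((2 * k)! : ℚ) ≠ 0 := by exact_mod_cast (2 * k).factorial_ne_zero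
  have n7 : ((N + k)! : ℚ) ≠ 0 := by exact_mod_cast (N + k).factorial_ne_zero
  field_simp

theorem flr {x q : ℕ} (hq : 0 < q) : q * (x / q) ≤ x ∧ x < q * (x / q) + q := by
  have := Nat.div_add_mod x q
  have := Nat.mod_lt x hq
  constructor <;> omega

theorem flc {c y q : ℕ} (hq : 0 < q) : c * (y / q) ≤ c * y / q ∧ c * y / q ≤ c * (y / q) + (c - 1) := by
  refine ⟨Nat.mul_div_le_mul_div_assoc c y q, ?_⟩
  rcases Nat.eq_zero_or_pos c with h | h
  · subst h; simp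
  · obtain ⟨_, h2⟩ := flr (x := y) hq
    have : c * y / q < c * (y / q) + c := by
      rw [Nat.div_lt_iff_lt_mul hq]
      calc c * y < c * (q * (y / q) + q) := Nat.mul_lt_mul_of_pos_left h2 h
        _ = (c * (y / q) + c) * q := by ring
    omega

theorem lvl1 (s t n q : ℕ) (hn : n = 2 * s + t) (hq : 2 ≤ q) (hs : s < q) (ht : t < q) :
    3 * n / q + (2 * n / q + (2 * t / q + (3 * s + t) / q)) ≤ 6 * n / q + n / q := by
  have hq0 : 0 < q := by omega
  obtain ⟨a1, a2⟩ := flr (x := n) hq0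
  obtain ⟨b1, b2⟩ := flr (x := 2 * n) hq0
  obtain ⟨c1, c2⟩ := flr (x := 3 * n) hq0
  obtain ⟨d1, d2⟩ := flr (x := 6 * n) hq0
  obtain ⟨e1, e2⟩ := flr (x := 2 * t) hq0
  obtain ⟨g1, g2⟩ := flr (x := 3 * s + t) hq0
  obtain ⟨b3, b4⟩ := flc (c := 2) (y := n) hq0
  obtain ⟨c3, c4⟩ := flc (c := 3) (y := n) hq0
  obtain ⟨d3, d4⟩ := flc (c := 2) (y := 3 * n) hq0
  rw [← mul_assoc] at d3 d4
  have a5 : n / q < 3 := by rw [Nat.div_lt_iff_lt_mul (by omega)]; omega
  have e5 : 2 * t / q < 2 := by rw [Nat.div_lt_iff_lt_mul (by omega)]; omega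
  have g5 : (3 * s + t) / q < 4 := by rw [Nat.div_lt_iff_lt_mul (by omega)]; omega
  norm_num at b4 c4 d3 d4
  generalize n / q = x at *
  generalize 2 * n / q = y at *
  generalize 3 * n / q = z at *
  generalize 6 * n / q = u at *
  generalize 2 * t / q = v at *
  generalize (3 * s + t) / q = w at *
  interval_cases x <;> interval_cases y <;> interval_cases z <;> interval_cases v <;> interval_cases w <;>
    interval_cases u <;> omega

theorem lvl2 (s t n q : ℕ) (hn : n = 2 * s + t) (hq : 2 ≤ q) (hs : s < q) (ht : t < q) :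
    3 * n / q + (2 * n / q + ((s + t) / q + (3 * s + 2 * t) / q)) ≤ 6 * n / q + (2 * t / q + n / q) := by
  have hq0 : 0 < q := by omega
  obtain ⟨a1, a2⟩ := flr (x := n) hq0
  obtain ⟨b1, b2⟩ := flr (x := 2 * n) hq0
  obtain ⟨c1, c2⟩ := flr (x := 3 * n) hq0
  obtain ⟨d1, d2⟩ := flr (x := 6 * n) hq0
  obtain ⟨e1, e2⟩ := flr (x := 2 * t) hq0
  obtain ⟨g1, g2⟩ := flr (x := 3 * s + 2 * t) hq0
  obtain ⟨h1, h2⟩ := flr (x := s + t) hq0
  obtain ⟨b3, b4⟩ := flc (c := 2) (y := n) hq0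
  obtain ⟨c3, c4⟩ := flc (c := 3) (y := n) hq0
  obtain ⟨d3, d4⟩ := flc (c := 2) (y := 3 * n) hq0
  rw [← mul_assoc] at d3 d4
  have a5 : n / q < 3 := by rw [Nat.div_lt_iff_lt_mul (by omega)]; omega
  have e5 : 2 * t / q < 2 := by rw [Nat.div_lt_iff_lt_mul (by omega)]; omega
  have g5 : (3 * s + 2 * t) / q < 5 := by rw [Nat.div_lt_iff_lt_mul (by omega)]; omega
  have h5 : (s + t) / q < 2 := by rw [Nat.div_lt_iff_lt_mul (by omega)]; omega
  norm_num at b4 c4 d3 d4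
  generalize n / q = x at *
  generalize 2 * n / q = y at *
  generalize 3 * n / q = z at *
  generalize 6 * n / q = u at *
  generalize 2 * t / q = v at *
  generalize (3 * s + 2 * t) / q = w at *
  generalize (s + t) / q = w' at *
  interval_cases x <;> interval_cases y <;> interval_cases z <;> interval_cases v <;> interval_cases w' <;>
    interval_cases w <;> interval_cases u <;> omega

end V11307.RI.S32768
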