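import Pool.Agent.V11307.RI.Basic

set_option autoImplicit false

/-!
# The 3-adic part of the integrality theorems

`D K = (2K+1)(2K+3) C(2K,K)`; with `n = K+1` this is half of `n (2n+1) C(2n,n)`.
-/

namespace V11307.RI

open Finset Nat

instance : Fact (Nat.Prime 3) := ⟨Nat.prime_three⟩

/-- `D K = (2K+1)(2K+3) C(2K,K)` -/
def D (K : ℕ) : ℕ := (2 * K + 1) * (2 * K + 3) * (2 * K).choose K

theorem D_pos (K : ℕ) : 0 < D K := by
  unfold D
  have := choose_pos' K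
  positivity

theorem D_fact (K : ℕ) : D K * 2 * (K ! * (K + 1)!) = (2 * K + 3)! := by
  have h := Nat.choose_mul_factorial_mul_factorial (show K ≤ 2 * K by omega)
  rw [show 2 * K - K = K by omega] at h
  rw [show 2 * K + 3 = 2 * K + 1 + 1 + 1 by ring, Nat.factorial_succ, Nat.factorial_succ, Nat.factorial_succ,
    Nat.factorial_succ, ← h]
  unfold D
  ring

theorem val_fact {n B : ℕ} (h : n < B) : padicValNat 3 n ! = ∑ l ∈ Ico 1 B, n / 3 ^ l :=
  padicValNat_factorial (lt_of_le_of_lt (Nat.log_le_self _ _) h)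

theorem val_D {K B : ℕ} (h : 2 * K + 3 < B) :
    padicValNat 3 (D K) + ∑ l ∈ Ico 1 B, (K % 3 ^ l + 1) / 3 ^ l = ∑ l ∈ Ico 1 B, (2 * (K % 3 ^ l) + 3) / 3 ^ l := by
  have h1 := congrArg (padicValNat 3) (D_fact K)
  have p1 := (D_pos K).ne'
  have p2 := K.factorial_ne_zero
  have p3 := (K + 1).factorial_ne_zero
  rw [padicValNat.mul (by positivity) (by positivity), padicValNat.mul p1 (by norm_num),
    padicValNat.mul p2 p3, val_fact (B := B) (by omega), val_fact (B := B) (by omega), val_fact (B := B) (by omega),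
    show padicValNat 3 2 = 0 by
      apply padicValNat.eq_zero_of_not_dvd; norm_num] at h1
  have h2 : ∀ l ∈ Ico 1 B, K / 3 ^ l + (K + 1) / 3 ^ l + (2 * (K % 3 ^ l) + 3) / 3 ^ l =
      (2 * K + 3) / 3 ^ l + (K % 3 ^ l + 1) / 3 ^ l := by
    intro l _
    have hq : 0 < 3 ^ l := by positivity
    generalize 3 ^ l = q at *
    have e := Nat.div_add_mod K q
    generalize K / q = A at *
    generalize hr : K % q = r at *
    subst e
    rw [show q * A + r + 1 = r + 1 + q * A by ring, show 2 * (q * A + r) + 3 = 2 * r + 3 + q * (2 * A) by ring,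
      Nat.add_mul_div_left _ _ hq, Nat.add_mul_div_left _ _ hq]
    ring
  have h3 := sum_congr rfl h2
  simp only [sum_add_distrib] at h3
  omega

/-- the property of the weights used in the 3-adic analysis -/
structure Good3 (c : ℕ → ℕ) (ph : ℕ → ℕ → ℕ) : Prop where
  pos : ∀ k, 0 < c k
  val : ∀ k B, 4 * k < B → padicValNat 3 (c k) = ∑ l ∈ Ico 1 B, ph (k % 3 ^ l) (3 ^ l)
  one : ∀ s q, q ≤ 3 * s → 0 < q → 1 ≤ ph s q
  two : ∀ s q, q ≤ 2 * s → 0 < q → 2 ≤ ph s q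
  zero : ∀ s q, 6 * s + 9 ≤ q → ph s q = 0
  zero' : ph 0 3 = 0
  exact : ∀ s q, 2 * s + 3 = q → 9 ≤ q → ph s q = 1

/-- `C(4k,2k) C(2k,k)^2` -/
def c4 (k : ℕ) : ℕ := (4 * k).choose (2 * k) * (2 * k).choose k ^ 2

/-- `C(2k,k)^2 C(3k,k)` -/
def c3 (k : ℕ) : ℕ := (2 * k).choose k ^ 2 * (3 * k).choose k

theorem c4_fact (k : ℕ) : c4 k * k ! ^ 4 = (4 * k)! := by
  have h := Nat.choose_mul_factorial_mul_factorial (show k ≤ 2 * k by omega)
  have h' := Nat.choose_mul_factorial_mul_factorial (show 2 * k ≤ 4 * k by omega)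
  rw [show 2 * k - k = k by omega] at h
  rw [show 4 * k - 2 * k = 2 * k by omega] at h'
  rw [← h', ← h]
  unfold c4
  ring

theorem c3_fact (k : ℕ) : c3 k * k ! ^ 5 = (2 * k)! * (3 * k)! := by
  have h := Nat.choose_mul_factorial_mul_factorial (show k ≤ 2 * k by omega)
  have h' := Nat.choose_mul_factorial_mul_factorial (show k ≤ 3 * k by omega)
  rw [show 2 * k - k = k by omega] at h
  rw [show 3 * k - k = 2 * k by omega] at h'
  rw [← h', ← h]
  unfold c3
  ring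

theorem c4_pos (k : ℕ) : 0 < c4 k := by
  unfold c4
  have := choose_pos' k
  have : 0 < (4 * k).choose (2 * k) := Nat.choose_pos (by omega)
  positivity

theorem c3_pos (k : ℕ) : 0 < c3 k := by
  unfold c3
  have := choose_pos' k
  have : 0 < (3 * k).choose k := Nat.choose_pos (by omega)
  positivity

theorem good3_c4 : Good3 c4 (fun s q => 4 * s / q) where
  pos := c4_pos
  val := by
    intro k B hB
    have h1 := congrArg (padicValNat 3) (c4_fact k)
    have p1 := (c4_pos k).ne'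
    have p2 := k.factorial_ne_zero
    rw [padicValNat.mul p1 (by positivity), padicValNat.pow, val_fact (B := B) (by omega),
      val_fact (B := B) (by omega)] at h1
    have h2 : ∀ l ∈ Ico 1 B, 4 * (k / 3 ^ l) + 4 * (k % 3 ^ l) / 3 ^ l = 4 * k / 3 ^ l := by
      intro l _
      have hq : 0 < 3 ^ l := by positivity
      generalize 3 ^ l = q at *
      have e := Nat.div_add_mod k q
      generalize k / q = A at *
      generalize hr : k % q = r at *
      subst e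
      rw [show 4 * (q * A + r) = 4 * r + q * (4 * A) by ring, Nat.add_mul_div_left _ _ hq]
      ring
    have h3 := sum_congr rfl h2
    rw [sum_add_distrib, ← mul_sum] at h3
    omega
  one := by
    intro s q h hq
    rw [Nat.le_div_iff_mul_le hq]; omega
  two := by
    intro s q h hq
    rw [Nat.le_div_iff_mul_le hq]; omega
  zero := by
    intro s q h
    exact Nat.div_eq_of_lt (by omega)
  zero' := by norm_num
  exact := by
    intro s q h hq
    apply Nat.div_eq_of_lt_le <;> omega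

theorem good3_c3 : Good3 c3 (fun s q => 2 * s / q + 3 * s / q) where
  pos := c3_pos
  val := by
    intro k B hB
    have h1 := congrArg (padicValNat 3) (c3_fact k)
    have p1 := (c3_pos k).ne'
    have p2 := k.factorial_ne_zero
    rw [padicValNat.mul p1 (by positivity), padicValNat.pow, padicValNat.mul (by positivity) (by positivity),
      val_fact (B := B) (by omega), val_fact (B := B) (by omega), val_fact (B := B) (by omega)] at h1
    have h2 : ∀ l ∈ Ico 1 B, 5 * (k / 3 ^ l) + (2 * (k % 3 ^ l) / 3 ^ l + 3 * (k % 3 ^ l) / 3 ^ l) =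
        2 * k / 3 ^ l + 3 * k / 3 ^ l := by
      intro l _
      have hq : 0 < 3 ^ l := by positivity
      generalize 3 ^ l = q at *
      have e := Nat.div_add_mod k q
      generalize k / q = A at *
      generalize hr : k % q = r at *
      subst e
      rw [show 2 * (q * A + r) = 2 * r + q * (2 * A) by ring, show 3 * (q * A + r) = 3 * r + q * (3 * A) by ring,
        Nat.add_mul_div_left _ _ hq, Nat.add_mul_div_left _ _ hq]
      ring
    have h3 := sum_congr rfl h2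
    rw [sum_add_distrib, sum_add_distrib (f := fun l => 2 * k / 3 ^ l), ← mul_sum] at h3
    omega
  one := by
    intro s q h hq
    have h1 : 1 ≤ 3 * s / q := by rw [Nat.le_div_iff_mul_le hq]; omega
    exact h1.trans (Nat.le_add_left _ _)
  two := by
    intro s q h hq
    have h1 : 1 ≤ 3 * s / q := by rw [Nat.le_div_iff_mul_le hq]; omega
    have h2 : 1 ≤ 2 * s / q := by rw [Nat.le_div_iff_mul_le hq]; omega
    exact Nat.add_le_add h2 h1
  zero := by
    intro s q h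
    rw [Nat.div_eq_of_lt (show 2 * s < q by omega), Nat.div_eq_of_lt (show 3 * s < q by omega)]
  zero' := by norm_num
  exact := by
    intro s q h hq
    rw [Nat.div_eq_of_lt (show 2 * s < q by omega)]
    have : 3 * s / q = 1 := by apply Nat.div_eq_of_lt_le <;> omega
    omega

/-- `q`-level comparison -/
theorem lev_aux {r q : ℕ} (hq : 3 ≤ q) (hr : r < q) : (2 * r + 3) / q ≤ (r + 1) / q + 1 := by
  rcases Nat.lt_or_ge (2 * r + 3) (2 * q) with h | h
  · have : (2 * r + 3) / q < 2 := by rw [Nat.div_lt_iff_lt_mul (by omega)]; omega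
    generalize (2 * r + 3) / q = x at *
    generalize (r + 1) / q = y at *
    omega
  · have e : r + 1 = q := by omega
    have h1 : (2 * r + 3) / q < 3 := by rw [Nat.div_lt_iff_lt_mul (by omega)]; omega
    have e2 : (r + 1) / q = 1 := by rw [e]; exact Nat.div_self (by omega)
    rw [e2]
    generalize (2 * r + 3) / q = x at *
    omega

/-! ### counting the bad levels -/

theorem six_lt {i : ℕ} (hi : 2 ≤ i) : 6 * i + 3 < 3 ^ (i + 1) := by
  induction i, hi using Nat.le_induction with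
  | base => norm_num
  | succ i hi ih => rw [pow_succ]; omega

theorem three_dvd_pow {l : ℕ} (hl : 1 ≤ l) : 3 ∣ 3 ^ l := dvd_pow_self 3 (by omega)

theorem bad_le {k i l : ℕ} (hl : 1 ≤ l) (h1 : 3 * (k % 3 ^ l) < 3 ^ l) (h2 : 3 ^ l ≤ 2 * ((k + i) % 3 ^ l) + 3) :
    3 ^ l ≤ 6 * i + 3 := by
  have h3 : (k + i) % 3 ^ l ≤ k % 3 ^ l + i := by
    rw [Nat.add_mod]
    exact (Nat.mod_le _ _).trans (Nat.add_le_add_left (Nat.mod_le _ _) _)
  obtain ⟨u, hu⟩ := three_dvd_pow hl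
  generalize 3 ^ l = q at *
  omega

theorem card_bad {k i : ℕ} (hi : 1 ≤ i) (B : ℕ) :
    ∑ l ∈ Ico 1 B, (if 3 * (k % 3 ^ l) < 3 ^ l ∧ 3 ^ l ≤ 2 * ((k + i) % 3 ^ l) + 3 then 1 else 0) ≤ i := by
  rw [← card_filter]
  rcases Nat.lt_or_ge i 2 with h | h
  · have hi1 : i = 1 := by omega
    subst hi1
    rw [Finset.card_le_one]
    have key : ∀ l ∈ (Ico 1 B).filter (fun l => 3 * (k % 3 ^ l) < 3 ^ l ∧ 3 ^ l ≤ 2 * ((k + 1) % 3 ^ l) + 3),
        (l = 1 ∧ k % 3 = 0) ∨ (l = 2 ∧ k % 3 = 2) := by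
      intro l hl
      rw [mem_filter, mem_Ico] at hl
      obtain ⟨⟨hl1, _⟩, h1, h2⟩ := hl
      have h3 := bad_le hl1 h1 h2
      have h4 : l < 3 := by
        by_contra hh
        have : 3 ^ 3 ≤ 3 ^ l := Nat.pow_le_pow_right (by norm_num) (by omega)
        omega
      interval_cases l
      · left; omega
      · right; omega
    intro a ha b hb
    have h1 := key a ha
    have h2 := key b hb
    omega
  · refine (card_le_card (t := Ico 1 (i + 1)) ?_).trans (by simp)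
    intro l hl
    rw [mem_filter, mem_Ico] at hl
    obtain ⟨⟨hl1, _⟩, h1, h2⟩ := hl
    have h3 := bad_le hl1 h1 h2
    rw [mem_Ico]
    refine ⟨hl1, ?_⟩
    by_contra hh
    have h4 : 3 ^ (i + 1) ≤ 3 ^ l := Nat.pow_le_pow_right (by norm_num) (by omega)
    have := six_lt h
    omega

/-- the terms with `i ≥ 1` -/
theorem val_tail {c : ℕ → ℕ} {ph : ℕ → ℕ → ℕ} (hc : Good3 c ph) {k i : ℕ} (hi : 1 ≤ i) :
    padicValNat 3 (D (k + i)) ≤ i + padicValNat 3 (c k) := by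
  obtain ⟨B, hB⟩ : ∃ B, B = 4 * (k + i) + 4 := ⟨_, rfl⟩
  have h1 := val_D (K := k + i) (B := B) (by omega)
  have h2 := hc.val k B (by omega)
  have h3 := card_bad (k := k) hi B
  have h4 : ∀ l ∈ Ico 1 B, (2 * ((k + i) % 3 ^ l) + 3) / 3 ^ l ≤ ((k + i) % 3 ^ l + 1) / 3 ^ l +
      (ph (k % 3 ^ l) (3 ^ l) + (if 3 * (k % 3 ^ l) < 3 ^ l ∧ 3 ^ l ≤ 2 * ((k + i) % 3 ^ l) + 3 then 1 else 0)) := by
    intro l hl
    rw [mem_Ico] at hl
    have hq : 3 ≤ 3 ^ l := by
      calc 3 = 3 ^ 1 := by norm_num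
        _ ≤ 3 ^ l := Nat.pow_le_pow_right (by norm_num) hl.1
    have hr : (k + i) % 3 ^ l < 3 ^ l := Nat.mod_lt _ (by omega)
    have ho := hc.one (k % 3 ^ l) (3 ^ l)
    generalize 3 ^ l = q at *
    generalize (k + i) % q = r at *
    generalize k % q = s at *
    generalize ph s q = w at *
    have e1 := lev_aux hq hr
    rcases Nat.lt_or_ge (2 * r + 3) q with h | h
    · rw [Nat.div_eq_of_lt h]; exact Nat.zero_le _
    · rcases Nat.lt_or_ge (3 * s) q with h' | h'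
      · rw [if_pos ⟨h', h⟩]
        generalize (2 * r + 3) / q = x at *
        generalize (r + 1) / q = y at *
        omega
      · have := ho h' (by omega)
        generalize (2 * r + 3) / q = x at *
        generalize (r + 1) / q = y at *
        omega
  have h5 := sum_le_sum h4
  rw [sum_add_distrib, sum_add_distrib] at h5
  omega

/-- levels `l ≥ 2` for the top term -/
theorem lev_two {c : ℕ → ℕ} {ph : ℕ → ℕ → ℕ} (hc : Good3 c ph) {K l : ℕ} (hl : 2 ≤ l) :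
    (2 * (K % 3 ^ l) + 3) / 3 ^ l ≤ (K % 3 ^ l + 1) / 3 ^ l + ph (K % 3 ^ l) (3 ^ l) := by
  have hq : 9 ≤ 3 ^ l := by
    calc 9 = 3 ^ 2 := by norm_num
      _ ≤ 3 ^ l := Nat.pow_le_pow_right (by norm_num) hl
  have hr : K % 3 ^ l < 3 ^ l := Nat.mod_lt _ (by omega)
  have ho := hc.one (K % 3 ^ l) (3 ^ l)
  generalize 3 ^ l = q at *
  generalize K % q = r at *
  generalize ph r q = w at *
  rcases Nat.lt_or_ge (2 * r + 3) q with h | h
  · rw [Nat.div_eq_of_lt h]; exact Nat.zero_le _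
  · have h1 := ho (by omega) (by omega)
    have h2 := lev_aux (by omega) hr
    generalize (2 * r + 3) / q = x at *
    generalize (r + 1) / q = y at *
    omega

theorem sum_split {B : ℕ} (hB : 2 ≤ B) (f : ℕ → ℕ) : ∑ l ∈ Ico 1 B, f l = f 1 + ∑ l ∈ Ico 2 B, f l := by
  rw [← Finset.sum_eq_sum_Ico_succ_bot (by omega)]

/-- the top term: loss at most one -/
theorem val_top {c : ℕ → ℕ} {ph : ℕ → ℕ → ℕ} (hc : Good3 c ph) (K : ℕ) :
    padicValNat 3 (D K) ≤ 1 + padicValNat 3 (c K) := by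
  obtain ⟨B, hB⟩ : ∃ B, B = 4 * K + 4 := ⟨_, rfl⟩
  have h1 := val_D (K := K) (B := B) (by omega)
  have h2 := hc.val K B (by omega)
  have h5 : ∑ l ∈ Ico 2 B, (2 * (K % 3 ^ l) + 3) / 3 ^ l ≤
      ∑ l ∈ Ico 2 B, ((K % 3 ^ l + 1) / 3 ^ l + ph (K % 3 ^ l) (3 ^ l)) :=
    sum_le_sum fun l hl => lev_two hc (mem_Ico.1 hl).1
  rw [sum_add_distrib] at h5
  rw [sum_split (by omega), sum_split (by omega)] at h1
  rw [sum_split (by omega)] at h2
  have e : (2 * (K % 3 ^ 1) + 3) / 3 ^ 1 ≤ (K % 3 ^ 1 + 1) / 3 ^ 1 + 1 := by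
    rw [pow_one]; omega
  omega

/-- the top term: no loss unless `2K+3` is a power of `3` -/
theorem val_top' {c : ℕ → ℕ} {ph : ℕ → ℕ → ℕ} (hc : Good3 c ph) {K : ℕ} (hK : ∀ t, 2 * K + 3 ≠ 3 ^ t) :
    padicValNat 3 (D K) ≤ padicValNat 3 (c K) := by
  obtain ⟨B, hB⟩ : ∃ B, B = 4 * K + 4 := ⟨_, rfl⟩
  have h1 := val_D (K := K) (B := B) (by omega)
  have h2 := hc.val K B (by omega)
  rw [sum_split (by omega), sum_split (by omega)] at h1
  rw [sum_split (by omega)] at h2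
  have hK0 : K ≠ 0 := by
    rintro rfl
    exact hK 1 (by norm_num)
  rcases Nat.eq_zero_or_pos (K % 3) with h0 | h0
  · -- a strict level
    obtain ⟨l, hl⟩ : ∃ l, l = Nat.log 3 K := ⟨_, rfl⟩
    have hl1 : 3 ^ l ≤ K := by rw [hl]; exact Nat.pow_log_le_self 3 hK0
    have hl2 : K < 3 ^ (l + 1) := by rw [hl]; exact Nat.lt_pow_succ_log_self (by norm_num) K
    have hl3 : 1 ≤ l := by
      by_contra hh
      have : l = 0 := by omega
      rw [this] at hl2
      omega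
    have hlB : l + 1 < B := by
      have : l ≤ K := by rw [hl]; exact Nat.log_le_self _ _
      omega
    have h5 : ∑ l ∈ Ico 2 B, (2 * (K % 3 ^ l) + 3) / 3 ^ l <
        ∑ l ∈ Ico 2 B, ((K % 3 ^ l + 1) / 3 ^ l + ph (K % 3 ^ l) (3 ^ l)) := by
      refine sum_lt_sum (fun l hl => lev_two hc (mem_Ico.1 hl).1) ⟨l + 1, mem_Ico.2 ⟨by omega, hlB⟩, ?_⟩
      rw [Nat.mod_eq_of_lt hl2]
      have ho := hc.one K (3 ^ (l + 1))
      have ht := hc.two K (3 ^ (l + 1))
      have hne := hK (l + 1)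
      have e : 3 ^ (l + 1) = 3 * 3 ^ l := by rw [pow_succ]; ring
      obtain ⟨u, hu⟩ := three_dvd_pow hl3
      have ho1 := ho (by omega) (by positivity)
      have hq : 9 ≤ 3 ^ (l + 1) := by
        calc 9 = 3 ^ 2 := by norm_num
          _ ≤ 3 ^ (l + 1) := Nat.pow_le_pow_right (by norm_num) (by omega)
      have hd : 3 ∣ 3 ^ (l + 1) := three_dvd_pow (by omega)
      generalize 3 ^ (l + 1) = q at *
      generalize ph K q = w at *
      rcases Nat.lt_or_ge (2 * K + 3) q with h | h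
      · rw [Nat.div_eq_of_lt h]
        generalize (K + 1) / q = y at *
        omega
      · have h' : q ≤ 2 * K := by
          obtain ⟨v, hv⟩ := hd
          omega
        have ht1 := ht h' (by omega)
        have h2 := lev_aux (by omega) hl2
        generalize (2 * K + 3) / q = x at *
        generalize (K + 1) / q = y at *
        omega
    rw [sum_add_distrib] at h5
    have e : (2 * (K % 3 ^ 1) + 3) / 3 ^ 1 ≤ (K % 3 ^ 1 + 1) / 3 ^ 1 + 1 := by
      rw [pow_one]; omega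
    omega
  · have h5 : ∑ l ∈ Ico 2 B, (2 * (K % 3 ^ l) + 3) / 3 ^ l ≤
        ∑ l ∈ Ico 2 B, ((K % 3 ^ l + 1) / 3 ^ l + ph (K % 3 ^ l) (3 ^ l)) :=
      sum_le_sum fun l hl => lev_two hc (mem_Ico.1 hl).1
    rw [sum_add_distrib] at h5
    have e : (2 * (K % 3 ^ 1) + 3) / 3 ^ 1 ≤ (K % 3 ^ 1 + 1) / 3 ^ 1 + ph (K % 3 ^ 1) (3 ^ 1) := by
      have h3 := hc.one (K % 3) 3 (by omega) (by norm_num)
      have h4 := hc.two (K % 3) 3
      rw [pow_one]
      generalize ph (K % 3) 3 = w at *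
      omega
    omega

/-- the top term: exact valuation if `2K+3` is a power of `3` -/
theorem val_top_eq {c : ℕ → ℕ} {ph : ℕ → ℕ → ℕ} (hc : Good3 c ph) {K t : ℕ} (hK : 2 * K + 3 = 3 ^ t) :
    padicValNat 3 (D K) = 1 + padicValNat 3 (c K) := by
  obtain ⟨B, hB⟩ : ∃ B, B = 4 * K + 4 := ⟨_, rfl⟩
  have h1 := val_D (K := K) (B := B) (by omega)
  have h2 := hc.val K B (by omega)
  have ht : 1 ≤ t := by
    by_contra hh
    have : t = 0 := by omega
    rw [this] at hK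
    omega
  have hmod : ∀ l, l ≤ t → 1 ≤ l → 2 * (K % 3 ^ l) + 3 = 3 ^ l := by
    intro l hl hl1
    obtain ⟨d, rfl⟩ : ∃ d, t = l + d := ⟨t - l, by omega⟩
    have hodd : ∃ u, 3 ^ l = 2 * u + 3 := by
      have h3 : 3 ≤ 3 ^ l := by
        calc 3 = 3 ^ 1 := by norm_num
          _ ≤ 3 ^ l := Nat.pow_le_pow_right (by norm_num) hl1
      have h4 : Odd (3 ^ l) := Odd.pow (by decide)
      obtain ⟨w, hw⟩ := h4
      exact ⟨w - 1, by omega⟩
    have hodd2 : ∃ u, 3 ^ d = 2 * u + 1 := Odd.pow (by decide)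
    obtain ⟨u, hu⟩ := hodd
    obtain ⟨v, hv⟩ := hodd2
    have hKe : K = u + 3 ^ l * v := by
      rw [pow_add, hv] at hK
      have : 3 ^ l * (2 * v + 1) = 2 * (3 ^ l * v) + 3 ^ l := by ring
      omega
    rw [hKe, Nat.add_mul_mod_self_left, Nat.mod_eq_of_lt (by omega)]
    omega
  have h5 : ∑ l ∈ Ico 2 B, (2 * (K % 3 ^ l) + 3) / 3 ^ l =
      ∑ l ∈ Ico 2 B, ((K % 3 ^ l + 1) / 3 ^ l + ph (K % 3 ^ l) (3 ^ l)) := by
    refine sum_congr rfl fun l hl => ?_
    rw [mem_Ico] at hl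
    have hq : 9 ≤ 3 ^ l := by
      calc 9 = 3 ^ 2 := by norm_num
        _ ≤ 3 ^ l := Nat.pow_le_pow_right (by norm_num) (by omega)
    rcases Nat.lt_or_ge t l with h | h
    · have h6 : 3 ^ (t + 1) ≤ 3 ^ l := Nat.pow_le_pow_right (by norm_num) (by omega)
      rw [pow_succ] at h6
      have hz := hc.zero K (3 ^ l) (by omega)
      rw [Nat.mod_eq_of_lt (show K < 3 ^ l by omega), Nat.div_eq_of_lt (by omega), Nat.div_eq_of_lt (by omega), hz]
    · have h6 := hmod l h (by omega)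
      have hz := hc.exact (K % 3 ^ l) (3 ^ l) h6 hq
      rw [hz, h6, Nat.div_self (by omega), Nat.div_eq_of_lt (by omega)]
  rw [sum_add_distrib] at h5
  rw [sum_split (by omega), sum_split (by omega)] at h1
  rw [sum_split (by omega)] at h2
  have h7 := hmod 1 ht le_rfl
  rw [pow_one] at h7
  have h8 : K % 3 = 0 := by omega
  have h9 := hc.zero'
  rw [pow_one, h8] at h1 h2
  omega

/-! ### the sums -/

theorem pow_dvd_of_val {a : ℕ} {v e : ℕ} {z w : ℤ} (h : v ≤ e + padicValNat 3 a) (hz : (3 : ℤ) ^ e ∣ z) (hw : (a : ℤ) ∣ w) :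
    (3 : ℤ) ^ v ∣ z * w := by
  have h1 : (3 : ℤ) ^ padicValNat 3 a ∣ (a : ℤ) := by exact_mod_cast pow_padicValNat_dvd
  exact (pow_dvd_pow 3 h).trans (by rw [pow_add]; exact mul_dvd_mul hz (h1.trans hw))

/-- `3`-adic part: `S (n+1) = m S n + (a n + b) c n`, `3 ∣ m`. -/
theorem three_tail {c : ℕ → ℕ} {ph : ℕ → ℕ → ℕ} (hc : Good3 c ph) {a b m : ℤ} (hm : 3 ∣ m) {S : ℕ → ℤ} (h0 : S 0 = 0)
    (hS : ∀ n, S (n + 1) = m * S n + (a * n + b) * c n) (K : ℕ) :
    (3 : ℤ) ^ padicValNat 3 (D K) ∣ m * S K := by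
  have key : ∀ j, j ≤ K → (3 : ℤ) ^ padicValNat 3 (D K) ∣ m ^ (K + 1 - j) * S j := by
    intro j
    induction j with
    | zero => intro _; rw [h0, mul_zero]; exact dvd_zero _
    | succ j ih =>
      intro hj
      rw [hS, mul_add, ← mul_assoc, ← pow_succ, show K + 1 - (j + 1) + 1 = K + 1 - j by omega]
      refine dvd_add (ih (by omega)) ?_
      obtain ⟨i, rfl⟩ : ∃ i, K = j + i := ⟨K - j, by omega⟩
      have h1 := val_tail hc (k := j) (i := i) (by omega)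
      rw [show j + i + 1 - (j + 1) = i by omega]
      exact pow_dvd_of_val h1 (pow_dvd_pow_of_dvd hm i) (Dvd.intro_left _ rfl)
  have := key K le_rfl
  rwa [show K + 1 - K = 1 by omega, pow_one] at this

theorem three_main {c : ℕ → ℕ} {ph : ℕ → ℕ → ℕ} (hc : Good3 c ph) {a b m : ℤ} (hm : 3 ∣ m) {S : ℕ → ℤ} (h0 : S 0 = 0)
    (hS : ∀ n, S (n + 1) = m * S n + (a * n + b) * c n) {K : ℕ} (hK : ∀ t, 2 * K + 3 ≠ 3 ^ t) :
    (3 : ℤ) ^ padicValNat 3 (D K) ∣ S (K + 1) := by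
  rw [hS]
  refine dvd_add (three_tail hc hm h0 hS K) ?_
  have h1 := val_top' hc hK
  have h2 := pow_dvd_of_val (a := c K) (v := padicValNat 3 (D K)) (e := 0) (z := 1) (w := (a * K + b) * c K)
    (by omega) (by simp) (Dvd.intro_left _ rfl)
  rwa [one_mul] at h2

theorem three_main' {c : ℕ → ℕ} {ph : ℕ → ℕ → ℕ} (hc : Good3 c ph) {a b m : ℤ} (hm : 3 ∣ m) {S : ℕ → ℤ} (h0 : S 0 = 0)
    (hS : ∀ n, S (n + 1) = m * S n + (a * n + b) * c n) (K : ℕ) :
    (3 : ℤ) ^ padicValNat 3 (D K) ∣ 3 * S (K + 1) := by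
  rw [hS, mul_add]
  refine dvd_add (Dvd.dvd.mul_left (three_tail hc hm h0 hS K) 3) ?_
  have h1 := val_top hc K
  exact pow_dvd_of_val (e := 1) h1 (by simp) (Dvd.intro_left _ rfl)

theorem three_exact {c : ℕ → ℕ} {ph : ℕ → ℕ → ℕ} (hc : Good3 c ph) {a b m : ℤ} (hm : 3 ∣ m) (hb : ¬ 3 ∣ b) {S : ℕ → ℤ}
    (h0 : S 0 = 0) (hS : ∀ n, S (n + 1) = m * S n + (a * n + b) * c n) {K t : ℕ} (hK : 2 * K + 3 = 3 ^ t) :
    ¬ (3 : ℤ) ^ padicValNat 3 (D K) ∣ S (K + 1) := by
  intro h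
  rw [hS] at h
  have h1 := (dvd_add_right (three_tail hc hm h0 hS K)).1 h
  have h2 := val_top_eq hc hK
  have ht : 1 ≤ t := by
    by_contra hh
    have : t = 0 := by omega
    rw [this] at hK
    omega
  have h3 : (3 : ℤ) ∣ K := by
    obtain ⟨u, hu⟩ := three_dvd_pow ht
    have : 3 ∣ K := by omega
    exact_mod_cast this
  have h4 : IsCoprime ((3 : ℤ)) (a * K + b) := by
    rw [Int.isCoprime_iff_gcd_eq_one]
    have hp : Prime (3 : ℤ) := by
      exact_mod_cast Nat.prime_iff_prime_int.1 Nat.prime_three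
    have : ¬ (3 : ℤ) ∣ a * K + b := fun hh => hb ((dvd_add_right (Dvd.dvd.mul_left h3 a)).1 hh)
    exact Int.isCoprime_iff_gcd_eq_one.1 ((Prime.coprime_iff_not_dvd hp).2 this)
  have h5 := (h4.pow_left (m := padicValNat 3 (D K))).dvd_of_dvd_mul_left h1
  have h6 : 3 ^ padicValNat 3 (D K) ∣ c K := by exact_mod_cast h5
  have h7 := (padicValNat_dvd_iff_le (hc.pos K).ne').1 h6
  omega

/-- assembling the 3-part and the rest -/
theorem assemble {E : ℕ} (hE : E ≠ 0) {S : ℤ} {e : ℕ} (h1 : (E : ℤ) ∣ 3 ^ e * S) (h2 : (3 : ℤ) ^ padicValNat 3 E ∣ S) :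
    (E : ℤ) ∣ S := by
  obtain ⟨F, hF⟩ : 3 ^ padicValNat 3 E ∣ E := pow_padicValNat_dvd
  have h3 : Nat.Coprime 3 F := by
    rw [Nat.Prime.coprime_iff_not_dvd Nat.prime_three]
    rintro ⟨G, rfl⟩
    have : 3 ^ (padicValNat 3 E + 1) ∣ E := ⟨G, by rw [pow_succ]; rw [mul_assoc]; exact hF⟩
    have := (padicValNat_dvd_iff_le hE).1 this
    omega
  have h4 : IsCoprime ((3 : ℤ) ^ padicValNat 3 E) (F : ℤ) := by
    have : IsCoprime (3 : ℤ) (F : ℤ) := by exact_mod_cast Nat.isCoprime_iff_coprime.2 h3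
    exact this.pow_left
  have h5 : (F : ℤ) ∣ S := by
    have h6 : (F : ℤ) ∣ (E : ℤ) := ⟨(3 : ℤ) ^ padicValNat 3 E, by rw [mul_comm]; exact_mod_cast hF⟩
    have h7 : IsCoprime (F : ℤ) ((3 : ℤ) ^ e) := by
      have : IsCoprime (F : ℤ) (3 : ℤ) := by exact_mod_cast (Nat.isCoprime_iff_coprime.2 h3.symm)
      exact this.pow_right
    exact h7.dvd_of_dvd_mul_left (h6.trans h1)
  have h8 : (E : ℤ) = (3 : ℤ) ^ padicValNat 3 E * F := by exact_mod_cast hF
  rw [h8]
  exact h4.mul_dvd h2 h5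

theorem D_eq (K : ℕ) : (K + 1) * (2 * (K + 1) + 1) * (2 * (K + 1)).choose (K + 1) = 2 * D K := by
  have h := central K
  unfold D
  linear_combination (2 * K + 3) * h

/-- the conclusion in terms of divisibility -/
theorem final {c : ℕ → ℕ} {ph : ℕ → ℕ → ℕ} (hc : Good3 c ph) {a b m : ℤ} (hm : 3 ∣ m) (hb : ¬ 3 ∣ b) {S : ℕ → ℤ}
    (h0 : S 0 = 0) (hS : ∀ n, S (n + 1) = m * S n + (a * n + b) * c n) {κ : ℕ} (hκ : ¬ 3 ∣ κ) {K e : ℕ}
    (h : ((κ * D K : ℕ) : ℤ) ∣ 3 ^ e * S (K + 1)) :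
    ((∀ t, 2 * K + 3 ≠ 3 ^ t) → ((κ * D K : ℕ) : ℤ) ∣ S (K + 1)) ∧
    (∀ t, 2 * K + 3 = 3 ^ t → ((κ * D K : ℕ) : ℤ) ∣ 3 * S (K + 1) ∧ ¬ ((κ * D K : ℕ) : ℤ) ∣ S (K + 1)) := by
  have k0 : κ ≠ 0 := by rintro rfl; exact hκ (dvd_zero _)
  have hD := (D_pos K).ne'
  have hv : padicValNat 3 (κ * D K) = padicValNat 3 (D K) := by
    rw [padicValNat.mul k0 hD, padicValNat.eq_zero_of_not_dvd hκ, zero_add]
  refine ⟨fun hK => ?_, fun t ht => ⟨?_, fun hh => ?_⟩⟩
  · refine assemble (Nat.mul_ne_zero k0 hD) h ?_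
    rw [hv]
    exact three_main hc hm h0 hS hK
  · refine assemble (e := e) (Nat.mul_ne_zero k0 hD) ?_ ?_
    · rw [show (3 : ℤ) ^ e * (3 * S (K + 1)) = 3 * (3 ^ e * S (K + 1)) by ring]
      exact Dvd.dvd.mul_left h 3
    · rw [hv]
      exact three_main' hc hm h0 hS K
  · have h1 : (3 : ℤ) ^ padicValNat 3 (D K) ∣ ((κ * D K : ℕ) : ℤ) := by
      have : 3 ^ padicValNat 3 (D K) ∣ κ * D K := Dvd.dvd.mul_left pow_padicValNat_dvd κ
      exact_mod_cast this
    exact three_exact hc hm hb h0 hS ht (h1.trans hh)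

/-- the conclusion in terms of the quotients -/
theorem final_q {c : ℕ → ℕ} {ph : ℕ → ℕ → ℕ} (hc : Good3 c ph) {a b m : ℤ} (hm : 3 ∣ m) (hb : ¬ 3 ∣ b) {S : ℕ → ℤ}
    (h0 : S 0 = 0) (hS : ∀ n, S (n + 1) = m * S n + (a * n + b) * c n) {κ : ℕ} (hκ : ¬ 3 ∣ κ) {K e : ℕ}
    (h : ((κ * D K : ℕ) : ℤ) ∣ 3 ^ e * S (K + 1)) {q : ℚ} (hq : q * ((κ * D K : ℕ) : ℚ) = S (K + 1)) :
    ((∀ t, 2 * K + 3 ≠ 3 ^ t) → ∃ z : ℤ, q = z) ∧
    (∀ t, 2 * K + 3 = 3 ^ t → ∃ z : ℤ, 3 * q = z ∧ ¬ 3 ∣ z) := by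
  obtain ⟨h1, h2⟩ := final hc hm hb h0 hS hκ h
  have k0 : κ ≠ 0 := by rintro rfl; exact hκ (dvd_zero _)
  have hD := (D_pos K).ne'
  have hpos : ((κ * D K : ℕ) : ℚ) ≠ 0 := by exact_mod_cast Nat.mul_ne_zero k0 hD
  refine ⟨fun hK => ?_, fun t ht => ?_⟩
  · obtain ⟨z, hz⟩ := h1 hK
    refine ⟨z, ?_⟩
    apply mul_right_cancel₀ hpos
    rw [hq, hz]; push_cast; ring
  · obtain ⟨⟨z, hz⟩, h4⟩ := h2 t ht
    have hz' : (3 : ℚ) * (S (K + 1) : ℚ) = ((κ * D K : ℕ) : ℚ) * z := by exact_mod_cast hz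
    have e1 : 3 * q = z := by
      apply mul_right_cancel₀ hpos
      linear_combination 3 * hq + hz'
    refine ⟨z, e1, ?_⟩
    rintro ⟨w, rfl⟩
    apply h4
    refine ⟨w, ?_⟩
    have e2 : q = w := by
      push_cast at e1
      linarith
    have : (S (K + 1) : ℚ) = ((κ * D K : ℕ) : ℚ) * w := by rw [← hq, e2]; ring
    exact_mod_cast this

end V11307.RI
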