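import Pool.Agent.V11307.RI.T32768

set_option autoImplicit false

/-! The sums `∑_{k<n} (154k+15) (6k)!/((3k)!(k!)^3) (-32768)^(n-1-k)`: the terms modulo `5`. -/

namespace V11307.RI.S32768

open Finset Nat

theorem dvd_one (k r : ℕ) : (3 * (2 * k + r))! * ((2 * (2 * k + r))! * (k ! * ((2 * r)! * (2 * k + r + k)!))) ∣
    (6 * (2 * k + r))! * ((2 * k + r)! * r !) := by
  have h := fact_dvd [6 * (2 * k + r), 2 * k + r, r] [3 * (2 * k + r), 2 * (2 * k + r), k, 2 * r, 2 * k + r + k] ?_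
  · simpa using h
  intro q hq
  simp only [List.map_cons, List.map_nil, List.sum_cons, List.sum_nil, Nat.add_zero]
  have hq0 : 0 < q := by omega
  have hs : k % q < q := Nat.mod_lt _ hq0
  have ht : r % q < q := Nat.mod_lt _ hq0
  have ej := Nat.div_add_mod k q
  have er := Nat.div_add_mod r q
  have hl := lvl1 (k % q) (r % q) (2 * (k % q) + r % q) q rfl hq hs ht
  generalize k % q = s at *
  generalize k / q = A at *
  generalize r % q = t at *
  generalize r / q = B at *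
  subst ej er
  have e1 : 2 * (q * A + s) + (q * B + t) = (2 * s + t) + q * (2 * A + B) := by ring
  rw [e1, show 2 * s + t + q * (2 * A + B) + (q * A + s) = (3 * s + t) + q * (3 * A + B) by ring,
    show q * B + t = t + q * B by ring,
    show 3 * (2 * s + t + q * (2 * A + B)) = (3 * (2 * s + t)) + q * (3 * (2 * A + B)) by ring,
    show 2 * (2 * s + t + q * (2 * A + B)) = (2 * (2 * s + t)) + q * (2 * (2 * A + B)) by ring,
    show 6 * (2 * s + t + q * (2 * A + B)) = (6 * (2 * s + t)) + q * (6 * (2 * A + B)) by ring,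
    show 2 * (t + q * B) = 2 * t + q * (2 * B) by ring]
  simp only [Nat.add_mul_div_left _ _ hq0]
  omega

theorem dvd_two (s r : ℕ) : (3 * (2 * s + r))! * ((2 * (2 * s + r))! * ((s + r)! * (r ! * (2 * s + r + (s + r))!))) ∣
    (6 * (2 * s + r))! * ((2 * r)! * (2 * s + r)!) := by
  have h := fact_dvd [6 * (2 * s + r), 2 * r, 2 * s + r] [3 * (2 * s + r), 2 * (2 * s + r), s + r, r, 2 * s + r + (s + r)] ?_
  · simpa using h
  intro q hq
  simp only [List.map_cons, List.map_nil, List.sum_cons, List.sum_nil, Nat.add_zero]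
  have hq0 : 0 < q := by omega
  have hs : s % q < q := Nat.mod_lt _ hq0
  have ht : r % q < q := Nat.mod_lt _ hq0
  have ej := Nat.div_add_mod s q
  have er := Nat.div_add_mod r q
  have hl := lvl2 (s % q) (r % q) (2 * (s % q) + r % q) q rfl hq hs ht
  generalize s % q = s' at *
  generalize s / q = A at *
  generalize r % q = t at *
  generalize r / q = B at *
  subst ej er
  have e1 : 2 * (q * A + s') + (q * B + t) = (2 * s' + t) + q * (2 * A + B) := by ring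
  have e2 : q * A + s' + (q * B + t) = (s' + t) + q * (A + B) := by ring
  rw [e1, e2, show 2 * s' + t + q * (2 * A + B) + (s' + t + q * (A + B)) = (3 * s' + 2 * t) + q * (3 * A + 2 * B) by ring,
    show q * B + t = t + q * B by ring,
    show 3 * (2 * s' + t + q * (2 * A + B)) = (3 * (2 * s' + t)) + q * (3 * (2 * A + B)) by ring,
    show 2 * (2 * s' + t + q * (2 * A + B)) = (2 * (2 * s' + t)) + q * (2 * (2 * A + B)) by ring,
    show 6 * (2 * s' + t + q * (2 * A + B)) = (6 * (2 * s' + t)) + q * (6 * (2 * A + B)) by ring,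
    show 2 * (t + q * B) = 2 * t + q * (2 * B) by ring]
  simp only [Nat.add_mul_div_left _ _ hq0]
  omega

theorem T_int {N k : ℕ} (hk : k ≤ N) : ∃ z : ℤ, T N k = z := by
  have n1 : ((3 * N)! : ℚ) ≠ 0 := by exact_mod_cast (3 * N).factorial_ne_zero
  have n2 : ((2 * N)! : ℚ) ≠ 0 := by exact_mod_cast (2 * N).factorial_ne_zero
  have n4 : (k ! : ℚ) ≠ 0 := by exact_mod_cast k.factorial_ne_zero
  have n7 : ((N + k)! : ℚ) ≠ 0 := by exact_mod_cast (N + k).factorial_ne_zero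
  rcases Nat.lt_or_ge N (2 * k) with h | h
  · obtain ⟨r, hr⟩ : ∃ r, N + r = 2 * k := ⟨2 * k - N, by omega⟩
    obtain ⟨s, hs⟩ : ∃ s, N = k + s := ⟨N - k, by omega⟩
    have h1 := T_two hr
    obtain ⟨z, hz⟩ := dvd_two s r
    rw [show 2 * s + r = N by omega, show s + r = k by omega] at hz
    have n5 : (r ! : ℚ) ≠ 0 := by exact_mod_cast r.factorial_ne_zero
    have hz' : ((6 * N)! : ℚ) * (((2 * r)! : ℚ) * (N ! : ℚ)) =
        ((3 * N)! : ℚ) * (((2 * N)! : ℚ) * ((k ! : ℚ) * ((r ! : ℚ) * ((N + k)! : ℚ)))) * z := by exact_mod_cast hz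
    refine ⟨(-1) ^ N * z, ?_⟩
    have hpos : ((3 * N)! : ℚ) * ((2 * N)! : ℚ) * (k ! : ℚ) * (r ! : ℚ) * ((N + k)! : ℚ) ≠ 0 := by positivity
    apply mul_right_cancel₀ hpos
    push_cast
    rw [h1]
    linear_combination (-1 : ℚ) ^ N * hz'
  · obtain ⟨r, hr⟩ : ∃ r, N = 2 * k + r := ⟨N - 2 * k, by omega⟩
    have h1 := T_one hr
    obtain ⟨z, hz⟩ := dvd_one k r
    rw [← hr] at hz
    have n5 : ((2 * r)! : ℚ) ≠ 0 := by exact_mod_cast (2 * r).factorial_ne_zero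
    have hz' : ((6 * N)! : ℚ) * ((N ! : ℚ) * (r ! : ℚ)) =
        ((3 * N)! : ℚ) * (((2 * N)! : ℚ) * ((k ! : ℚ) * (((2 * r)! : ℚ) * ((N + k)! : ℚ)))) * z := by exact_mod_cast hz
    refine ⟨z, ?_⟩
    have hpos : ((3 * N)! : ℚ) * ((2 * N)! : ℚ) * (k ! : ℚ) * ((2 * r)! : ℚ) * ((N + k)! : ℚ) ≠ 0 := by positivity
    apply mul_right_cancel₀ hpos
    rw [h1]
    linear_combination hz'

/-- integer version of the terms -/
noncomputable def Tz (N k : ℕ) : ℤ := if h : k ≤ N then (T_int h).choose else 0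

theorem Tz_eq {N k : ℕ} (hk : k ≤ N) : (Tz N k : ℚ) = T N k := by
  unfold Tz
  rw [dif_pos hk]
  exact (T_int hk).choose_spec.symm

theorem Tz_succ {N k : ℕ} (hk : k + 1 ≤ N) : ((k : ℤ) + 1) * (N + k + 1) * Tz N (k + 1) =
    4 * (4 * k - 2 * N + 1) * (4 * k - 2 * N + 3) * Tz N k := by
  have h := T_succ N k
  rw [← Tz_eq hk, ← Tz_eq (by omega)] at h
  exact_mod_cast h

/-- `(5n)!/(5^n n!)` -/
def V : ℕ → ℕ
  | 0 => 1
  | n + 1 => (5 * n + 4) * (5 * n + 3) * (5 * n + 2) * (5 * n + 1) * V n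

theorem V_fact (n : ℕ) : (5 * n)! = 5 ^ n * n ! * V n := by
  induction n with
  | zero => simp [V]
  | succ n ih =>
    rw [show 5 * (n + 1) = 5 * n + 1 + 1 + 1 + 1 + 1 by ring, Nat.factorial_succ, Nat.factorial_succ,
      Nat.factorial_succ, Nat.factorial_succ, Nat.factorial_succ, ih, Nat.factorial_succ, V, pow_succ]
    ring

theorem V_mod (n : ℕ) : (V n : ZMod 5) = (-1) ^ n := by
  induction n with
  | zero => simp [V]
  | succ n ih =>
    rw [V, pow_succ]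
    push_cast
    rw [ih]
    have h5 : (5 : ZMod 5) = 0 := rfl
    rw [h5]
    have : ((0 * (n : ZMod 5) + 4) * (0 * (n : ZMod 5) + 3) * (0 * (n : ZMod 5) + 2) * (0 * (n : ZMod 5) + 1)) = -1 := by
      simp only [zero_mul, zero_add]
      decide
    rw [this]
    ring

theorem Vq (n : ℕ) : ((5 * n)! : ℚ) = 5 ^ n * (n ! : ℚ) * (V n : ℚ) := by
  exact_mod_cast V_fact n

/-- `T(5M,5k) ≡ T(M,k) (mod 5)` -/
theorem Tz_five {M k : ℕ} (hk : k ≤ M) : (Tz (5 * M) (5 * k) : ZMod 5) = (Tz M k : ZMod 5) := by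
  have n1 : ((3 * M)! : ℚ) ≠ 0 := by exact_mod_cast (3 * M).factorial_ne_zero
  have n2 : ((2 * M)! : ℚ) ≠ 0 := by exact_mod_cast (2 * M).factorial_ne_zero
  have n4 : (k ! : ℚ) ≠ 0 := by exact_mod_cast k.factorial_ne_zero
  have n7 : ((M + k)! : ℚ) ≠ 0 := by exact_mod_cast (M + k).factorial_ne_zero
  rcases Nat.lt_or_ge M (2 * k) with h | h
  · obtain ⟨r, hr⟩ : ∃ r, M + r = 2 * k := ⟨2 * k - M, by omega⟩
    have n5 : (r ! : ℚ) ≠ 0 := by exact_mod_cast r.factorial_ne_zero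
    have h1 := T_two hr
    have h2 := T_two (N := 5 * M) (k := 5 * k) (r := 5 * r) (by omega)
    rw [← Tz_eq hk] at h1
    rw [← Tz_eq (by omega), show 3 * (5 * M) = 5 * (3 * M) by ring, show 2 * (5 * M) = 5 * (2 * M) by ring,
      show 6 * (5 * M) = 5 * (6 * M) by ring, show 2 * (5 * r) = 5 * (2 * r) by ring,
      show 5 * M + 5 * k = 5 * (M + k) by ring, Vq, Vq, Vq, Vq, Vq, Vq, Vq, Vq] at h2
    have hp : (5 : ℚ) ^ (6 * M) * 5 ^ (2 * r) * 5 ^ M = 5 ^ (3 * M) * 5 ^ (2 * M) * 5 ^ k * 5 ^ r * 5 ^ (M + k) := by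
      simp only [← pow_add]
      congr 1
      omega
    have hs : (-1 : ℚ) ^ (5 * M) = (-1) ^ M := by
      rw [pow_mul]; norm_num
    rw [hs] at h2
    have h3 : (Tz (5 * M) (5 * k) : ℚ) * (V (3 * M) * V (2 * M) * V k * V r * V (M + k)) =
        Tz M k * (V (6 * M) * V (2 * r) * V M) := by
      have hpos : (5 : ℚ) ^ (3 * M) * 5 ^ (2 * M) * 5 ^ k * 5 ^ r * 5 ^ (M + k) *
        (((3 * M)! : ℚ) * ((2 * M)! : ℚ) * (k ! : ℚ) * (r ! : ℚ) * ((M + k)! : ℚ)) ≠ 0 := by positivity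
      apply mul_left_cancel₀ hpos
      linear_combination h2 + (-1) ^ M * ((6 * M)! : ℚ) * ((2 * r)! : ℚ) * (M ! : ℚ) * (V (6 * M) * V (2 * r) * V M) * hp -
        (5 : ℚ) ^ (3 * M) * 5 ^ (2 * M) * 5 ^ k * 5 ^ r * 5 ^ (M + k) * (V (6 * M) * V (2 * r) * V M) * h1
    have h4 : Tz (5 * M) (5 * k) * (V (3 * M) * V (2 * M) * V k * V r * V (M + k) : ℕ) =
        Tz M k * (V (6 * M) * V (2 * r) * V M : ℕ) := by exact_mod_cast h3
    have h5 := congrArg (Int.cast : ℤ → ZMod 5) h4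
    push_cast at h5
    rw [V_mod, V_mod, V_mod, V_mod, V_mod, V_mod, V_mod, V_mod] at h5
    have e1 : (-1 : ZMod 5) ^ (3 * M) * (-1) ^ (2 * M) * (-1) ^ k * (-1) ^ r * (-1) ^ (M + k) = (-1) ^ (6 * M + 2 * k + r) := by
      simp only [← pow_add]
      congr 1
      ring
    have e2 : (-1 : ZMod 5) ^ (6 * M) * (-1) ^ (2 * r) * (-1) ^ M = (-1) ^ (6 * M + 2 * k + r) := by
      simp only [← pow_add]
      have : 6 * M + 2 * k + r = 6 * M + 2 * r + M := by omega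
      rw [this]
    rw [e1, e2] at h5
    have hu : ((-1 : ZMod 5) ^ (6 * M + 2 * k + r)) * ((-1 : ZMod 5) ^ (6 * M + 2 * k + r)) = 1 := by
      rw [← mul_pow]; norm_num
    calc (Tz (5 * M) (5 * k) : ZMod 5) = Tz (5 * M) (5 * k) * (-1) ^ (6 * M + 2 * k + r) * (-1) ^ (6 * M + 2 * k + r) := by
          rw [mul_assoc, hu, mul_one]
      _ = Tz M k := by rw [h5, mul_assoc, hu, mul_one]
  · obtain ⟨r, hr⟩ : ∃ r, M = 2 * k + r := ⟨M - 2 * k, by omega⟩
    have n5 : ((2 * r)! : ℚ) ≠ 0 := by exact_mod_cast (2 * r).factorial_ne_zero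
    have h1 := T_one hr
    have h2 := T_one (N := 5 * M) (k := 5 * k) (r := 5 * r) (by omega)
    rw [← Tz_eq hk] at h1
    rw [← Tz_eq (by omega), show 3 * (5 * M) = 5 * (3 * M) by ring, show 2 * (5 * M) = 5 * (2 * M) by ring,
      show 6 * (5 * M) = 5 * (6 * M) by ring, show 2 * (5 * r) = 5 * (2 * r) by ring,
      show 5 * M + 5 * k = 5 * (M + k) by ring, Vq, Vq, Vq, Vq, Vq, Vq, Vq, Vq] at h2
    have hp : (5 : ℚ) ^ (6 * M) * 5 ^ M * 5 ^ r = 5 ^ (3 * M) * 5 ^ (2 * M) * 5 ^ k * 5 ^ (2 * r) * 5 ^ (M + k) := by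
      simp only [← pow_add]
      congr 1
      omega
    have h3 : (Tz (5 * M) (5 * k) : ℚ) * (V (3 * M) * V (2 * M) * V k * V (2 * r) * V (M + k)) =
        Tz M k * (V (6 * M) * V M * V r) := by
      have hpos : (5 : ℚ) ^ (3 * M) * 5 ^ (2 * M) * 5 ^ k * 5 ^ (2 * r) * 5 ^ (M + k) *
        (((3 * M)! : ℚ) * ((2 * M)! : ℚ) * (k ! : ℚ) * ((2 * r)! : ℚ) * ((M + k)! : ℚ)) ≠ 0 := by positivity
      apply mul_left_cancel₀ hpos
      linear_combination h2 + ((6 * M)! : ℚ) * (M ! : ℚ) * (r ! : ℚ) * (V (6 * M) * V M * V r) * hp -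
        (5 : ℚ) ^ (3 * M) * 5 ^ (2 * M) * 5 ^ k * 5 ^ (2 * r) * 5 ^ (M + k) * (V (6 * M) * V M * V r) * h1
    have h4 : Tz (5 * M) (5 * k) * (V (3 * M) * V (2 * M) * V k * V (2 * r) * V (M + k) : ℕ) =
        Tz M k * (V (6 * M) * V M * V r : ℕ) := by exact_mod_cast h3
    have h5 := congrArg (Int.cast : ℤ → ZMod 5) h4
    push_cast at h5
    rw [V_mod, V_mod, V_mod, V_mod, V_mod, V_mod, V_mod, V_mod] at h5
    have e1 : (-1 : ZMod 5) ^ (3 * M) * (-1) ^ (2 * M) * (-1) ^ k * (-1) ^ (2 * r) * (-1) ^ (M + k) =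
        (-1) ^ (6 * M + 2 * k + 2 * r) := by
      simp only [← pow_add]
      congr 1
      ring
    have e2 : (-1 : ZMod 5) ^ (6 * M) * (-1) ^ M * (-1) ^ r = (-1) ^ (6 * M + 2 * k + 2 * r) := by
      simp only [← pow_add]
      have : 6 * M + 2 * k + 2 * r = 6 * M + M + r := by omega
      rw [this]
    rw [e1, e2] at h5
    have hu : ((-1 : ZMod 5) ^ (6 * M + 2 * k + 2 * r)) * ((-1 : ZMod 5) ^ (6 * M + 2 * k + 2 * r)) = 1 := by
      rw [← mul_pow]; norm_num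
    calc (Tz (5 * M) (5 * k) : ZMod 5) =
          Tz (5 * M) (5 * k) * (-1) ^ (6 * M + 2 * k + 2 * r) * (-1) ^ (6 * M + 2 * k + 2 * r) := by
          rw [mul_assoc, hu, mul_one]
      _ = Tz M k := by rw [h5, mul_assoc, hu, mul_one]

end V11307.RI.S32768
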