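import Pool.Agent.V11307.RI.U32768

set_option autoImplicit false

/-! The sums `∑_{k<n} (154k+15) (6k)!/((3k)!(k!)^3) (-32768)^(n-1-k)`: the primes `5` and `2`. -/

namespace V11307.RI.S32768

open Finset Nat

/-- the integer factor `4 S_N / (N C(2N,N))` up to sign -/
noncomputable def Bz (N : ℕ) : ℤ := ∑ k ∈ range N, 64 ^ (N - 1 - k) * Tz N k

theorem Z_closed (n : ℕ) : 2 * Z (n + 1) = (2 * (n : ℤ) + 1) * ((2 * n).choose n : ℤ) * ((-1) ^ n * Bz (n + 1)) := by
  have h : 2 * (Z (n + 1) : ℚ) = (2 * (n : ℚ) + 1) * ((2 * n).choose n : ℚ) * ((-1) ^ n * (Bz (n + 1) : ℚ)) := by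
    rw [Z_eq, mul_sum, ← Finset.sum_range_reflect]
    unfold Bz
    push_cast
    rw [mul_sum, mul_sum]
    refine sum_congr rfl fun k hk => ?_
    rw [mem_range] at hk
    rw [Tz_eq (by omega)]
    obtain ⟨j, rfl⟩ : ∃ j, n = k + j := ⟨n - k, by omega⟩
    rw [show k + j - k = j by omega, show k + j - j = k by omega]
    unfold g
    rw [show j + k = k + j by ring]
    push_cast
    ring
  exact_mod_cast h

theorem B_rec (n : ℕ) : (2 * ((n : ℤ) + 1) + 1) * Bz (n + 2) = 16384 * (n + 1) * Bz (n + 1) +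
    2 * (-1) ^ (n + 1) * (154 * (n + 1) + 15) * X (n + 1) := by
  have h1 := Z_succ (n + 1)
  have h2 := Z_closed n
  have h3 := Z_closed (n + 1)
  rw [show n + 1 + 1 = n + 2 by ring] at h1 h3
  have hc : ((n : ℤ) + 1) * ((2 * (n + 1)).choose (n + 1) : ℤ) = 2 * (2 * n + 1) * ((2 * n).choose n : ℤ) := by
    exact_mod_cast central n
  have hpos : ((2 * (n + 1)).choose (n + 1) : ℤ) ≠ 0 := by exact_mod_cast (choose_pos' (n + 1)).ne'
  unfold c6 at h1
  push_cast at h1 h3
  have hs : ((-1 : ℤ) ^ n) * (-1) ^ n = 1 := by rw [← mul_pow]; norm_num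
  rw [pow_succ] at h3 ⊢
  apply mul_left_cancel₀ hpos
  generalize ((-1 : ℤ) ^ n) = s at *
  linear_combination (s : ℤ) * h3 - 2 * s * h1 + 32768 * s * h2 + 16384 * Bz (n + 1) * s ^ 2 * (-hc) +
    (-((2 * (n + 1)).choose (n + 1) : ℤ) * (2 * ((n : ℤ) + 1) + 1) * Bz (n + 2) +
      16384 * (n + 1) * ((2 * (n + 1)).choose (n + 1) : ℤ) * Bz (n + 1) * (1)) * hs

/-! ### modulo `5` -/

theorem sum5 {α : Type*} [AddCommMonoid α] (f : ℕ → α) (M : ℕ) : ∑ k ∈ range (5 * M), f k =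
    ∑ k ∈ range M, (f (5 * k) + f (5 * k + 1) + f (5 * k + 2) + f (5 * k + 3) + f (5 * k + 4)) := by
  induction M with
  | zero => simp
  | succ M ih =>
    rw [show 5 * (M + 1) = 5 * M + 1 + 1 + 1 + 1 + 1 by ring, sum_range_succ, sum_range_succ, sum_range_succ,
      sum_range_succ, sum_range_succ, ih, sum_range_succ]
    simp only [add_assoc]

theorem B_five (M : ℕ) : (Bz (5 * M) : ZMod 5) = -(Bz M : ZMod 5) := by
  unfold Bz
  push_cast
  rw [sum5, ← sum_neg_distrib]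
  refine sum_congr rfl fun k hk => ?_
  rw [mem_range] at hk
  have h5 : (5 : ZMod 5) = 0 := rfl
  have s0 := Tz_succ (N := 5 * M) (k := 5 * k) (by omega)
  have s1 := Tz_succ (N := 5 * M) (k := 5 * k + 1) (by omega)
  have s2 := Tz_succ (N := 5 * M) (k := 5 * k + 2) (by omega)
  have s3 := Tz_succ (N := 5 * M) (k := 5 * k + 3) (by omega)
  have t0 := congrArg (Int.cast : ℤ → ZMod 5) s0
  have t1 := congrArg (Int.cast : ℤ → ZMod 5) s1
  have t2 := congrArg (Int.cast : ℤ → ZMod 5) s2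
  have t3 := congrArg (Int.cast : ℤ → ZMod 5) s3
  push_cast at t0 t1 t2 t3
  rw [h5] at t0 t1 t2 t3
  have t4 := Tz_five (M := M) (k := k) hk.le
  have e64 : (64 : ZMod 5) = -1 := by decide
  have hx : ∃ x, M - 1 - k = x ∧ 5 * M - 1 - 5 * k = 5 * x + 4 ∧ 5 * M - 1 - (5 * k + 1) = 5 * x + 3 := by
    exact ⟨_, rfl, by omega, by omega⟩
  obtain ⟨x, x1, x2, x3⟩ := hx
  rw [x1, x2, x3, e64]
  simp only [zero_mul, mul_zero, zero_add, add_zero, sub_zero, one_mul, mul_one] at t0 t1 t2 t3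
  have L0 : ∀ a b : ZMod 5, a = 4 * 3 * b → a = 2 * b := by decide
  have L1 : ∀ a b : ZMod 5, (1 + 1) * (1 + 1) * a = 4 * (4 + 1) * (4 + 3) * b → a = 0 := by decide
  have L2 : ∀ a : ZMod 5, (2 + 1) * (2 + 1) * a = 4 * (4 * 2 + 1) * (4 * 2 + 3) * 0 → a = 0 := by decide
  have L3 : ∀ a : ZMod 5, (3 + 1) * (3 + 1) * a = 4 * (4 * 3 + 1) * (4 * 3 + 3) * 0 → a = 0 := by decide
  have r1 := L0 _ _ t0
  have r2 := L1 _ _ t1
  rw [show 5 * k + 1 + 1 = 5 * k + 2 by ring] at r2
  rw [r2] at t2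
  have r3 := L2 _ t2
  rw [show 5 * k + 2 + 1 = 5 * k + 3 by ring] at r3
  rw [r3] at t3
  have r4 := L3 _ t3
  rw [show 5 * k + 3 + 1 = 5 * k + 4 by ring] at r4
  rw [r1, r2, r3, r4, t4, show 5 * x + 4 = 2 * (2 * x + 2) + x by ring, show 5 * x + 3 = 2 * (2 * x + 1) + 1 + x by ring,
    pow_add, pow_add _ (2 * (2 * x + 1) + 1) x, pow_succ _ (2 * (2 * x + 1)), pow_mul, pow_mul]
  norm_num
  ring

/-! ### `5`-adic valuation of `X` -/

instance : Fact (Nat.Prime 5) := ⟨Nat.prime_five⟩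

theorem val_X {N B : ℕ} (h : 6 * N < B) : padicValNat 5 (X N) + ∑ l ∈ Ico 1 B,
    (3 * (N % 5 ^ l) / 5 ^ l + 2 * (N % 5 ^ l) / 5 ^ l) = ∑ l ∈ Ico 1 B, 6 * (N % 5 ^ l) / 5 ^ l := by
  have vf : ∀ n, n < B → padicValNat 5 n ! = ∑ l ∈ Ico 1 B, n / 5 ^ l := fun n hn =>
    padicValNat_factorial (lt_of_le_of_lt (Nat.log_le_self _ _) hn)
  have h1 := congrArg (padicValNat 5) (X_fact N)
  have p1 := (X_pos N).ne'
  have p2 := (3 * N).factorial_ne_zero
  have p3 := (2 * N).factorial_ne_zero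
  have p4 := N.factorial_ne_zero
  rw [padicValNat.mul p1 (by positivity), padicValNat.mul p2 (by positivity), padicValNat.mul p3 p4,
    vf _ (by omega), vf _ (by omega), vf _ (by omega), vf _ (by omega)] at h1
  have h2 : ∀ l ∈ Ico 1 B, 3 * N / 5 ^ l + (2 * N / 5 ^ l + N / 5 ^ l) + 6 * (N % 5 ^ l) / 5 ^ l =
      6 * N / 5 ^ l + (3 * (N % 5 ^ l) / 5 ^ l + 2 * (N % 5 ^ l) / 5 ^ l) := by
    intro l _
    have hq : 0 < 5 ^ l := by positivity
    generalize 5 ^ l = q at *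
    have e := Nat.div_add_mod N q
    generalize N / q = A at *
    generalize hr : N % q = r at *
    subst e
    rw [show 3 * (q * A + r) = 3 * r + q * (3 * A) by ring, show 2 * (q * A + r) = 2 * r + q * (2 * A) by ring,
      show 6 * (q * A + r) = 6 * r + q * (6 * A) by ring,
      Nat.add_mul_div_left _ _ hq, Nat.add_mul_div_left _ _ hq, Nat.add_mul_div_left _ _ hq]
    ring
  have h3 := sum_congr rfl h2
  simp only [sum_add_distrib] at h3 ⊢
  omega

theorem lev5 {r q : ℕ} (hq : 0 < q) (hr : r < q) : 3 * r / q + 2 * r / q ≤ 6 * r / q := by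
  obtain ⟨a1, a2⟩ := flr (x := 3 * r) hq
  obtain ⟨b1, b2⟩ := flr (x := 2 * r) hq
  have a5 : 3 * r / q < 3 := by rw [Nat.div_lt_iff_lt_mul hq]; omega
  have b5 : 2 * r / q < 2 := by rw [Nat.div_lt_iff_lt_mul hq]; omega
  rw [Nat.le_div_iff_mul_le hq]
  generalize 3 * r / q = x at *
  generalize 2 * r / q = y at *
  interval_cases x <;> interval_cases y <;> omega

theorem lev5' {r q : ℕ} (hq : 0 < q) (hr : r < q) (h6 : q ≤ 6 * r) : 3 * r / q + 2 * r / q + 1 ≤ 6 * r / q := by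
  obtain ⟨a1, a2⟩ := flr (x := 3 * r) hq
  obtain ⟨b1, b2⟩ := flr (x := 2 * r) hq
  have a5 : 3 * r / q < 3 := by rw [Nat.div_lt_iff_lt_mul hq]; omega
  have b5 : 2 * r / q < 2 := by rw [Nat.div_lt_iff_lt_mul hq]; omega
  rw [Nat.le_div_iff_mul_le hq]
  generalize 3 * r / q = x at *
  generalize 2 * r / q = y at *
  interval_cases x <;> interval_cases y <;> omega

theorem mod_half {N l v : ℕ} (hl : l ≤ v) (h : 5 ^ v ∣ 2 * N + 1) : 2 * (N % 5 ^ l) + 1 = 5 ^ l := by
  have h1 : 5 ^ l ∣ 2 * N + 1 := (pow_dvd_pow 5 hl).trans h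
  have hq : 0 < 5 ^ l := by positivity
  generalize 5 ^ l = q at *
  have e := Nat.div_add_mod N q
  have hr := Nat.mod_lt N hq
  generalize N / q = A at *
  generalize N % q = r at *
  have h2 : q ∣ 2 * r + 1 := by
    have : 2 * N + 1 = q * (2 * A) + (2 * r + 1) := by rw [← e]; ring
    rw [this] at h1
    exact (Nat.dvd_add_right (Dvd.intro _ rfl)).1 h1
  obtain ⟨c, hc⟩ := h2
  have : c < 2 := by
    by_contra hh
    have : q * 2 ≤ q * c := Nat.mul_le_mul_left q (by omega)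
    omega
  interval_cases c
  · omega
  · omega

/-- `v+1` levels -/
theorem val_X_ge {N v : ℕ} (hN : 1 ≤ N) (h : 5 ^ v ∣ 2 * N + 1) (hp : ∀ t, 2 * N + 1 ≠ 5 ^ t) : 5 ^ (v + 1) ∣ X N := by
  rw [padicValNat_dvd_iff_le (X_pos N).ne']
  obtain ⟨B, hB⟩ : ∃ B, B = 6 * N + 2 := ⟨_, rfl⟩
  have h1 := val_X (N := N) (B := B) (by omega)
  obtain ⟨l0, hl0⟩ : ∃ l0, l0 = Nat.log 5 N + 1 := ⟨_, rfl⟩
  have hlow : 5 ^ (l0 - 1) ≤ N := by rw [hl0, Nat.add_sub_cancel]; exact Nat.pow_log_le_self 5 (by omega)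
  have hup : N < 5 ^ l0 := by rw [hl0]; exact Nat.lt_pow_succ_log_self (by norm_num) N
  have hv : v < l0 := by
    by_contra hh
    have h2 : 5 ^ l0 ∣ 2 * N + 1 := (pow_dvd_pow 5 (by omega)).trans h
    obtain ⟨c, hc⟩ := h2
    have : c < 2 := by
      by_contra hh
      have : 5 ^ l0 * 2 ≤ 5 ^ l0 * c := Nat.mul_le_mul_left _ (by omega)
      omega
    interval_cases c
    · omega
    · exact hp l0 (by omega)
  have hl0B : l0 < B := by
    have : Nat.log 5 N ≤ N := Nat.log_le_self _ _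
    omega
  have h2 : ∑ l ∈ Ico 1 B, (3 * (N % 5 ^ l) / 5 ^ l + 2 * (N % 5 ^ l) / 5 ^ l + (if l ≤ v ∨ l = l0 then 1 else 0)) ≤
      ∑ l ∈ Ico 1 B, 6 * (N % 5 ^ l) / 5 ^ l := by
    refine sum_le_sum fun l hl => ?_
    rw [mem_Ico] at hl
    have hq : 0 < 5 ^ l := by positivity
    have hr := Nat.mod_lt N hq
    split_ifs with hc
    · refine lev5' hq hr ?_
      rcases hc with hc | hc
      · have h3 := mod_half hc h
        have h5 : 5 ≤ 5 ^ l := by
          calc 5 = 5 ^ 1 := by norm_num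
            _ ≤ 5 ^ l := Nat.pow_le_pow_right (by norm_num) hl.1
        omega
      · subst hc
        rw [Nat.mod_eq_of_lt hup]
        have : 5 ^ l = 5 * 5 ^ (l - 1) := by
          rw [← pow_succ']; congr 1; omega
        omega
    · exact lev5 hq hr
  rw [sum_add_distrib, ← card_filter] at h2
  have h3 : v + 1 ≤ ((Ico 1 B).filter (fun l => l ≤ v ∨ l = l0)).card := by
    have h4 : (insert l0 (Ico 1 (v + 1))).card = v + 1 := by
      rw [card_insert_of_notMem]
      · simp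
      · rw [mem_Ico]; omega
    rw [← h4]
    refine card_le_card fun l hl => ?_
    rw [mem_insert, mem_Ico] at hl
    rw [mem_filter, mem_Ico]
    rcases hl with hl | hl
    · exact ⟨⟨by omega, by omega⟩, Or.inr hl⟩
    · exact ⟨⟨by omega, by omega⟩, Or.inl (by omega)⟩
  omega

theorem val_X_eq {N t : ℕ} (h : 2 * N + 1 = 5 ^ t) : ¬ 5 ^ (t + 1) ∣ X N := by
  rw [padicValNat_dvd_iff_le (X_pos N).ne']
  obtain ⟨B, hB⟩ : ∃ B, B = 6 * N + 2 := ⟨_, rfl⟩
  have h1 := val_X (N := N) (B := B) (by omega)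
  have h2 : ∑ l ∈ Ico 1 B, 6 * (N % 5 ^ l) / 5 ^ l ≤
      ∑ l ∈ Ico 1 B, (3 * (N % 5 ^ l) / 5 ^ l + 2 * (N % 5 ^ l) / 5 ^ l + (if l ≤ t then 1 else 0)) := by
    refine sum_le_sum fun l hl => ?_
    rw [mem_Ico] at hl
    have hq : 0 < 5 ^ l := by positivity
    split_ifs with hc
    · have h3 := mod_half (N := N) hc (by rw [h])
      have h5 : 5 ≤ 5 ^ l := by
        calc 5 = 5 ^ 1 := by norm_num
          _ ≤ 5 ^ l := Nat.pow_le_pow_right (by norm_num) hl.1
      generalize 5 ^ l = q at *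
      generalize N % q = r at *
      have e1 : 1 ≤ 3 * r / q := by rw [Nat.le_div_iff_mul_le hq]; omega
      have e2 : 6 * r / q < 3 := by rw [Nat.div_lt_iff_lt_mul hq]; omega
      generalize 3 * r / q = x at *
      generalize 6 * r / q = y at *
      generalize 2 * r / q = z at *
      omega
    · have h3 : 5 ^ (t + 1) ≤ 5 ^ l := Nat.pow_le_pow_right (by norm_num) (by omega)
      rw [pow_succ] at h3
      have h4 : 6 * (N % 5 ^ l) / 5 ^ l = 0 := by
        apply Nat.div_eq_of_lt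
        have := Nat.mod_le N (5 ^ l)
        omega
      rw [h4]; exact Nat.zero_le _
  rw [sum_add_distrib, ← card_filter] at h2
  have h3 : ((Ico 1 B).filter (fun l => l ≤ t)).card ≤ t := by
    refine (card_le_card (t := Ico 1 (t + 1)) fun l hl => ?_).trans (by simp)
    rw [mem_filter, mem_Ico] at hl
    rw [mem_Ico]
    omega
  omega

theorem X_fuss (N : ℕ) : (2 * N + 1) ∣ X N := by
  unfold X
  exact Dvd.dvd.mul_left (fuss N) _

theorem five_dvd_X {N : ℕ} (hN : 1 ≤ N) : 5 ∣ X N := by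
  by_cases hp : ∀ t, 2 * N + 1 ≠ 5 ^ t
  · exact val_X_ge (v := 0) hN (by simp) hp
  · push Not at hp
    obtain ⟨t, ht⟩ := hp
    have h1 : 1 ≤ t := by
      by_contra hh
      have : t = 0 := by omega
      rw [this] at ht
      omega
    exact (dvd_pow_self 5 (by omega : t ≠ 0)).trans (ht ▸ X_fuss N)

/-! ### `5 ∣ B_N` -/

theorem B_rec5 {N : ℕ} (hN : 1 ≤ N) : (2 * (N : ZMod 5) + 1) * (Bz (N + 1) : ZMod 5) = 4 * N * (Bz N : ZMod 5) := by
  obtain ⟨n, rfl⟩ : ∃ n, N = n + 1 := ⟨N - 1, by omega⟩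
  have h := congrArg (Int.cast : ℤ → ZMod 5) (B_rec n)
  obtain ⟨x, hx⟩ := five_dvd_X hN
  rw [hx] at h
  push_cast at h ⊢
  have h5 : (5 : ZMod 5) = 0 := rfl
  have e : (16384 : ZMod 5) = 4 := by decide
  rw [h5, e] at h
  rw [show n + 1 + 1 = n + 2 by ring]
  linear_combination h

theorem B_one : Bz 1 = 30 := by
  have h := Z_closed 0
  have h1 : Z 1 = 15 := by norm_num [Z, c6, X]
  rw [h1] at h
  norm_num at h
  linarith

theorem five_dvd_B (N : ℕ) (hN : 1 ≤ N) : (Bz N : ZMod 5) = 0 := by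
  induction N using Nat.strong_induction_on with
  | _ N ih =>
    have h5 : (5 : ZMod 5) = 0 := rfl
    have key : ∀ M, 1 ≤ M + 1 → (Bz (M + 1) : ZMod 5) = 0 → (Bz (5 * M + 5) : ZMod 5) = 0 ∧
        (Bz (5 * M + 4) : ZMod 5) = 0 ∧ (Bz (5 * M + 3) : ZMod 5) = 0 := by
      intro M _ hM
      have e5 : (Bz (5 * M + 5) : ZMod 5) = 0 := by
        rw [show 5 * M + 5 = 5 * (M + 1) by ring, B_five, hM, neg_zero]
      have e4 : (Bz (5 * M + 4) : ZMod 5) = 0 := by
        have := B_rec5 (N := 5 * M + 4) (by omega)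
        rw [show 5 * M + 4 + 1 = 5 * M + 5 by ring, e5] at this
        push_cast at this
        rw [h5] at this
        simp only [zero_mul, zero_add, mul_zero] at this
        revert this
        generalize (Bz (5 * M + 4) : ZMod 5) = y
        revert y
        decide
      refine ⟨e5, e4, ?_⟩
      have := B_rec5 (N := 5 * M + 3) (by omega)
      rw [show 5 * M + 3 + 1 = 5 * M + 4 by ring, e4] at this
      push_cast at this
      rw [h5] at this
      simp only [zero_mul, zero_add, mul_zero] at this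
      revert this
      generalize (Bz (5 * M + 3) : ZMod 5) = y
      revert y
      decide
    have hdiv := Nat.div_add_mod N 5
    obtain ⟨M, hM⟩ : ∃ M, M = N / 5 := ⟨_, rfl⟩
    rw [← hM] at hdiv
    have hlt : N % 5 < 5 := Nat.mod_lt _ (by norm_num)
    have hcase : N % 5 = 0 ∨ N % 5 = 1 ∨ N % 5 = 2 ∨ N % 5 = 3 ∨ N % 5 = 4 := by omega
    rcases hcase with h | h | h | h | h
    · have hN' : N = 5 * M := by omega
      rw [hN', B_five, ih M (by omega) (by omega), neg_zero]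
    · rcases Nat.eq_zero_or_pos M with h0 | h0
      · have : N = 1 := by omega
        rw [this, B_one]
        decide
      · have := B_rec5 (N := 5 * M) (by omega)
        rw [show 5 * M + 1 = N by omega] at this
        push_cast at this
        rw [h5] at this
        simpa using this
    · have h1 : (Bz (5 * M + 1) : ZMod 5) = 0 := ih (5 * M + 1) (by omega) (by omega)
      have := B_rec5 (N := 5 * M + 1) (by omega)
      rw [h1, show 5 * M + 1 + 1 = N by omega] at this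
      push_cast at this
      rw [h5] at this
      simp only [zero_mul, zero_add, mul_zero] at this
      revert this
      generalize (Bz N : ZMod 5) = y
      revert y
      decide
    · have := (key M (by omega) (ih (M + 1) (by omega) (by omega))).2.2
      rwa [show 5 * M + 3 = N by omega] at this
    · have := (key M (by omega) (ih (M + 1) (by omega) (by omega))).2.1
      rwa [show 5 * M + 4 = N by omega] at this

end V11307.RI.S32768
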